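import Mathlib
import Pool.Agent.Lib.MP_89bcae_ag.Gph.Shift

/-!
# The scheme of the counting with one collapsed coordinate
-/

open Polynomial

open scoped Classical

namespace Pool.Agent.Lib.MP_89bcae_ag

section

variable {κ : Type} [Fintype κ]

/-- As `count_collapse`, with one collapsed coordinate: `u ↦ (u c₁, u ∘ s)` is injective. -/
theorem count_collapse1 {p : ℕ} [Fact p.Prime] (s : κ → κ) (c₁ : κ)
    (hs' : ∀ c, c ≠ c₁ → s c = c) (P : (κ → ZMod p) → Prop) :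
    ({u : κ → ZMod p | P (u ∘ s)}).ncard ≤ p * ({u : κ → ZMod p | P u}).ncard := by
  have h1 : ((Set.univ : Set (ZMod p)) ×ˢ ({u : κ → ZMod p | P u})).ncard =
      p * ({u : κ → ZMod p | P u}).ncard := by
    rw [Set.ncard_prod, Set.ncard_univ, Nat.card_zmod]
  rw [← h1]
  refine Set.ncard_le_ncard_of_injOn (fun u => (u c₁, u ∘ s)) ?_ ?_ (Set.toFinite _)
  · intro u hu
    exact ⟨Set.mem_univ _, hu⟩
  · intro u _ u' _ h
    have h2 : u c₁ = u' c₁ := congrArg (fun t => t.1) h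
    have h4 : u ∘ s = u' ∘ s := congrArg (fun t => t.2) h
    funext c
    by_cases hc1 : c = c₁
    · rw [hc1]
      exact h2
    · have h5 := congrFun h4 c
      simp only [Function.comp_apply] at h5
      rwa [hs' c hc1] at h5

/-- **The scheme of the counting, with one collapsed coordinate.** With `N = card κ`: `count_zeros`
gives `#{u | Δ(u) ≠ 0} ≥ p ^ N - D p ^ (N - 1)`; by `count_collapse1` `p #{u | Gen p u} ≥
#{u | Δ(u) ≠ 0}`; by `half_lift` `2 #G ≥ #{u | Gen p u} p ^ N`. Together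
`2 p #G ≥ p ^ N (p ^ N - D p ^ (N - 1)) ≥ p ^ (2 N) / 2` for `p ≥ 2 D`. -/
theorem count_scheme1 (s : κ → κ) (c₁ c : κ)
    (hs' : ∀ c, c ≠ c₁ → s c = c)
    (Δ : MvPolynomial κ ℤ) (hΔ : Δ ≠ 0)
    (Gen : ∀ p : ℕ, (κ → ZMod p) → Prop)
    (h0 : ∀ p : ℕ, p.Prime → ∀ u : κ → ZMod p, MvPolynomial.aeval u Δ ≠ 0 → Gen p (u ∘ s))
    (G : ∀ p : ℕ, Set (κ → ZMod (p ^ 2)))
    (hG : ∀ p : ℕ, p.Prime → ∀ w, Gen p (redp p w) → w ∉ G p →
      Function.update w c (w c + (p : ZMod (p ^ 2))) ∈ G p) :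
    ∃ P₀ : ℕ, ∀ p : ℕ, p.Prime → P₀ ≤ p →
      (1 / 4 : ℝ) / p * ((p ^ 2 : ℕ) : ℝ) ^ Fintype.card κ ≤ (G p).ncard := by
  obtain ⟨P₁, D, hD⟩ := count_zeros Δ hΔ
  refine ⟨max P₁ (2 * D), fun p hp hpP => ?_⟩
  have : Fact p.Prime := ⟨hp⟩
  have hpos : 0 < p := hp.pos
  set N := Fintype.card κ with hN
  -- the nonzeros of the polynomial
  set Z : Set (κ → ZMod p) := {u | MvPolynomial.aeval u Δ = 0} with hZ
  set A : Set (κ → ZMod p) := {u | Gen p (u ∘ s)} with hA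
  set B : Set (κ → ZMod p) := {u | Gen p u} with hB
  have h1 : Z.ncard * p ≤ D * p ^ N := hD p hp ((le_max_left _ _).trans hpP)
  have h2 : Zᶜ.ncard + Z.ncard = p ^ N := by
    rw [add_comm, Set.ncard_add_ncard_compl, Nat.card_eq_fintype_card, Fintype.card_fun,
      ZMod.card]
  have h3 : Zᶜ.ncard ≤ A.ncard := Set.ncard_le_ncard (fun u hu => h0 p hp u hu) (Set.toFinite _)
  have h4 : A.ncard ≤ p * B.ncard := count_collapse1 s c₁ hs' (fun u => Gen p u)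
  have h6 : B.ncard * p ^ N ≤ 2 * (G p).ncard :=
    half_lift hp B c (G p) (fun w hw hwG => by
      have h := hG p hp w hw hwG
      have e : ∀ (d1 d2 : DecidableEq κ),
          @Function.update _ _ d1 w c (w c + (p : ZMod (p ^ 2))) =
            @Function.update _ _ d2 w c (w c + (p : ZMod (p ^ 2))) := fun d1 d2 => by
        rw [Subsingleton.elim d1 d2]
      exact (e _ _) ▸ h)
  -- the estimates
  have hp2D : 2 * D ≤ p := (le_max_right _ _).trans hpP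
  have hpR : (0 : ℝ) < p := by exact_mod_cast hpos
  have h1' : (Z.ncard : ℝ) * p ≤ D * (p : ℝ) ^ N := by exact_mod_cast h1
  have h2' : (Zᶜ.ncard : ℝ) + Z.ncard = (p : ℝ) ^ N := by exact_mod_cast h2
  have h34 : (Zᶜ.ncard : ℝ) ≤ (p : ℝ) * B.ncard := by exact_mod_cast h3.trans h4
  have h6' : (B.ncard : ℝ) * (p : ℝ) ^ N ≤ 2 * (G p).ncard := by exact_mod_cast h6
  have hD' : 2 * (D : ℝ) ≤ p := by exact_mod_cast hp2D
  have hpN : (0 : ℝ) < (p : ℝ) ^ N := pow_pos hpR N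
  -- `2 #Z ≤ p ^ N`
  have h7 : 2 * (Z.ncard : ℝ) ≤ (p : ℝ) ^ N := by
    have h8 : 2 * (Z.ncard : ℝ) * p ≤ (p : ℝ) ^ N * p := by
      calc 2 * (Z.ncard : ℝ) * p = 2 * ((Z.ncard : ℝ) * p) := by ring
        _ ≤ 2 * (D * (p : ℝ) ^ N) := by linarith
        _ = (2 * (D : ℝ)) * (p : ℝ) ^ N := by ring
        _ ≤ p * (p : ℝ) ^ N := mul_le_mul_of_nonneg_right hD' hpN.le
        _ = (p : ℝ) ^ N * p := by ring
    exact le_of_mul_le_mul_right h8 hpR
  -- `p ^ N ≤ 2 p #B`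
  have h9 : (p : ℝ) ^ N ≤ 2 * ((p : ℝ) * B.ncard) := by linarith
  have h10 : (p : ℝ) ^ N * (p : ℝ) ^ N ≤ 4 * (p * (G p).ncard) := by
    calc (p : ℝ) ^ N * (p : ℝ) ^ N ≤ 2 * ((p : ℝ) * B.ncard) * (p : ℝ) ^ N :=
          mul_le_mul_of_nonneg_right h9 hpN.le
      _ = 2 * p * ((B.ncard : ℝ) * (p : ℝ) ^ N) := by ring
      _ ≤ 2 * p * (2 * (G p).ncard) := mul_le_mul_of_nonneg_left h6' (by positivity)
      _ = 4 * (p * (G p).ncard) := by ring
  have h11 : (((p ^ 2 : ℕ) : ℝ)) ^ N = (p : ℝ) ^ N * (p : ℝ) ^ N := by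
    push_cast
    rw [← pow_mul, mul_comm 2 N, pow_mul, sq]
  rw [h11]
  calc (1 / 4 : ℝ) / p * ((p : ℝ) ^ N * (p : ℝ) ^ N)
      ≤ (1 / 4 : ℝ) / p * (4 * (p * (G p).ncard)) :=
        mul_le_mul_of_nonneg_left h10 (by positivity)
    _ = (G p).ncard := by field_simp

end

end Pool.Agent.Lib.MP_89bcae_ag
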