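import Mathlib
import Pool.Agent.Lib.MP_89bcae_ag.Gph.CntD

/-!
# The generic condition of type K
-/

open Polynomial

open scoped Classical

namespace Pool.Agent.Lib.MP_89bcae_ag

section

variable {ι : Type} {n : ℕ} {K : Type}

/-- Exactly one root of `α_a - α_b` at infinity: the conditions over a field. -/
structure GenK [CommRing K] (a b : ι) (u : ι × Fin (n + 1) → K) : Prop where
  lead : ∀ c d, c ≠ d → ({c, d} : Set ι) ≠ {a, b} → u (c, Fin.last n) ≠ u (d, Fin.last n)
  eq : u (a, Fin.last n) = u (b, Fin.last n)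
  deg : (gdif u a b).natDegree + 1 = n
  sep : ∀ c d, c ≠ d → (gdif u c d).Separable
  cop : ∀ a' b' c d, a' ≠ b' → c ≠ d → ({a', b'} : Set ι) ≠ {c, d} →
    IsCoprime (gdif u a' b') (gdif u c d)

/-- The coefficient of degree `n` of `α_b` is replaced by that of `α_a`. -/
noncomputable def colK (a b : ι) : ι × Fin (n + 1) → ι × Fin (n + 1) :=
  fun c => if c = (b, Fin.last n) then (a, Fin.last n) else c

lemma colK_last_h45 (a b : ι) : colK a b (b, Fin.last n) = (a, Fin.last n) := by
  unfold colK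
  rw [if_pos rfl]

lemma colK_of_ne_h45 (a b : ι) {c : ι × Fin (n + 1)} (hc : c ≠ (b, Fin.last n)) :
    colK a b c = c := by
  unfold colK
  rw [if_neg hc]

lemma colK_left_h45 {a b : ι} (hab : a ≠ b) (j : Fin (n + 1)) : colK a b (a, j) = (a, j) :=
  colK_of_ne_h45 a b fun h => hab (congrArg Prod.fst h)

lemma colK_colK_h45 {a b : ι} (hab : a ≠ b) (c : ι × Fin (n + 1)) :
    colK a b (colK a b c) = colK a b c := by
  by_cases h : c = (b, Fin.last n)
  · rw [h, colK_last_h45, colK_left_h45 hab]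
  · rw [colK_of_ne_h45 a b h, colK_of_ne_h45 a b h]

/-- The points with equal coordinates at `(a, n)` and `(b, n)` are fixed. -/
lemma comp_colK_h45 {a b : ι} (u : ι × Fin (n + 1) → K)
    (h : u (a, Fin.last n) = u (b, Fin.last n)) : u ∘ colK a b = u := by
  funext c
  rw [Function.comp_apply]
  by_cases hc : c = (b, Fin.last n)
  · rw [hc, colK_last_h45, h]
  · rw [colK_of_ne_h45 a b hc]

/-- The pairs: if `{c, d} ≠ {a, b}` then the indices `c`, `d` remain different when `b` is
replaced by `a`. -/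
lemma pair_ne_h45 {a b c d : ι} (hcd : c ≠ d) (h : ({c, d} : Set ι) ≠ {a, b}) :
    (if c = b then a else c) ≠ (if d = b then a else d) := by
  by_cases h1 : c = b
  · rw [if_pos h1]
    have h2 : d ≠ b := fun h3 => hcd (h1.trans h3.symm)
    rw [if_neg h2]
    intro h3
    apply h
    rw [h1, ← h3, Set.pair_comm]
  · rw [if_neg h1]
    by_cases h2 : d = b
    · rw [if_pos h2]
      intro h3
      apply h
      rw [h2, h3]
    · rw [if_neg h2]
      exact hcd

/-- The family `α_a = X ^ (n - 1) + 1`, the other polynomials being zero. -/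
noncomputable def ptk_h45 (a : ι) : ι × Fin (n + 1) → ℚ :=
  fun y => if y.1 = a then (if (y.2 : ℕ) + 1 = n then 1 else 0) + (if (y.2 : ℕ) = 0 then 1 else 0)
    else 0

lemma gdif_ptk_h45 (hn : 2 ≤ n) {a b : ι} (hab : a ≠ b) :
    gdif (ptk_h45 a : ι × Fin (n + 1) → ℚ) a b = C 1 * X ^ (n - 1) + C 1 := by
  have h1 : gpol (ptk_h45 a : ι × Fin (n + 1) → ℚ) a = C 1 * X ^ (n - 1) + C 1 := by
    apply gpol_eq_of_coeff_h13
    · refine (natDegree_add_le _ _).trans (max_le ((natDegree_C_mul_X_pow_le _ _).trans ?_) ?_)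
      · omega
      · rw [natDegree_C]
        omega
    · intro j
      rw [coeff_add, coeff_C_mul_X_pow, coeff_C]
      unfold ptk_h45
      simp only
      rw [if_pos trivial]
      congr 1
      by_cases h : (j : ℕ) = n - 1
      · rw [if_pos h, if_pos (by omega)]
      · rw [if_neg h, if_neg (by omega)]
  have h2 : gpol (ptk_h45 a : ι × Fin (n + 1) → ℚ) b = 0 := by
    apply gpol_eq_of_coeff_h13
    · rw [natDegree_zero]
      exact Nat.zero_le _
    · intro j
      unfold ptk_h45
      rw [if_neg (fun h => hab h.symm), coeff_zero]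
  rw [gdif, h1, h2, sub_zero]

lemma genF_colK_natDegree_h45 {a b : ι} (hab : a ≠ b) :
    (genF_h13 (n := n) (colK a b) a b).natDegree ≤ n - 1 := by
  rw [natDegree_le_iff_coeff_eq_zero]
  intro N hN
  by_cases h : N = n
  · subst h
    have h := gdif_coeff_last_h13 (fun x : ι × Fin (N + 1) => MvPolynomial.X (R := ℤ) (colK a b x)) a b
    rw [colK_left_h45 hab, colK_last_h45, sub_self] at h
    exact h
  · exact coeff_eq_zero_of_natDegree_lt
      (lt_of_le_of_lt (genF_natDegree_h13 (n := n) (colK a b) a b) (by omega))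

/-- The generic condition. By `IsGeneric.all`, `IsGeneric.and`. (lead) `X_(c',n) - X_(d',n)`, `c'`, `d'`
the indices after the replacement of `b` by `a`. (deg) and (sep) for `{a, b}`: the polynomial has
formal degree `n - 1`; the point `α_a = X ^ (n - 1) + 1`. (sep) for `{c, d} ≠ {a, b}`: the point
`α_y = λ_y X ^ n` and `α_c = λ_c X ^ n + 1` with `λ_a = λ_b`. (cop) by symmetry
`{a', b'} ≠ {a, b}`; there is `x ∈ {c, d}` not in `{a', b'}`: the point `α_x = λ_x X ^ n + 1`,
`α_y = λ_y X ^ n` for `y ≠ x`: `A X ^ n` and `A' X ^ n ± 1` are coprime. -/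
theorem isGeneric_genK [Fintype ι] (hn : 2 ≤ n) {a b : ι} (hab : a ≠ b) :
    IsGeneric (fun (K : Type) [Field K] (u : ι × Fin (n + 1) → K) =>
      GenK a b (u ∘ colK a b)) := by
  obtain ⟨lam₀, hlam₀⟩ : ∃ lam : ι → ℚ, Function.Injective lam :=
    ⟨fun i => ((Fintype.equivFin ι i : ℕ) : ℚ), fun i j h => by
      have h0 : ((Fintype.equivFin ι i : ℕ) : ℚ) = ((Fintype.equivFin ι j : ℕ) : ℚ) := h
      have h1 : (Fintype.equivFin ι i : ℕ) = (Fintype.equivFin ι j : ℕ) := by exact_mod_cast h0
      exact (Fintype.equivFin ι).injective (Fin.ext h1)⟩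
  obtain ⟨lam, hlamab, hlam⟩ : ∃ lam : ι → ℚ, lam a = lam b ∧ ∀ c d, c ≠ d →
      ({c, d} : Set ι) ≠ {a, b} → lam c - lam d ≠ 0 := by
    refine ⟨fun i => lam₀ (if i = b then a else i), ?_, ?_⟩
    · beta_reduce
      rw [if_neg hab, if_pos rfl]
    · intro c d hcd h h0
      exact pair_ne_h45 hcd h (hlam₀ (sub_eq_zero.1 h0))
  -- the points
  have hpt : ∀ x : ι, (ptx_h13 lam x : ι × Fin (n + 1) → ℚ) ∘ colK a b = ptx_h13 lam x := by
    intro x
    apply comp_colK_h45
    unfold ptx_h13
    rw [if_pos rfl, if_pos rfl]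
    exact hlamab
  -- the leading coefficients
  have G1 : IsGeneric (fun (K : Type) [Field K] (u : ι × Fin (n + 1) → K) =>
      ∀ t : ι × ι, (t.1 ≠ t.2 ∧ ({t.1, t.2} : Set ι) ≠ {a, b}) →
        (u ∘ colK a b) (t.1, Fin.last n) ≠ (u ∘ colK a b) (t.2, Fin.last n)) := by
    apply IsGeneric.all
    intro t
    apply isGeneric_imp_h13
    rintro ⟨ht, ht'⟩
    have h := isGeneric_ne (κ := ι × Fin (n + 1))
      (MvPolynomial.X (colK a b (t.1, Fin.last n)) - MvPolynomial.X (colK a b (t.2, Fin.last n)))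
      ⟨ptx_h13 lam a, by
        rw [map_sub, MvPolynomial.aeval_X, MvPolynomial.aeval_X]
        have h1 := congrFun (hpt a) (t.1, Fin.last n)
        have h2 := congrFun (hpt a) (t.2, Fin.last n)
        rw [Function.comp_apply] at h1 h2
        rw [h1, h2]
        unfold ptx_h13
        rw [if_pos rfl, if_pos rfl]
        exact hlam _ _ ht ht'⟩
    refine h.mono fun K _ u hu => ?_
    rw [map_sub, MvPolynomial.aeval_X, MvPolynomial.aeval_X] at hu
    exact sub_ne_zero.1 hu
  -- the value of the leading coefficient at the points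
  have hlead : ∀ x c d : ι, c ≠ d → ({c, d} : Set ι) ≠ {a, b} →
      (spec (ptx_h13 lam x) (genF_h13 (n := n) (colK a b) c d)).coeff n ≠ 0 := by
    intro x c d hcd h
    rw [spec_genF_h13, hpt, gdif_ptx_h13 hn, coeff_add, coeff_C_mul_X_pow,
      if_pos rfl, coeff_C, if_neg (by omega), add_zero]
    exact hlam c d hcd h
  -- separability
  have G2 : IsGeneric (fun (K : Type) [Field K] (u : ι × Fin (n + 1) → K) =>
      ∀ t : ι × ι, (t.1 ≠ t.2 ∧ ({t.1, t.2} : Set ι) ≠ {a, b}) →
        (gdif (u ∘ colK a b) t.1 t.2).Separable) := by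
    apply IsGeneric.all
    rintro ⟨c, d⟩
    apply isGeneric_imp_h13
    rintro ⟨hcd, hcd'⟩
    simp only at hcd hcd' ⊢
    have h := isGeneric_separable (genF_h13 (n := n) (colK a b) c d) n (genF_natDegree_h13 _ _ _)
      (ptx_h13 lam c) (hlead c c d hcd hcd') (by
        rw [spec_genF_h13, hpt, gdif_ptx_h13 hn, if_pos rfl, if_neg hcd.symm, sub_zero]
        exact separable_bin_h13 n (hlam c d hcd hcd') one_ne_zero (fun h => absurd h (by omega)))
    refine h.mono fun K _ u hu => ?_
    have := hu.2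
    rwa [spec_genF_h13] at this
  -- the pair `a`, `b`
  have G3 : IsGeneric (fun (K : Type) [Field K] (u : ι × Fin (n + 1) → K) =>
      (gdif (u ∘ colK a b) a b).coeff (n - 1) ≠ 0 ∧ (gdif (u ∘ colK a b) a b).Separable) := by
    have hp : (ptk_h45 a : ι × Fin (n + 1) → ℚ) ∘ colK a b = ptk_h45 a := by
      apply comp_colK_h45
      unfold ptk_h45
      simp only [Fin.val_last]
      rw [if_neg (show b ≠ a from fun h => hab h.symm), if_pos trivial, if_neg (by omega),
        if_neg (by omega), add_zero]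
    have h := isGeneric_separable (genF_h13 (n := n) (colK a b) a b) (n - 1)
      (genF_colK_natDegree_h45 hab) (ptk_h45 a) (by
        rw [spec_genF_h13, hp, gdif_ptk_h45 hn hab, coeff_add, coeff_C_mul_X_pow, if_pos rfl,
          coeff_C, if_neg (by omega), add_zero]
        exact one_ne_zero) (by
        rw [spec_genF_h13, hp, gdif_ptk_h45 hn hab]
        exact separable_bin_h13 _ one_ne_zero one_ne_zero (fun h => absurd h (by omega)))
    refine h.mono fun K _ u hu => ?_
    rwa [spec_genF_h13] at hu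
  -- coprimality
  have G4 : IsGeneric (fun (K : Type) [Field K] (u : ι × Fin (n + 1) → K) =>
      ∀ t : (ι × ι) × (ι × ι), (t.1.1 ≠ t.1.2 ∧ t.2.1 ≠ t.2.2 ∧
        ({t.1.1, t.1.2} : Set ι) ≠ {t.2.1, t.2.2} ∧ ({t.1.1, t.1.2} : Set ι) ≠ {a, b}) →
        IsCoprime (gdif (u ∘ colK a b) t.1.1 t.1.2) (gdif (u ∘ colK a b) t.2.1 t.2.2)) := by
    apply IsGeneric.all
    rintro ⟨⟨a', b'⟩, ⟨c, d⟩⟩
    apply isGeneric_imp_h13
    rintro ⟨hab', hcd, hne, hne'⟩
    simp only at hab' hcd hne hne' ⊢
    -- an index of the second pair which is not in the first one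
    obtain ⟨x, hx, hxa, hxb⟩ : ∃ x, (x = c ∨ x = d) ∧ x ≠ a' ∧ x ≠ b' := by
      by_contra hcon
      push Not at hcon
      apply hne
      have h1 := hcon c (Or.inl rfl)
      have h2 := hcon d (Or.inr rfl)
      by_cases hca : c = a'
      · have hda : d ≠ a' := fun h3 => hcd (hca.trans h3.symm)
        rw [hca, h2 hda]
      · have hcb := h1 hca
        by_cases hda : d = a'
        · rw [hcb, hda, Set.pair_comm]
        · exact absurd (hcb.trans (h2 hda).symm) hcd
    have h := isGeneric_isCoprime (genF_h13 (n := n) (colK a b) a' b')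
      (genF_h13 (n := n) (colK a b) c d) n n (genF_natDegree_h13 _ _ _) (genF_natDegree_h13 _ _ _)
      (ptx_h13 lam x) (hlead x a' b' hab' hne') (by
        rw [spec_genF_h13, spec_genF_h13, hpt, gdif_ptx_h13 hn, gdif_ptx_h13 hn]
        apply isCoprime_bin_h13
        rw [if_neg hxa.symm, if_neg hxb.symm, sub_self, mul_zero, sub_zero]
        refine mul_ne_zero (hlam a' b' hab' hne') ?_
        rcases hx with h2 | h2
        · have h3 : d ≠ x := fun h => hcd (h2.symm.trans h.symm)
          rw [if_pos h2.symm, if_neg h3]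
          norm_num
        · have h3 : c ≠ x := fun h => hcd (h.trans h2)
          rw [if_neg h3, if_pos h2.symm]
          norm_num)
    refine h.mono fun K _ u hu => ?_
    have := hu.2
    rwa [spec_genF_h13, spec_genF_h13] at this
  refine (((G1.and G2).and G3).and G4).mono fun K _ u hu => ?_
  obtain ⟨⟨⟨h1, h2⟩, h3, h4⟩, h5⟩ := hu
  have hlast : (u ∘ colK a b) (a, Fin.last n) = (u ∘ colK a b) (b, Fin.last n) := by
    rw [Function.comp_apply, Function.comp_apply, colK_left_h45 hab, colK_last_h45]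
  have hsym : ∀ (w : ι × Fin (n + 1) → K) (c d : ι), (gdif w c d).Separable →
      (gdif w d c).Separable := by
    intro w c d h
    have h6 : gdif w d c = C (-1) * gdif w c d := by
      rw [gdif_swap w c d]
      simp
    rw [h6]
    exact Separable.unit_mul (isUnit_C.2 (by simp)) h
  refine ⟨fun c d hcd hcd' => h1 (c, d) ⟨hcd, hcd'⟩, hlast, ?_, ?_, ?_⟩
  · have h6 : (gdif (u ∘ colK a b) a b).natDegree ≤ n - 1 := by
      rw [natDegree_le_iff_coeff_eq_zero]
      intro N hN
      by_cases h : N = n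
      · subst h
        rw [gdif_coeff_last_h13, hlast, sub_self]
      · exact coeff_eq_zero_of_natDegree_lt (lt_of_le_of_lt (gdif_natDegree_le _ _ _) (by omega))
    have h7 := le_natDegree_of_ne_zero h3
    omega
  · intro c d hcd
    by_cases hcd' : ({c, d} : Set ι) = {a, b}
    · rcases Set.pair_eq_pair_iff.1 hcd' with ⟨rfl, rfl⟩ | ⟨rfl, rfl⟩
      · exact h4
      · exact hsym _ _ _ h4
    · exact h2 (c, d) ⟨hcd, hcd'⟩
  · intro a' b' c d hab' hcd hne
    by_cases h6 : ({a', b'} : Set ι) = {a, b}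
    · refine (h5 ((c, d), (a', b')) ⟨hcd, hab', hne.symm, fun h7 => hne (h6.trans h7.symm)⟩).symm
    · exact h5 ((a', b'), (c, d)) ⟨hab', hcd, hne, h6⟩

end

end Pool.Agent.Lib.MP_89bcae_ag
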