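import Mathlib
import Pool.Agent.Lib.MP_89bcae_ag.Gph.Base

/-!
# Families of polynomials with integral coefficients: all the conditions at the primes

`CopyV`: the values of a homomorphism at the nodes, for the configuration of `n` disjoint copies of an
arrangement of lines.
-/

open Polynomial

open scoped Classical

namespace Pool.Agent.Lib.MP_89bcae_ag

open Superelliptic

universe u

section

variable {ι : Type} {n : ℕ}

/-- Exactly one root of one of the differences, `α_a - α_b`, goes to infinity modulo `p`. -/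
structure TypeK (p : ℕ) (a b : ι) (v : ι × Fin (n + 1) → ℤ) : Prop where
  lead : ∀ c d, c ≠ d → ({c, d} : Set ι) ≠ {a, b} →
    ¬ (p : ℤ) ∣ v (c, Fin.last n) - v (d, Fin.last n)
  dvd : (p : ℤ) ∣ v (a, Fin.last n) - v (b, Fin.last n)
  ndvd : ¬ (p : ℤ) ^ 2 ∣ v (a, Fin.last n) - v (b, Fin.last n)
  deg : (gred p v a b).natDegree + 1 = n
  sep : ∀ c d, c ≠ d → (gred p v c d).Separable
  cop : ∀ a' b' c d, a' ≠ b' → c ≠ d → ({a', b'} : Set ι) ≠ {c, d} →
    IsCoprime (gred p v a' b') (gred p v c d)

/-- The arithmetic condition on the family. -/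
structure GoodH (v : ι × Fin (n + 1) → ℤ) : Prop where
  good : GoodG v
  typeD : ∀ a b, a ≠ b → ∃ p : ℕ, p.Prime ∧ p ≠ 2 ∧ TypeD p a b v
  typeK : ∀ a b, a ≠ b → ∃ p : ℕ, p.Prime ∧ TypeK p a b v

end

section Val

variable {k F : Type u} [Field k] [Field F] [Algebra k F] {ι : Type} {n : ℕ}

/-- A numbering of the nodes: `nd i j` lists the common values of `α_i` and `α_j`. -/
structure Nodes (α : ι → k[X]) (nd : ι → ι → Fin n → F) : Prop where
  symm : ∀ i j a, nd i j a = nd j i a
  inj : ∀ i j, i ≠ j → Function.Injective (nd i j)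
  mem : ∀ i j, i ≠ j → ∀ s : F, aeval s (α i) = aeval s (α j) ↔ ∃ a, nd i j a = s
  lead : ∀ i j, i ≠ j → (α i - α j).natDegree = n

/-- The values of the homomorphism `ν` at the differences of the nodes and at the leading coefficients
of the `α_i - α_j`. -/
structure DifV {A : Type*} [AddCommGroup A] (ν : F → A) (α : ι → k[X]) (h : F → F → A)
    (b : ι → ι → A) : Prop where
  dif : ∀ s ∈ nodes k F α, ∀ s' ∈ nodes k F α, s ≠ s' → ν (s - s') = h s s'
  lead : ∀ i j, i ≠ j → ν (algebraMap k F (α i - α j).leadingCoeff) = b i j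

/-- The homomorphism `ν` takes the value `B {i, j}` at the leading coefficient of `α_i - α_j`, and at the
differences of the nodes the values of `n` disjoint copies of an arrangement of lines with symbols `B`. -/
structure CopyV {A : Type*} [AddCommGroup A] (ν : F → A) (α : ι → k[X]) (nd : ι → ι → Fin n → F)
    (B : Finset ι → A) : Prop where
  lead : ∀ i j, i ≠ j → ν (algebraMap k F (α i - α j).leadingCoeff) = B {i, j}
  par : ∀ i j, i ≠ j → ∀ a b, a ≠ b → ν (nd i j a - nd i j b) = 0
  adj : ∀ i j l, i ≠ j → j ≠ l → i ≠ l → ∀ a b, ν (nd i j a - nd i l b) =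
    if a = b then B {i, j, l} - B {i, j} - B {i, l} else 0

end Val

end Pool.Agent.Lib.MP_89bcae_ag
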