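import Mathlib
import Pool.Agent.Lib.MP_89bcae_ag.Gr.Defs
import Pool.Agent.Lib.MP_89bcae_ag.Gr.C01
import Pool.Agent.Lib.MP_89bcae_ag.Gr.C02

/-!
# The number of the families of type K modulo `p ^ 2`
-/

open Polynomial

open scoped Classical

namespace Pool.Agent.Lib.MP_89bcae_ag

section

variable {ι : Type} {n : ℕ}

/-- The families of type K modulo `p ^ 2`. -/
def TypeKz (p : ℕ) (a b : ι) (w : ι × Fin (n + 1) → ZMod (p ^ 2)) : Prop :=
  GenK a b (redp p w) ∧ w (a, Fin.last n) ≠ w (b, Fin.last n)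

/-- If `w` lifts a good family modulo `p` but is not of type K, then `w + p` at the leading
coefficient of `α_a` is. -/
theorem TypeKz.flip {p : ℕ} (hp : p.Prime) {a b : ι} (hab : a ≠ b)
    (w : ι × Fin (n + 1) → ZMod (p ^ 2)) (h : GenK a b (redp p w)) (hw : ¬ TypeKz p a b w) :
    TypeKz p a b
      (Function.update w (a, Fin.last n) (w (a, Fin.last n) + (p : ZMod (p ^ 2)))) := by
  have h0 : w (a, Fin.last n) = w (b, Fin.last n) := by
    by_contra hne
    exact hw ⟨h, hne⟩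
  refine ⟨?_, ?_⟩
  · rw [redp_update_h21]
    exact h
  · rw [Function.update_self, Function.update_of_ne (fun h => hab (congrArg Prod.fst h).symm), ← h0]
    intro h1
    have h2 : (p : ZMod (p ^ 2)) = 0 := by
      have h3 : w (a, Fin.last n) + (p : ZMod (p ^ 2)) = w (a, Fin.last n) + 0 := by
        rw [h1, add_zero]
      exact add_left_cancel h3
    have h3 := Nat.le_of_dvd hp.pos ((ZMod.natCast_eq_zero_iff p (p ^ 2)).1 h2)
    have h4 := hp.two_le
    nlinarith

/-- From the residues modulo `p ^ 2` to the integers. -/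
theorem TypeK.of_z {p : ℕ} {a b : ι} {v : ι × Fin (n + 1) → ℤ}
    (h : TypeKz p a b (fun c => (v c : ZMod (p ^ 2)))) : TypeK p a b v := by
  obtain ⟨hy, hy2⟩ := h
  have hred : redp p (fun c => (v c : ZMod (p ^ 2))) = fun c => (v c : ZMod p) := by
    funext c
    exact map_intCast _ _
  rw [hred] at hy
  have hg : ∀ c d, gdif (fun c => (v c : ZMod p)) c d = gred p v c d := by
    intro c d
    exact (gdif_map (Int.castRingHom (ZMod p)) v c d).symm
  refine ⟨?_, ?_, ?_, ?_, ?_, ?_⟩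
  · intro c d hcd hne hdvd
    apply hy.lead c d hcd hne
    have h1 := (ZMod.intCast_zmod_eq_zero_iff_dvd _ p).2 hdvd
    rw [Int.cast_sub, sub_eq_zero] at h1
    exact h1
  · rw [← ZMod.intCast_zmod_eq_zero_iff_dvd, Int.cast_sub, sub_eq_zero]
    exact hy.eq
  · intro hdvd
    apply hy2
    have h1 : ((p ^ 2 : ℕ) : ℤ) ∣ v (a, Fin.last n) - v (b, Fin.last n) := by
      rw [Nat.cast_pow]
      exact hdvd
    rw [← ZMod.intCast_zmod_eq_zero_iff_dvd, Int.cast_sub, sub_eq_zero] at h1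
    exact h1
  · rw [← hg]
    exact hy.deg
  · intro c d hcd
    rw [← hg]
    exact hy.sep c d hcd
  · intro a' b' c d h1 h2 h3
    rw [← hg, ← hg]
    exact hy.cop a' b' c d h1 h2 h3

/-- The count (`count_scheme1`). -/
theorem count_typeK [Fintype ι] (hn : 2 ≤ n) {a b : ι} (hab : a ≠ b) :
    ∃ P₀ : ℕ, ∀ p : ℕ, p.Prime → P₀ ≤ p →
      (1 / 4 : ℝ) / p * ((p ^ 2 : ℕ) : ℝ) ^ Fintype.card (ι × Fin (n + 1)) ≤
        ({w : ι × Fin (n + 1) → ZMod (p ^ 2) | TypeKz p a b w}).ncard := by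
  obtain ⟨Δ, hΔ, h0⟩ := isGeneric_genK (ι := ι) (n := n) hn hab
  refine count_scheme1 (colK a b) (b, Fin.last n) (a, Fin.last n) ?_ Δ hΔ
    (fun p u => GenK a b u) ?_ (fun p => {w | TypeKz p a b w}) ?_
  · intro c hc
    exact colK_of_ne_h45 a b hc
  · intro p hp u hu
    have : Fact p.Prime := ⟨hp⟩
    exact h0 (ZMod p) u hu
  · intro p hp w hz hw
    have h := TypeKz.flip hp hab w hz hw
    have e : ∀ (d1 d2 : DecidableEq (ι × Fin (n + 1))),
        @Function.update _ _ d1 w (a, Fin.last n) (w (a, Fin.last n) + (p : ZMod (p ^ 2))) =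
          @Function.update _ _ d2 w (a, Fin.last n) (w (a, Fin.last n) + (p : ZMod (p ^ 2))) :=
      fun d1 d2 => by rw [Subsingleton.elim d1 d2]
    exact (e _ _) ▸ h

end

end Pool.Agent.Lib.MP_89bcae_ag
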