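import Mathlib
import Pool.Agent.Lib.MP_89bcae_ag.Gr.C03
import Pool.Agent.Lib.MP_89bcae_ag.Gph.Den

/-!
# Almost all families satisfy the conditions at the primes
-/

open Polynomial Filter Topology

open scoped Classical

namespace Pool.Agent.Lib.MP_89bcae_ag

variable {ι : Type} [Fintype ι] {n : ℕ}

/-- The condition `P` has density one. -/
def Dens1_h45 (P : (ι × Fin (n + 1) → ℤ) → Prop) : Prop :=
  Tendsto (fun H : ℕ => ({v : ι × Fin (n + 1) → ℤ | (∀ i, |v i| ≤ H) ∧ ¬ P v}.ncard : ℝ) /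
    (2 * H + 1) ^ Fintype.card (ι × Fin (n + 1))) atTop (𝓝 0)

lemma compl_h45 (P : (ι × Fin (n + 1) → ℤ) → Prop) (H : ℕ) :
    ({v : ι × Fin (n + 1) → ℤ | (∀ i, |v i| ≤ H) ∧ P v}.ncard : ℝ) /
        (2 * H + 1) ^ Fintype.card (ι × Fin (n + 1)) =
      1 - ({v : ι × Fin (n + 1) → ℤ | (∀ i, |v i| ≤ H) ∧ ¬ P v}.ncard : ℝ) /
        (2 * H + 1) ^ Fintype.card (ι × Fin (n + 1)) := by
  obtain ⟨h1, h2⟩ := box_ncard_h15 (κ := ι × Fin (n + 1)) H
  have h3 : {v : ι × Fin (n + 1) → ℤ | ∀ i, |v i| ≤ H} =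
      {v : ι × Fin (n + 1) → ℤ | (∀ i, |v i| ≤ H) ∧ P v} ∪
      {v : ι × Fin (n + 1) → ℤ | (∀ i, |v i| ≤ H) ∧ ¬ P v} := by
    ext v
    simp only [Set.mem_ofPred_eq, Set.mem_union]
    tauto
  have h4 : Disjoint {v : ι × Fin (n + 1) → ℤ | (∀ i, |v i| ≤ H) ∧ P v}
      {v : ι × Fin (n + 1) → ℤ | (∀ i, |v i| ≤ H) ∧ ¬ P v} := by
    rw [Set.disjoint_left]
    rintro v ⟨_, h5⟩ ⟨_, h6⟩
    exact h6 h5
  have h5 := Set.ncard_union_eq h4 (h1.subset fun v hv => hv.1) (h1.subset fun v hv => hv.1)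
  rw [← h3] at h5
  have h6 : (({v : ι × Fin (n + 1) → ℤ | ∀ i, |v i| ≤ H}).ncard : ℝ) =
      ({v : ι × Fin (n + 1) → ℤ | (∀ i, |v i| ≤ H) ∧ P v}.ncard : ℝ) +
      ({v : ι × Fin (n + 1) → ℤ | (∀ i, |v i| ≤ H) ∧ ¬ P v}.ncard : ℝ) := by
    exact_mod_cast h5
  rw [h2] at h6
  have h7 : (0 : ℝ) < (2 * H + 1) ^ Fintype.card (ι × Fin (n + 1)) := by positivity
  rw [eq_sub_iff_add_eq, ← add_div, ← h6, div_self h7.ne']

lemma dens1_iff_h45 (P : (ι × Fin (n + 1) → ℤ) → Prop) : Dens1_h45 P ↔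
    Tendsto (fun H : ℕ => ({v : ι × Fin (n + 1) → ℤ | (∀ i, |v i| ≤ H) ∧ P v}.ncard : ℝ) /
      (2 * H + 1) ^ Fintype.card (ι × Fin (n + 1))) atTop (𝓝 1) := by
  unfold Dens1_h45
  constructor
  · intro h
    have h1 := h.const_sub 1
    rw [sub_zero] at h1
    exact h1.congr fun H => (compl_h45 P H).symm
  · intro h
    have h1 := h.const_sub 1
    rw [sub_self] at h1
    refine h1.congr fun H => ?_
    rw [compl_h45 P H, sub_sub_cancel]

lemma Dens1_h45.and {P Q : (ι × Fin (n + 1) → ℤ) → Prop} (hP : Dens1_h45 P) (hQ : Dens1_h45 Q) :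
    Dens1_h45 (fun v => P v ∧ Q v) := by
  have h1 := hP.add hQ
  rw [add_zero] at h1
  refine squeeze_zero (fun H => by positivity) (fun H => ?_) h1
  rw [← add_div]
  refine div_le_div_of_nonneg_right ?_ (by positivity)
  have hfin : ∀ P : (ι × Fin (n + 1) → ℤ) → Prop,
      ({v : ι × Fin (n + 1) → ℤ | (∀ i, |v i| ≤ H) ∧ ¬ P v}).Finite := fun P =>
    (box_ncard_h15 H).1.subset fun v hv => hv.1
  have h2 : {v : ι × Fin (n + 1) → ℤ | (∀ i, |v i| ≤ H) ∧ ¬ (P v ∧ Q v)} ⊆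
      {v : ι × Fin (n + 1) → ℤ | (∀ i, |v i| ≤ H) ∧ ¬ P v} ∪
      {v : ι × Fin (n + 1) → ℤ | (∀ i, |v i| ≤ H) ∧ ¬ Q v} := by
    rintro v ⟨h3, h4⟩
    by_cases h5 : P v
    · exact Or.inr ⟨h3, fun h6 => h4 ⟨h5, h6⟩⟩
    · exact Or.inl ⟨h3, h5⟩
  exact_mod_cast (Set.ncard_le_ncard h2 ((hfin P).union (hfin Q))).trans (Set.ncard_union_le _ _)

lemma Dens1_h45.true : Dens1_h45 (fun _ : ι × Fin (n + 1) → ℤ => True) := by
  have h : ∀ H : ℕ, ({v : ι × Fin (n + 1) → ℤ | (∀ i, |v i| ≤ H) ∧ ¬ True}.ncard : ℝ) /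
      (2 * H + 1) ^ Fintype.card (ι × Fin (n + 1)) = 0 := by
    intro H
    simp
  unfold Dens1_h45
  simp_rw [h]
  exact tendsto_const_nhds

lemma Dens1_h45.mono {P Q : (ι × Fin (n + 1) → ℤ) → Prop} (hP : Dens1_h45 P)
    (h : ∀ v, P v → Q v) : Dens1_h45 Q := by
  refine squeeze_zero (fun H => by positivity) (fun H => ?_) hP
  refine div_le_div_of_nonneg_right ?_ (by positivity)
  have h2 : {v : ι × Fin (n + 1) → ℤ | (∀ i, |v i| ≤ H) ∧ ¬ Q v} ⊆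
      {v : ι × Fin (n + 1) → ℤ | (∀ i, |v i| ≤ H) ∧ ¬ P v} :=
    fun v hv => ⟨hv.1, fun h1 => hv.2 (h v h1)⟩
  exact_mod_cast Set.ncard_le_ncard h2 ((box_ncard_h15 H).1.subset fun v hv => hv.1)

lemma Dens1_h45.all {T : Type} [Finite T] {P : T → (ι × Fin (n + 1) → ℤ) → Prop}
    (h : ∀ t, Dens1_h45 (P t)) : Dens1_h45 (fun v => ∀ t, P t v) := by
  have := Fintype.ofFinite T
  have key : ∀ S : Finset T, Dens1_h45 (fun v => ∀ t ∈ S, P t v) := by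
    intro S
    induction S using Finset.induction_on with
    | empty => exact Dens1_h45.true.mono fun v _ t ht => absurd ht (Finset.notMem_empty t)
    | insert a S ha ih =>
      refine ((h a).and ih).mono fun v hv t ht => ?_
      rcases Finset.mem_insert.1 ht with rfl | ht
      · exact hv.1
      · exact hv.2 t ht
  exact (key Finset.univ).mono fun v hv t => hv t (Finset.mem_univ t)

/-- One condition at the primes modulo `p ^ 2`. -/
lemma dens1_of_count_h45 (D : ∀ p : ℕ, Set (ι × Fin (n + 1) → ZMod (p ^ 2))) (P₀ : ℕ)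
    (hD : ∀ p : ℕ, p.Prime → P₀ ≤ p →
      (1 / 4 : ℝ) / p * ((p ^ 2 : ℕ) : ℝ) ^ Fintype.card (ι × Fin (n + 1)) ≤ (D p).ncard)
    (P : (ι × Fin (n + 1) → ℤ) → Prop)
    (hP : ∀ v, ∀ p : ℕ, p.Prime → P₀ ≤ p → (fun c => (v c : ZMod (p ^ 2))) ∈ D p → P v) :
    Dens1_h45 P := by
  let e : ι × Fin (n + 1) ≃ Fin (Fintype.card (ι × Fin (n + 1))) := Fintype.equivFin _
  have h1 := density_prime e (fun p => p ^ 2) (fun p _ => Or.inr rfl)
    (fun p => {w | w ∈ D p ∧ P₀ ≤ p}) P₀ (1 / 4) (by norm_num) (fun p hp hpP => by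
      have h2 : {w | w ∈ D p ∧ P₀ ≤ p} = D p := by
        ext w
        exact ⟨fun h => h.1, fun h => ⟨h, hpP⟩⟩
      change _ ≤ (({w | w ∈ D p ∧ P₀ ≤ p} : Set (ι × Fin (n + 1) → ZMod (p ^ 2))).ncard : ℝ)
      rw [h2]
      exact hD p hp hpP) P (fun v p hp hv => hP v p hp hv.2 hv.1)
  refine h1.congr fun H => ?_
  rw [density_transfer_h15 e P H]

/-- **Almost all families satisfy all the conditions.** -/
theorem density_goodH (hn : 2 ≤ n) :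
    Tendsto (fun H : ℕ => ({v : ι × Fin (n + 1) → ℤ | (∀ i, |v i| ≤ H) ∧ GoodH v}.ncard : ℝ) /
      (2 * H + 1) ^ Fintype.card (ι × Fin (n + 1))) atTop (𝓝 1) := by
  rw [← dens1_iff_h45]
  have h1 : Dens1_h45 (GoodG (ι := ι) (n := n)) := (dens1_iff_h45 _).2 (density_goodG hn)
  have h2 : Dens1_h45 (fun v : ι × Fin (n + 1) → ℤ => ∀ t : ι × ι, t.1 ≠ t.2 →
      ∃ p : ℕ, p.Prime ∧ p ≠ 2 ∧ TypeD p t.1 t.2 v) := by
    apply Dens1_h45.all
    rintro ⟨a, b⟩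
    by_cases hab : a = b
    · exact Dens1_h45.true.mono fun v _ h => absurd hab h
    · obtain ⟨P₀, h⟩ := count_typeD (ι := ι) (n := n) hn hab
      refine (dens1_of_count_h45 (fun p => {w | TypeDz p a b w}) (max P₀ 3)
        (fun p hp hpP => h p hp ((le_max_left _ _).trans hpP)) (fun v => ∃ p : ℕ, p.Prime ∧ p ≠ 2 ∧
          TypeD p a b v) (fun v p hp hpP hv => ⟨p, hp, ?_, TypeD.of_z hp hv⟩)).mono
          fun v hv _ => hv
      have := (le_max_right _ _).trans hpP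
      omega
  have h3 : Dens1_h45 (fun v : ι × Fin (n + 1) → ℤ => ∀ t : ι × ι, t.1 ≠ t.2 →
      ∃ p : ℕ, p.Prime ∧ TypeK p t.1 t.2 v) := by
    apply Dens1_h45.all
    rintro ⟨a, b⟩
    by_cases hab : a = b
    · exact Dens1_h45.true.mono fun v _ h => absurd hab h
    · obtain ⟨P₀, h⟩ := count_typeK (ι := ι) (n := n) hn hab
      exact (dens1_of_count_h45 (fun p => {w | TypeKz p a b w}) P₀ h (fun v => ∃ p : ℕ, p.Prime ∧
          TypeK p a b v) (fun v p hp hpP hv => ⟨p, hp, TypeK.of_z hv⟩)).mono fun v hv _ => hv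
  refine ((h1.and h2).and h3).mono fun v hv => ?_
  exact ⟨hv.1.1, fun a b hab => hv.1.2 (a, b) hab, fun a b hab => hv.2 (a, b) hab⟩

end Pool.Agent.Lib.MP_89bcae_ag
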