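import Mathlib
import Pool.Agent.Lib.MP_89bcae_ag.Lr.Defs

/-!
# Disjoint copies of an arrangement of lines: the linear algebra
-/

namespace Pool.Agent.Lib.MP_89bcae_ag.Lr

variable {ι κ : Type} {ℓ : ℕ}

/-- **Copies.** Proof: for every `k`, `hT` for `ε k` and
`f i = γ i - ∑ l, w l * (c {i, l} - g i) * ε k i l` gives `b k` with `ε k i j = b k i - b k j` for `i ≠ j`
(also for `i = j`, `hε0`). The left side of `heq` is then zero for the terms `l ≠ i, j`, and for `l = i`,
`l = j` (`{i, j, i} = {i, j}`), so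
`z * b k i + γ i - ∑ l, w l * (c {i, l} - g i) * (b k i - b k l)` does not depend on `i`: it is `m k`
(take `m k` its value at some `i₀`; nothing to prove if `ι` is empty). For `k, k'` the difference
`κ = b k - b k'` satisfies `∑ l, w l * (c {i, l} - g i) * (κ i - κ l) = z * κ i + (m k' - m k)`, so it is
constant by `hR`, and `ε k = ε k'`. Take `b k₀` for some `k₀` (or `0` if there is no `k₀`). -/
theorem core_copies [Fintype ι] [DecidableEq ι] [Fact ℓ.Prime] {w : ι → ZMod ℓ}
    {c : Finset ι → ZMod ℓ} {g : ι → ZMod ℓ} (hT : GoodT w c Finset.univ)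
    (hR : GoodR w (fun i l => c {i, l}) g Finset.univ) (ε : κ → ι → ι → ZMod ℓ)
    (hε : ∀ k i j, i ≠ j → ε k j i = -ε k i j) (hε0 : ∀ k i, ε k i i = 0) (z : ZMod ℓ)
    (γ : ι → ZMod ℓ)
    (heq : ∀ k i j, i ≠ j →
      ∑ l, w l * (c {i, j, l} - c {i, j}) * (ε k i j + ε k j l + ε k l i) =
        z * ε k i j + ((γ i - ∑ l, w l * (c {i, l} - g i) * ε k i l) -
          (γ j - ∑ l, w l * (c {j, l} - g j) * ε k j l))) :
    ∃ b : ι → ZMod ℓ, ∀ k i j, i ≠ j → ε k i j = b i - b j := by
  classical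
  have hb : ∀ k, ∃ b : ι → ZMod ℓ, ∀ i j, ε k i j = b i - b j := by
    intro k
    obtain ⟨b, hb⟩ := hT (ε k) (fun i => γ i - ∑ l, w l * (c {i, l} - g i) * ε k i l) z
      (fun i _ j _ hij => hε k i j hij) (fun i _ j _ hij => heq k i j hij)
    refine ⟨b, fun i j => ?_⟩
    by_cases hij : i = j
    · subst hij
      rw [hε0, sub_self]
    · exact hb i (Finset.mem_univ i) j (Finset.mem_univ j) hij
  choose b hb using hb
  have hF : ∀ k i j, z * b k i + (γ i - ∑ l, w l * (c {i, l} - g i) * (b k i - b k l)) =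
      z * b k j + (γ j - ∑ l, w l * (c {j, l} - g j) * (b k j - b k l)) := by
    intro k i j
    by_cases hij : i = j
    · rw [hij]
    · have h := heq k i j hij
      have h0 : ∑ l, w l * (c {i, j, l} - c {i, j}) * (ε k i j + ε k j l + ε k l i) = 0 := by
        refine Finset.sum_eq_zero fun l _ => ?_
        rw [hb k i j, hb k j l, hb k l i]
        ring
      rw [h0] at h
      simp only [hb] at h
      linear_combination -h
  have hκ : ∀ k k' i j, b k i - b k' i = b k j - b k' j := by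
    intro k k' i j
    refine hR (fun i => b k i - b k' i) z
      ((z * b k' i + (γ i - ∑ l, w l * (c {i, l} - g i) * (b k' i - b k' l))) -
        (z * b k i + (γ i - ∑ l, w l * (c {i, l} - g i) * (b k i - b k l))))
      (fun m _ => ?_) i (Finset.mem_univ i) j (Finset.mem_univ j)
    rw [hF k i m, hF k' i m]
    have e : ∑ l, w l * (c {m, l} - g m) * (b k m - b k' m - (b k l - b k' l)) =
        ∑ l, w l * (c {m, l} - g m) * (b k m - b k l) -
          ∑ l, w l * (c {m, l} - g m) * (b k' m - b k' l) := by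
      rw [← Finset.sum_sub_distrib]
      exact Finset.sum_congr rfl fun l _ => by ring
    simp only [e]
    ring
  by_cases hk : Nonempty κ
  · obtain ⟨k₀⟩ := hk
    refine ⟨b k₀, fun k i j _ => ?_⟩
    rw [hb k i j]
    linear_combination hκ k k₀ i j
  · exact ⟨fun _ => 0, fun k => (hk ⟨k⟩).elim⟩

/-- The symbols `c - ∑ g` are not all zero. Proof: otherwise `c {i, j} = g i + g j` for `i ≠ j` and
`c {i, j, l} = g i + g j + g l` for different `i, j, l`, so `c {i, j, l} - c {i, j} = g l`. For every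
antisymmetric `ε` (with `ε i i = 0`), the sum in `GoodT` is
`∑_{l ≠ i, j} w l g l (ε i j + ε j l + ε l i)`, and the terms `l = i`, `l = j` of
`∑ l, w l g l (ε i j + ε j l + ε l i)` are zero too; so it is
`(∑ w l g l) ε i j + f i - f j` with `f i = - ∑ l, w l g l ε i l`. So `hT` applies to every antisymmetric
`ε`, for instance with `ε s₁ s₂ = 1`, `ε s₂ s₁ = -1`, zero elsewhere, which is not of the form
`b i - b j` (three different elements `s₁, s₂, s₃`; see `GoodT.exists_ne` in `Lr/B06.lean`). -/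
theorem GoodT.exists_ne_gauge [Fintype ι] [DecidableEq ι] [Fact ℓ.Prime] {w : ι → ZMod ℓ}
    {c : Finset ι → ZMod ℓ} (hT : GoodT w c Finset.univ) (g : ι → ZMod ℓ)
    (hS : 3 ≤ Fintype.card ι) :
    (∃ i j l : ι, i ≠ j ∧ j ≠ l ∧ i ≠ l ∧ c {i, j, l} - ∑ m ∈ {i, j, l}, g m ≠ 0) ∨
      ∃ i j : ι, i ≠ j ∧ c {i, j} - ∑ m ∈ {i, j}, g m ≠ 0 := by
  by_contra hcon
  push Not at hcon
  obtain ⟨H3, H2⟩ := hcon
  obtain ⟨s₁, s₂, s₃, h12, h13, h23⟩ := Fintype.two_lt_card_iff.mp (show 2 < Fintype.card ι by omega)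
  set ε : ι → ι → ZMod ℓ := fun i j =>
    (if i = s₁ ∧ j = s₂ then 1 else 0) - (if i = s₂ ∧ j = s₁ then 1 else 0) with hε
  have hanti : ∀ i j, ε j i = -ε i j := by
    intro i j
    simp only [hε]
    rw [neg_sub]
    congr 1
    · exact if_congr and_comm rfl rfl
    · exact if_congr and_comm rfl rfl
  have hdiag : ∀ i, ε i i = 0 := by
    intro i
    simp only [hε]
    rw [if_neg (fun h => h12 (h.1.symm.trans h.2)), if_neg (fun h => h12 (h.2.symm.trans h.1)), sub_zero]
  have hdiff : ∀ i j l, i ≠ j → l ≠ i → l ≠ j → c {i, j, l} - c {i, j} = g l := by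
    intro i j l hij hli hlj
    have e3 := H3 i j l hij hlj.symm hli.symm
    have e2 := H2 i j hij
    rw [sub_eq_zero] at e3 e2
    rw [e3, e2, Finset.sum_pair hij, Finset.sum_insert (by simp [hij, hli.symm]), Finset.sum_pair hlj.symm]
    ring
  obtain ⟨b, hb⟩ := hT ε (fun i => -∑ l, w l * g l * ε i l) (∑ l, w l * g l) (fun i _ j _ _ => hanti i j) (by
    intro i _ j _ hij
    have h1 : ∀ l, w l * (c {i, j, l} - c {i, j}) * (ε i j + ε j l + ε l i) =
        w l * g l * ε i j + w l * g l * ε j l - w l * g l * ε i l := by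
      intro l
      rw [hanti i l]
      by_cases hli : l = i
      · subst hli
        have e : c {l, j, l} = c {l, j} := by
          congr 1
          ext x
          simp only [Finset.mem_insert, Finset.mem_singleton]
          tauto
        rw [e, hdiag, hanti l j]
        ring
      · by_cases hlj : l = j
        · subst hlj
          have e : c {i, l, l} = c {i, l} := by
            congr 1
            ext x
            simp only [Finset.mem_insert, Finset.mem_singleton]
            tauto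
          rw [e, hdiag]
          ring
        · rw [hdiff i j l hij hli hlj]
          ring
    rw [Finset.sum_congr rfl (fun l _ => h1 l), Finset.sum_sub_distrib, Finset.sum_add_distrib, ← Finset.sum_mul]
    ring)
  have e12 := hb s₁ (Finset.mem_univ _) s₂ (Finset.mem_univ _) h12
  have e13 := hb s₁ (Finset.mem_univ _) s₃ (Finset.mem_univ _) h13
  have e23 := hb s₂ (Finset.mem_univ _) s₃ (Finset.mem_univ _) h23
  have v12 : ε s₁ s₂ = 1 := by
    show (if s₁ = s₁ ∧ s₂ = s₂ then (1 : ZMod ℓ) else 0) - (if s₁ = s₂ ∧ s₂ = s₁ then 1 else 0) = 1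
    rw [if_pos ⟨rfl, rfl⟩, if_neg (fun h => h12 h.1), sub_zero]
  have v13 : ε s₁ s₃ = 0 := by
    show (if s₁ = s₁ ∧ s₃ = s₂ then (1 : ZMod ℓ) else 0) - (if s₁ = s₂ ∧ s₃ = s₁ then 1 else 0) = 0
    rw [if_neg (fun h => h23 h.2.symm), if_neg (fun h => h12 h.1), sub_zero]
  have v23 : ε s₂ s₃ = 0 := by
    show (if s₂ = s₁ ∧ s₃ = s₂ then (1 : ZMod ℓ) else 0) - (if s₂ = s₂ ∧ s₃ = s₁ then 1 else 0) = 0
    rw [if_neg (fun h => h12 h.1.symm), if_neg (fun h => h13 h.2.symm), sub_zero]
  rw [v12] at e12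
  rw [v13] at e13
  rw [v23] at e23
  have : (1 : ZMod ℓ) = 0 := by linear_combination e12 - e13 + e23
  exact one_ne_zero this

end Pool.Agent.Lib.MP_89bcae_ag.Lr
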