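import Mathlib
import Pool.Agent.Lib.MP_89bcae_ag.Gr.Defs
import Pool.Agent.Lib.MP_89bcae_ag.Gr.E01
import Pool.Agent.Lib.MP_89bcae_ag.Gph.Eqn

/-!
# The values of a homomorphism of type `CopyV`, and the criterion
-/

open Polynomial

open scoped Classical

namespace Pool.Agent.Lib.MP_89bcae_ag

open Superelliptic

universe u

variable {k F : Type u} [Field k] [Field F] [Algebra k F] {ι : Type} [Fintype ι] [LinearOrder ι]
  {n : ℕ}

omit [Fintype ι] [LinearOrder ι] in
/-- The factorisation. (`nd i j` gives `n` different roots and the degree is `n`.) -/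
theorem Nodes.prod_eq {α : ι → k[X]} {nd : ι → ι → Fin n → F} (h : Nodes α nd) {i j : ι}
    (hij : i ≠ j) (hne : α i ≠ α j) :
    (α i - α j).map (algebraMap k F) =
      C (algebraMap k F (α i - α j).leadingCoeff) * ∏ a, (X - C (nd i j a)) := by
  have hf0 : (α i - α j).map (algebraMap k F) ≠ 0 := by
    rw [Polynomial.map_ne_zero_iff (algebraMap k F).injective]
    exact sub_ne_zero.2 hne
  have hnd : ((Finset.univ : Finset (Fin n)).val.map (nd i j)).Nodup :=
    Finset.univ.nodup.map (h.inj i j hij)
  have hle : (Finset.univ : Finset (Fin n)).val.map (nd i j) ≤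
      ((α i - α j).map (algebraMap k F)).roots := by
    rw [Multiset.le_iff_subset hnd]
    intro s hs
    obtain ⟨a, -, rfl⟩ := Multiset.mem_map.1 hs
    rw [mem_roots hf0, IsRoot, eval_map, ← aeval_def, map_sub, sub_eq_zero]
    exact (h.mem i j hij _).2 ⟨a, rfl⟩
  have hcard : ((Finset.univ : Finset (Fin n)).val.map (nd i j)).card = n := by
    rw [Multiset.card_map]
    exact Finset.card_fin n
  have hdeg : ((α i - α j).map (algebraMap k F)).natDegree = n := by
    rw [natDegree_map]
    exact h.lead i j hij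
  have heq : (Finset.univ : Finset (Fin n)).val.map (nd i j) =
      ((α i - α j).map (algebraMap k F)).roots := by
    refine Multiset.eq_of_le_of_card_le hle ?_
    rw [hcard, ← hdeg]
    exact card_roots' _
  have h1 := C_leadingCoeff_mul_prod_multiset_X_sub_C
    (p := (α i - α j).map (algebraMap k F)) (by rw [← heq, hcard, hdeg])
  rw [← heq, Multiset.map_map, leadingCoeff_map] at h1
  exact h1.symm

/-- The leading coefficient is not zero (h45). -/
theorem lc_ne_zero_h45 {α : ι → k[X]} (hα : IsArrangement α) {i j : ι} (hij : i ≠ j) :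
    algebraMap k F (α i - α j).leadingCoeff ≠ 0 := by
  rw [map_ne_zero_iff _ (algebraMap k F).injective, leadingCoeff_ne_zero]
  intro h0
  apply hα.natDegree_ne_zero i j hij
  rw [h0, natDegree_zero]

/-- The value at `α_i(s) - α_l(s)`, `s = nd i j a`: it is
`ν(lc) + ∑_b ν(nd i j a - nd i l b) = B {i, l} + (B {i, j, l} - B {i, j} - B {i, l})`
(`Nodes.prod_eq` for `i, l`, evaluated at `s`; `IsVal.prod`, `IsVal.mul` in `K = ℚ(nodes)`, which contains
`k` and the nodes; the differences are not zero because `s` is not a root of `α_i - α_l`, `nodes_pair`). -/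
theorem CopyV.val_eq {A : Type*} [AddCommGroup A] {ν : F → A} {α : ι → k[X]}
    {nd : ι → ι → Fin n → F} {B : Finset ι → A} (h : CopyV ν α nd B) (hN : Nodes α nd)
    (hα : IsArrangement α)
    (hν : IsVal (IntermediateField.adjoin k (nodes k F α)).toSubfield ν) {i j l : ι} (hij : i ≠ j)
    (hjl : j ≠ l) (hil : i ≠ l) (a : Fin n) :
    ν (aeval (nd i j a) (α i) - aeval (nd i j a) (α l)) = B {i, j, l} - B {i, j} := by
  have hne : α i ≠ α l := by
    intro h0
    apply hα.natDegree_ne_zero i l hil
    rw [h0, sub_self, natDegree_zero]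
  have hs := (hN.mem i j hij (nd i j a)).2 ⟨a, rfl⟩
  have hK : ∀ x ∈ nodes k F α, x ∈ (IntermediateField.adjoin k (nodes k F α)).toSubfield :=
    fun x hx => IntermediateField.subset_adjoin k _ hx
  have hsK : nd i j a ∈ (IntermediateField.adjoin k (nodes k F α)).toSubfield :=
    hK _ ⟨i, j, hij, hs⟩
  have htK : ∀ b, nd i l b ∈ (IntermediateField.adjoin k (nodes k F α)).toSubfield :=
    fun b => hK _ ⟨i, l, hil, (hN.mem i l hil (nd i l b)).2 ⟨b, rfl⟩⟩
  have hlcK : algebraMap k F (α i - α l).leadingCoeff ∈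
      (IntermediateField.adjoin k (nodes k F α)).toSubfield :=
    (IntermediateField.adjoin k (nodes k F α)).algebraMap_mem _
  have hst : ∀ b, nd i j a - nd i l b ≠ 0 := by
    intro b hb
    have h1 := (hN.mem i l hil (nd i l b)).2 ⟨b, rfl⟩
    rw [← sub_eq_zero.1 hb] at h1
    have h2 := nodes_pair α hα hij hil hs h1
    have h3 : j ∈ ({i, l} : Set ι) := h2 ▸ (by simp)
    rcases h3 with h3 | h3
    · exact hij h3.symm
    · exact hjl h3
  have h1 : aeval (nd i j a) (α i) - aeval (nd i j a) (α l) =
      algebraMap k F (α i - α l).leadingCoeff * ∏ b, (nd i j a - nd i l b) := by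
    rw [← map_sub, aeval_def, ← eval_map, hN.prod_eq hil hne, eval_mul, eval_C, eval_prod]
    simp
  rw [h1, hν.mul _ hlcK _ (prod_mem fun b _ => sub_mem hsK (htK b)) (lc_ne_zero_h45 hα hil)
    (Finset.prod_ne_zero_iff.2 fun b _ => hst b),
    hν.prod _ _ (fun b _ => sub_mem hsK (htK b)) (fun b _ => hst b), h.lead i l hil]
  have h2 : ∑ b, ν (nd i j a - nd i l b) = B {i, j, l} - B {i, j} - B {i, l} := by
    rw [Finset.sum_congr rfl fun b _ => h.adj i j l hij hjl hil a b, Finset.sum_ite_eq,
      if_pos (Finset.mem_univ a)]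
    congr <;> exact Subsingleton.elim _ _
  have h3 : ∀ x y z : A, y + (x - z - y) = x - z := fun x y z => by abel
  rw [h2]
  refine Eq.trans ?_ (h3 _ (B {i, l}) _)
  congr
  exact Subsingleton.elim _ _

/-- The value at the derivative: `ν(lc) + ∑_{b ≠ a} ν(nd i j a - nd i j b) = B {i, j}`
(the derivative at the root `nd i j a` of `Nodes.prod_eq`: `Polynomial.derivative_prod` or
`eval_derivative` of `C lc * (X - C s) * ∏_{b ≠ a}`). -/
theorem CopyV.der_eq {A : Type*} [AddCommGroup A] {ν : F → A} {α : ι → k[X]}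
    {nd : ι → ι → Fin n → F} {B : Finset ι → A} (h : CopyV ν α nd B) (hN : Nodes α nd)
    (hα : IsArrangement α)
    (hν : IsVal (IntermediateField.adjoin k (nodes k F α)).toSubfield ν) {i j : ι} (hij : i ≠ j)
    (a : Fin n) :
    ν (aeval (nd i j a) (derivative (α i - α j))) = B {i, j} := by
  have hne : α i ≠ α j := by
    intro h0
    apply hα.natDegree_ne_zero i j hij
    rw [h0, sub_self, natDegree_zero]
  have hK : ∀ x ∈ nodes k F α, x ∈ (IntermediateField.adjoin k (nodes k F α)).toSubfield :=
    fun x hx => IntermediateField.subset_adjoin k _ hx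
  have htK : ∀ b, nd i j b ∈ (IntermediateField.adjoin k (nodes k F α)).toSubfield :=
    fun b => hK _ ⟨i, j, hij, (hN.mem i j hij (nd i j b)).2 ⟨b, rfl⟩⟩
  have hlcK : algebraMap k F (α i - α j).leadingCoeff ∈
      (IntermediateField.adjoin k (nodes k F α)).toSubfield :=
    (IntermediateField.adjoin k (nodes k F α)).algebraMap_mem _
  have hst : ∀ b ∈ Finset.univ.erase a, nd i j a - nd i j b ≠ 0 := by
    intro b hb h0
    exact (Finset.mem_erase.1 hb).1 (hN.inj i j hij (sub_eq_zero.1 h0)).symm
  have h1 : aeval (nd i j a) (derivative (α i - α j)) =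
      algebraMap k F (α i - α j).leadingCoeff *
        ∏ b ∈ Finset.univ.erase a, (nd i j a - nd i j b) := by
    rw [aeval_def, ← eval_map, ← derivative_map, hN.prod_eq hij hne,
      ← Finset.mul_prod_erase Finset.univ (fun b => X - C (nd i j b)) (Finset.mem_univ a),
      derivative_mul, derivative_mul, derivative_C, derivative_sub, derivative_X, derivative_C]
    simp only [eval_add, eval_mul, eval_sub, eval_zero, eval_C, eval_X, eval_one, eval_prod]
    simp
  rw [h1, hν.mul _ hlcK _ (prod_mem fun b _ => sub_mem (htK a) (htK b)) (lc_ne_zero_h45 hα hij)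
    (Finset.prod_ne_zero_iff.2 hst),
    hν.prod _ _ (fun b _ => sub_mem (htK a) (htK b)) hst, h.lead i j hij]
  rw [Finset.sum_eq_zero, add_zero]
  · congr
    exact Subsingleton.elim _ _
  · intro b hb
    exact h.par i j hij a b (Ne.symm (Finset.mem_erase.1 hb).1)

end Pool.Agent.Lib.MP_89bcae_ag
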