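import Mathlib
import Pool.Agent.Lib.MP_89bcae_ag.Gr.E02

/-!
# The criterion for a homomorphism of type `CopyV`
-/

open Polynomial

open scoped Classical

namespace Pool.Agent.Lib.MP_89bcae_ag

open Superelliptic

universe u

variable {k F : Type u} [Field k] [Field F] [Algebra k F] {ι : Type} [Fintype ι] [LinearOrder ι]
  {n : ℕ}

lemma sum_off_h4 {A : Type*} [AddCommGroup A] (f : ι → A) {i j : ι} (hij : i ≠ j) :
    ∑ l ∈ Finset.univ.filter (fun l => l ≠ i ∧ l ≠ j), f l = ∑ l, f l - f i - f j := by
  have h1 : Finset.univ.filter (fun l : ι => l ≠ i ∧ l ≠ j) =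
      (Finset.univ.erase i).erase j := by
    ext l
    simp only [Finset.mem_filter, Finset.mem_univ, true_and, Finset.mem_erase, and_true]
    tauto
  rw [h1, Finset.sum_erase_eq_sub (Finset.mem_erase.2 ⟨hij.symm, Finset.mem_univ j⟩),
    Finset.sum_erase_eq_sub (Finset.mem_univ i)]

/-- The sum over the nodes. -/
lemma sum_nodes_h4 {ℓ : ℕ} (α : ι → k[X]) (hα : IsArrangement α) (ν : F → ZMod ℓ)
    (nd : ι → ι → Fin n → F) (hN : Nodes α nd) (B : Finset ι → ZMod ℓ) (h : CopyV ν α nd B)
    (e : ι → F → ZMod ℓ)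
    (e0 : ∀ a b d : ι, ∀ s : F, a ≠ b → aeval s (α a) = aeval s (α b) → d ≠ a → d ≠ b →
      e d s = 0) {i j : ι} (hij : i ≠ j) (a : Fin n) :
    ∑ s' ∈ (finite_nodes (F := F) α hα).toFinset.erase (nd i j a), e i s' * ν (nd i j a - s') =
      ∑ l ∈ Finset.univ.filter (fun l => l ≠ i ∧ l ≠ j),
        e i (nd i l a) * ν (nd i j a - nd i l a) := by
  have hval : ∀ i j : ι, i ≠ j → ∀ a, aeval (nd i j a) (α i) = aeval (nd i j a) (α j) :=
    fun i j hij a => (hN.mem i j hij _).2 ⟨a, rfl⟩
  have hinj : Set.InjOn (fun l => nd i l a)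
      ((Finset.univ.filter (fun l : ι => l ≠ i ∧ l ≠ j) : Finset ι) : Set ι) := by
    intro l hl l' hl' hll
    rw [Finset.mem_coe, Finset.mem_filter] at hl hl'
    have h1 := hval i l hl.2.1.symm a
    have h2 := hval i l' hl'.2.1.symm a
    have h3 : nd i l a = nd i l' a := hll
    rw [← h3] at h2
    have h4 := nodes_pair α hα hl.2.1.symm hl'.2.1.symm h1 h2
    have h5 : l ∈ ({i, l'} : Set ι) := by
      rw [← h4]
      exact Set.mem_insert_of_mem _ rfl
    rcases h5 with h5 | h5
    · exact absurd h5 hl.2.1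
    · exact h5
  rw [← Finset.sum_image (f := fun s' => e i s' * ν (nd i j a - s')) hinj]
  symm
  refine Finset.sum_subset ?_ ?_
  · intro s' hs'
    rw [Finset.mem_image] at hs'
    obtain ⟨l, hl, rfl⟩ := hs'
    rw [Finset.mem_filter] at hl
    rw [Finset.mem_erase, Set.Finite.mem_toFinset]
    have h1 := hval i l hl.2.1.symm a
    refine ⟨fun h0 => ?_, ⟨i, l, hl.2.1.symm, h1⟩⟩
    have h2 := hval i j hij a
    rw [← h0] at h2
    have h4 := nodes_pair α hα hl.2.1.symm hij h1 h2
    have h5 : l ∈ ({i, j} : Set ι) := by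
      rw [← h4]
      exact Set.mem_insert_of_mem _ rfl
    rcases h5 with h5 | h5
    · exact hl.2.1 h5
    · exact hl.2.2 h5
  · intro s' hs' hs''
    rw [Finset.mem_erase, Set.Finite.mem_toFinset] at hs'
    obtain ⟨hne, p, q, hpq, hs⟩ := hs'
    -- the other graph
    have key : ∀ l, l ≠ i → aeval s' (α i) = aeval s' (α l) → e i s' * ν (nd i j a - s') = 0 := by
      intro l hl hil
      obtain ⟨b, rfl⟩ := (hN.mem i l hl.symm s').1 hil
      by_cases hlj : l = j
      · subst hlj
        have hab : a ≠ b := by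
          rintro rfl
          exact hne rfl
        rw [h.par i l hij a b hab, mul_zero]
      · have hab : a ≠ b := by
          rintro rfl
          apply hs''
          rw [Finset.mem_image]
          exact ⟨l, Finset.mem_filter.2 ⟨Finset.mem_univ _, hl, hlj⟩, rfl⟩
        rw [h.adj i j l hij (Ne.symm hlj) hl.symm a b, if_neg hab, mul_zero]
    by_cases h1 : i = p
    · subst h1
      exact key q hpq.symm hs
    · by_cases h2 : i = q
      · subst h2
        exact key p hpq hs.symm
      · rw [e0 p q i s' hpq hs h1 h2, zero_mul]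

/-- **The criterion.** Proof (as `indepW_of_tripleV` in `Gph/G1.lean`): let `e, κ, c'` be as in
`ArrangementIndependentW` (with `c'` for the constants). As there, the condition on the sums gives, modulo
`ℓ`: `e_l(s) = 0` for a node `s` of `i, j` and `l ≠ i, j` (`nodes_pair`), and
`W_i e_i(s) + W_j e_j(s) = 0`. Put `ε a i j = e_i(nd i j a) / W_j` for `i ≠ j`, `ε a i i = 0`:
antisymmetric. `val_eqn` for `ν` at `s = nd i j a`, divided by `W_j`, gives (`w = W`, `x = ε a i j`)
`x ν(κ) + ν(c'_i) - ν(c'_j) - (w_i + w_j) x B {i, j} - ∑_{l ≠ i, j} w_l x (B {i, j, l} - B {i, j})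
+ (1 / w_j) ∑_{s' ≠ s} w_j (e_i(s') - e_j(s')) ν(s - s') = 0`, and the last sum is
`∑_{l ≠ i, j} w_l (ε a i l (B {i, j, l} - B {i, j} - B {i, l}) - ε a j l (B {i, j, l} - B {i, j} - B {j, l}))`:
the `s'` with `e_i(s') ≠ 0` or `e_j(s') ≠ 0` are in the sets of the pairs `i, j` (`ν(s - s') = 0` by
`CopyV.par`), `i, l` and `j, l` (`CopyV.adj`: only `s' = nd i l a`, resp. `s' = nd j l a`, with
`e_i(nd i l a) = w_l ε a i l`, `e_j(nd j l a) = w_l ε a j l`). Put `B T = c T - ∑ i ∈ T, g i` into this
equation: it becomes the hypothesis `heq` of `Lr.core_copies` (for `k = a : Fin n`) with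
`z = ν(κ) + ∑ l, w l * g l` and `γ i = ν(c' i)` (the same computation as in `Gen14.cut_good`,
`Lr/B01.lean`, with `m₀ = 0`, `μ (some i) = - g i`, `μ none = 0`). So `ε a i j = b i - b j`,
`e_i(nd i j a) = W_j (b i - b j)` modulo `ℓ`; take the integers `- (b i).val`. -/
theorem indepW_of_copyV {ℓ : ℕ} (hℓ : ℓ.Prime) (α : ι → k[X]) (hα : IsArrangement α) (W : ι → ℕ)
    (hW : ∀ i, (W i).Coprime ℓ) (ν : F → ZMod ℓ)
    (hν : IsVal (IntermediateField.adjoin k (nodes k F α)).toSubfield ν)
    (nd : ι → ι → Fin n → F) (hN : Nodes α nd) (c : Finset ι → ZMod ℓ) (g : ι → ZMod ℓ)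
    (h : CopyV ν α nd fun T => c T - ∑ i ∈ T, g i)
    (hT : Lr.GoodT (fun i => (W i : ZMod ℓ)) c Finset.univ)
    (hR : Lr.GoodR (fun i => (W i : ZMod ℓ)) (fun i l => c {i, l}) g Finset.univ) :
    ArrangementIndependentW ℓ k F W α := by
  have : Fact ℓ.Prime := ⟨hℓ⟩
  intro e κ c' hκ hκK hc hsum hpow0
  have hpow : ∀ (i j : ι) (s : F), i ≠ j → aeval s (α i) = aeval s (α j) →
      ∃ w ∈ IntermediateField.adjoin k (nodes k F α),
        w ^ ℓ = κ ^ e i s * (c' i / c' j) ^ W j *
          aeval s (derivative (α i - α j)) ^ (-((W i : ℤ) + W j) * e i s) *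
          (∏ l ∈ Finset.univ.filter fun l => l ≠ i ∧ l ≠ j,
            (aeval s (α i) - aeval s (α l)) ^ (-(W l : ℤ) * e i s)) *
          ∏ᶠ s' ∈ {s' ∈ nodes k F α | s' ≠ s}, (s - s') ^ ((W j : ℤ) * (e i s' - e j s')) := by
    intro i j s hij hs
    obtain ⟨w, hw1, hw2⟩ := hpow0 i j s hij hs
    refine ⟨w, hw1, hw2.trans ?_⟩
    congr 2
    apply Finset.prod_congr _ (fun _ _ => rfl)
    ext l
    simp only [Finset.mem_filter]
  have hw : ∀ i, (W i : ZMod ℓ) ≠ 0 := by
    intro i h0
    rw [ZMod.natCast_eq_zero_iff] at h0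
    exact (hℓ.coprime_iff_not_dvd.mp (hW i).symm) h0
  have hnode : ∀ {a b : ι} {s : F}, a ≠ b → aeval s (α a) = aeval s (α b) → s ∈ nodes k F α :=
    fun hab hs => ⟨_, _, hab, hs⟩
  -- the values of `e` at the nodes
  have e0 : ∀ a b d : ι, ∀ s : F, a ≠ b → aeval s (α a) = aeval s (α b) → d ≠ a → d ≠ b →
      (e d s : ZMod ℓ) = 0 := by
    intro a b d s hab hs hda hdb
    have h1 := hsum s (hnode hab hs) d
    have h2 : (Finset.univ.filter fun j => aeval s (α j) = aeval s (α d)) = {d} := by
      ext j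
      rw [Finset.mem_filter, Finset.mem_singleton]
      constructor
      · rintro ⟨-, hj⟩
        by_contra hjd
        have h3 := nodes_pair α hα hab hjd hs hj
        have h4 : d ∈ ({a, b} : Set ι) := by
          rw [h3]
          exact Set.mem_insert_of_mem _ rfl
        rcases h4 with h4 | h4
        · exact hda h4
        · exact hdb h4
      · rintro rfl
        exact ⟨Finset.mem_univ _, rfl⟩
    rw [h2, Finset.sum_singleton] at h1
    have h3 : (((W d : ℤ) * e d s : ℤ) : ZMod ℓ) = 0 :=
      (ZMod.intCast_zmod_eq_zero_iff_dvd _ _).mpr h1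
    push_cast at h3
    exact (mul_eq_zero.mp h3).resolve_left (hw d)
  have e1 : ∀ a b : ι, ∀ s : F, a ≠ b → aeval s (α a) = aeval s (α b) →
      (W a : ZMod ℓ) * e a s + W b * e b s = 0 := by
    intro a b s hab hs
    have h1 := hsum s (hnode hab hs) a
    have h2 : (Finset.univ.filter fun j => aeval s (α j) = aeval s (α a)) = {a, b} := by
      ext j
      rw [Finset.mem_filter, Finset.mem_insert, Finset.mem_singleton]
      constructor
      · rintro ⟨-, hj⟩
        by_contra hjd
        rw [not_or] at hjd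
        have h3 := nodes_pair α hα hab hjd.1 hs hj
        have h4 : j ∈ ({a, b} : Set ι) := by
          rw [h3]
          exact Set.mem_insert _ _
        rcases h4 with h4 | h4
        · exact hjd.1 h4
        · exact hjd.2 h4
      · rintro (rfl | rfl)
        · exact ⟨Finset.mem_univ _, rfl⟩
        · exact ⟨Finset.mem_univ _, hs.symm⟩
    rw [h2, Finset.sum_pair hab] at h1
    have h3 : (((W a : ℤ) * e a s + (W b : ℤ) * e b s : ℤ) : ZMod ℓ) = 0 :=
      (ZMod.intCast_zmod_eq_zero_iff_dvd _ _).mpr h1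
    push_cast at h3
    exact h3
  have hval : ∀ i j : ι, i ≠ j → ∀ a, aeval (nd i j a) (α i) = aeval (nd i j a) (α j) :=
    fun i j hij a => (hN.mem i j hij _).2 ⟨a, rfl⟩
  set B : Finset ι → ZMod ℓ := fun T => c T - ∑ i ∈ T, g i with hB
  have hB2 : ∀ i j : ι, i ≠ j → B {i, j} = c {i, j} - g i - g j := by
    intro i j hij
    rw [hB]
    show c {i, j} - ∑ m ∈ {i, j}, g m = _
    rw [Finset.sum_pair hij]
    ring
  have hB3 : ∀ i j l : ι, i ≠ j → j ≠ l → i ≠ l → B {i, j, l} = c {i, j, l} - g i - g j - g l := by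
    intro i j l hij hjl hil
    rw [hB]
    show c {i, j, l} - ∑ m ∈ {i, j, l}, g m = _
    rw [Finset.sum_insert (by
      rw [Finset.mem_insert, Finset.mem_singleton]
      rintro (h | h)
      · exact hij h
      · exact hil h), Finset.sum_pair hjl]
    ring
  set ε : Fin n → ι → ι → ZMod ℓ := fun a i j =>
    if i = j then 0 else (e i (nd i j a) : ZMod ℓ) / W j with hε
  have hε0 : ∀ a i, ε a i i = 0 := fun a i => if_pos rfl
  have hε1 : ∀ a i j, i ≠ j → (e i (nd i j a) : ZMod ℓ) = W j * ε a i j := by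
    intro a i j hij
    have h1 : ε a i j = (e i (nd i j a) : ZMod ℓ) / W j := if_neg hij
    rw [h1, mul_div_cancel₀ _ (hw j)]
  have hε2 : ∀ a i j, i ≠ j → ε a j i = -ε a i j := by
    intro a i j hij
    have h1 := e1 i j (nd i j a) hij (hval i j hij a)
    have h2 := hε1 a i j hij
    have h3 := hε1 a j i hij.symm
    rw [← hN.symm i j a] at h3
    rw [h2, h3] at h1
    have h4 : (W i : ZMod ℓ) * W j * (ε a j i + ε a i j) = 0 := by linear_combination h1
    have h5 := (mul_eq_zero.mp h4).resolve_left (mul_ne_zero (hw i) (hw j))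
    linear_combination h5
  have hadj : ∀ (a : Fin n) (i j l : ι), i ≠ j → j ≠ l → i ≠ l →
      ν (nd i j a - nd i l a) = B {i, j, l} - B {i, j} - B {i, l} := by
    intro a i j l h1 h2 h3
    have h4 := h.adj i j l h1 h2 h3 a a
    rw [if_pos rfl] at h4
    refine h4.trans ?_
    congr <;> exact Subsingleton.elim _ _
  obtain ⟨b, hb⟩ := Lr.core_copies hT hR ε hε2 hε0 (ν κ + ∑ l, (W l : ZMod ℓ) * g l)
    (fun i => ν (c' i)) (by
      intro a i j hij
      have key := val_eqn α hα W ν hν e κ c' hκ hκK hc hij (hval i j hij a)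
        (hpow i j _ hij (hval i j hij a))
      rw [h.der_eq hN hα hν hij a] at key
      set P := Finset.univ.filter (fun l : ι => l ≠ i ∧ l ≠ j) with hP
      have hPmem : ∀ l ∈ P, i ≠ l ∧ j ≠ l := by
        intro l hl
        rw [hP, Finset.mem_filter] at hl
        exact ⟨hl.2.1.symm, hl.2.2.symm⟩
      have x1 := hε1 a i j hij
      -- the first sum
      have s1 : ∑ l ∈ P, (W l : ZMod ℓ) * e i (nd i j a) *
          ν (aeval (nd i j a) (α i) - aeval (nd i j a) (α l)) =
          W j * (ε a i j * (∑ l ∈ P, W l * (c {i, j, l} - c {i, j}) - ∑ l ∈ P, W l * g l)) := by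
        rw [← Finset.sum_sub_distrib, Finset.mul_sum, Finset.mul_sum]
        refine Finset.sum_congr rfl fun l hl => ?_
        obtain ⟨hil, hjl⟩ := hPmem l hl
        rw [h.val_eq hN hα hν hij hjl hil a, hB3 i j l hij hjl hil, hB2 i j hij, x1]
        ring
      -- the second sum
      have s2 : ∑ s' ∈ (finite_nodes (F := F) α hα).toFinset.erase (nd i j a),
          (W j : ZMod ℓ) * (e i s' - e j s') * ν (nd i j a - s') =
          W j * (∑ l ∈ P, W l * ε a i l * (c {i, j, l} - c {i, j}) -
            ∑ l ∈ P, W l * (c {i, l} - g i) * ε a i l -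
            (∑ l ∈ P, W l * ε a j l * (c {i, j, l} - c {i, j}) -
              ∑ l ∈ P, W l * (c {j, l} - g j) * ε a j l)) := by
        have t1 := sum_nodes_h4 α hα ν nd hN B h (fun i s => (e i s : ZMod ℓ)) e0 hij a
        have t2 := sum_nodes_h4 α hα ν nd hN B h (fun i s => (e i s : ZMod ℓ)) e0 hij.symm a
        have t3 : (∑ l ∈ P, (e i (nd i l a) : ZMod ℓ) * ν (nd i j a - nd i l a)) =
            ∑ l ∈ P, W l * ε a i l * (c {i, j, l} - c {i, j}) -
              ∑ l ∈ P, W l * (c {i, l} - g i) * ε a i l := by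
          rw [← Finset.sum_sub_distrib]
          refine Finset.sum_congr rfl fun l hl => ?_
          obtain ⟨hil, hjl⟩ := hPmem l hl
          rw [hadj a i j l hij hjl hil, hε1 a i l hil]
          have u1 := hB3 i j l hij hjl hil
          have u2 := hB2 i j hij
          have u3 := hB2 i l hil
          linear_combination (W l * ε a i l : ZMod ℓ) * (u1 - u2 - u3)
        have t4 : (∑ l ∈ Finset.univ.filter (fun l : ι => l ≠ j ∧ l ≠ i),
            (e j (nd j l a) : ZMod ℓ) * ν (nd j i a - nd j l a)) =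
            ∑ l ∈ P, W l * ε a j l * (c {i, j, l} - c {i, j}) -
              ∑ l ∈ P, W l * (c {j, l} - g j) * ε a j l := by
          have hP' : Finset.univ.filter (fun l : ι => l ≠ j ∧ l ≠ i) = P := by
            ext l
            rw [hP, Finset.mem_filter, Finset.mem_filter]
            tauto
          rw [hP', ← Finset.sum_sub_distrib]
          refine Finset.sum_congr rfl fun l hl => ?_
          obtain ⟨hil, hjl⟩ := hPmem l hl
          rw [hadj a j i l hij.symm hil hjl, hε1 a j l hjl]
          have v1 : ({j, i, l} : Finset ι) = {i, j, l} := by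
            rw [Finset.insert_comm]
          have v2 : ({j, i} : Finset ι) = {i, j} := Finset.pair_comm j i
          have u1 := hB3 j i l hij.symm hil hjl
          have u2 := hB2 j i hij.symm
          have u3 := hB2 j l hjl
          rw [v1] at u1
          rw [v2] at u2
          have u1' : B {j, i, l} = c {i, j, l} - g j - g i - g l := by
            rw [← u1, v1]
          have u2' : B {j, i} = c {i, j} - g j - g i := by
            rw [← u2, v2]
          linear_combination (W l * ε a j l : ZMod ℓ) * (u1' - u2' - u3)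
        rw [← t3, ← t4, ← t1, ← t2, ← hN.symm i j a, ← Finset.sum_sub_distrib, Finset.mul_sum]
        refine Finset.sum_congr rfl fun s' _ => ?_
        ring
      rw [s1, s2, hB2 i j hij, x1] at key
      -- the left side
      have hL : ∑ l, (W l : ZMod ℓ) * (c {i, j, l} - c {i, j}) * (ε a i j + ε a j l + ε a l i) =
          ε a i j * ∑ l ∈ P, W l * (c {i, j, l} - c {i, j}) +
            ∑ l ∈ P, W l * ε a j l * (c {i, j, l} - c {i, j}) -
            ∑ l ∈ P, W l * ε a i l * (c {i, j, l} - c {i, j}) := by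
        rw [Finset.mul_sum, ← Finset.sum_add_distrib, ← Finset.sum_sub_distrib]
        have h1 : ∑ l, (W l : ZMod ℓ) * (c {i, j, l} - c {i, j}) *
            (ε a i j + ε a j l + ε a l i) =
            ∑ l ∈ P, (W l : ZMod ℓ) * (c {i, j, l} - c {i, j}) *
            (ε a i j + ε a j l + ε a l i) := by
          rw [hP, Finset.sum_filter]
          refine Finset.sum_congr rfl fun l _ => ?_
          split_ifs with hl
          · rfl
          · have h0 : c {i, j, l} - c {i, j} = 0 := by
              rw [sub_eq_zero]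
              congr 1
              rw [not_and_or, not_not, not_not] at hl
              rcases hl with rfl | rfl
              · ext x
                simp only [Finset.mem_insert, Finset.mem_singleton]
                tauto
              · ext x
                simp only [Finset.mem_insert, Finset.mem_singleton]
                tauto
            rw [h0, mul_zero, zero_mul]
        rw [h1]
        refine Finset.sum_congr rfl fun l hl => ?_
        rw [hε2 a i l (hPmem l hl).1]
        ring
      have r1 := sum_off_h4 (fun l => (W l : ZMod ℓ) * (c {i, l} - g i) * ε a i l) hij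
      have r2 := sum_off_h4 (fun l => (W l : ZMod ℓ) * (c {j, l} - g j) * ε a j l) hij
      have r3 := sum_off_h4 (fun l => (W l : ZMod ℓ) * g l) hij
      rw [← hP] at r1 r2 r3
      have v2 : ({j, i} : Finset ι) = {i, j} := Finset.pair_comm j i
      rw [hε0 a i] at r1
      rw [hε0 a j, v2, hε2 a i j hij] at r2
      rw [hL]
      apply mul_left_cancel₀ (hw j)
      linear_combination -key + W j * (r2 - r1 + ε a i j * r3))
  refine ⟨fun i => -((b i).val : ℤ), fun i j s hij hs => ?_⟩
  obtain ⟨a, rfl⟩ := (hN.mem i j hij s).1 hs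
  have h1 := hb a i j hij
  rw [← ZMod.intCast_zmod_eq_zero_iff_dvd]
  have h3 : ∀ a : ι, (((b a).val : ℕ) : ZMod ℓ) = b a := fun a => ZMod.natCast_zmod_val _
  push_cast
  rw [h3, h3, hε1 a i j hij, h1]
  ring

end Pool.Agent.Lib.MP_89bcae_ag
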