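import Mathlib
import Pool.Agent.Lib.MP_89bcae_ag.Gr.Defs
import Pool.Agent.Lib.MP_89bcae_ag.Gph.Place

/-!
# A place with an estimate of the ramification index by the inertia group
-/

open Polynomial WithZero IsDedekindDomain

open scoped Classical Pointwise

namespace Pool.Agent.Lib.MP_89bcae_ag

open Superelliptic

variable {F : Type} [Field F] [Algebra ℚ F]

/-- `σ` is in the inertia group of the place. -/
def Place.Inert {p : ℕ} {K₀ : Subfield F} (P : Place p K₀) (σ : F ≃ₐ[ℚ] F) : Prop :=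
  ∀ (x : F) (hx : x ∈ P.O), ∃ hx' : σ x ∈ P.O, P.red ⟨σ x, hx'⟩ = P.red ⟨x, hx⟩

/-- The valuation of a finite Galois extension of `ℚ` above `p`. Proof: `place_aux_h74` with the last part
for three elements: `ramificationIdx_le_card_inertia7` gives `e ≤ #inertia`, so if `3 ≤ e` there are two
different elements `σ, τ ≠ 1` of the inertia group. -/
theorem exists_place_aux_three (K : Type) [Field K] [Algebra ℚ K] [FiniteDimensional ℚ K]
    [IsGalois ℚ K] {p : ℕ} (hp : p.Prime) :
    ∃ (w : Valuation K (WithZero (Multiplicative ℤ))) (e : ℕ), 0 < e ∧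
      (∀ z : ℤ, z ≠ 0 → w (z : K) = WithZero.exp (-((e * padicValInt p z : ℕ) : ℤ))) ∧
      (2 ≤ e → ∃ σ : K ≃ₐ[ℚ] K, σ ≠ 1 ∧ ∀ y, w y ≤ 1 → w (σ y) ≤ 1 ∧ w (σ y - y) < 1) ∧
      (3 ≤ e → ∃ σ τ : K ≃ₐ[ℚ] K, σ ≠ 1 ∧ τ ≠ 1 ∧ σ ≠ τ ∧
        (∀ y, w y ≤ 1 → w (σ y) ≤ 1 ∧ w (σ y - y) < 1) ∧
        (∀ y, w y ≤ 1 → w (τ y) ≤ 1 ∧ w (τ y - y) < 1)) := by
  obtain ⟨R₀, i1, i2, i3, i4, i5, hR₀⟩ := exists_dvrZ8 hp
  let : Algebra R₀ K := ((algebraMap ℚ K).comp (algebraMap R₀ ℚ)).toAlgebra
  have : IsScalarTower R₀ ℚ K := IsScalarTower.of_algebraMap_eq fun r => rfl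
  let B := integralClosure R₀ K
  have : IsDedekindDomain B := integralClosure.isDedekindDomain R₀ ℚ K
  have : Module.Finite R₀ B := IsIntegralClosure.finite R₀ ℚ K B
  have : IsFractionRing B K := integralClosure.isFractionRing_of_finite_extension ℚ K
  have : SMulCommClass (K ≃ₐ[ℚ] K) R₀ K := ⟨fun σ r x => by
    rw [AlgEquiv.smul_def, AlgEquiv.smul_def, Algebra.smul_def, Algebra.smul_def, map_mul,
      IsScalarTower.algebraMap_apply R₀ ℚ K, AlgEquiv.commutes]⟩
  have : IsGaloisGroup (K ≃ₐ[ℚ] K) R₀ B := IsGaloisGroup.of_isFractionRing _ _ _ ℚ K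
  have hinjK : Function.Injective (algebraMap R₀ K) := by
    rw [IsScalarTower.algebraMap_eq R₀ ℚ K]
    exact (algebraMap ℚ K).injective.comp (IsFractionRing.injective R₀ ℚ)
  have hinjB : Function.Injective (algebraMap B K) := Subtype.val_injective
  have : FaithfulSMul R₀ B := by
    rw [faithfulSMul_iff_algebraMap_injective]
    intro x y hxy
    exact hinjK (congrArg (algebraMap B K) hxy)
  have : Module.IsTorsionFree R₀ B := inferInstance
  have : Module.Flat R₀ B := inferInstance
  let v : HeightOneSpectrum R₀ := IsDiscreteValuationRing.maximalIdeal R₀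
  have hvmax : v.asIdeal.IsMaximal := v.isMaximal
  obtain ⟨P, hPmax, hPv⟩ := Ideal.exists_maximal_ideal_liesOver_of_isIntegral (S := B) v.asIdeal
  have hP0 : P ≠ ⊥ := Ideal.ne_bot_of_liesOver_of_ne_bot v.ne_bot P
  let w : HeightOneSpectrum B := ⟨P, hPmax.isPrime, hP0⟩
  have hwv : w.asIdeal.LiesOver v.asIdeal := hPv
  have hmP : ∀ r : R₀, algebraMap R₀ B r ∈ P ↔ r ∈ IsLocalRing.maximalIdeal R₀ := by
    intro r
    have h1 : r ∈ Ideal.comap (algebraMap R₀ B) P ↔ r ∈ v.asIdeal := by
      rw [← Ideal.under_def, ← hPv.over]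
    exact h1
  set e := v.asIdeal.ramificationIdx' w.asIdeal with hedef
  have hWk : ∀ r : R₀, w.intValuation (algebraMap R₀ B r) = v.intValuation r ^ e := by
    intro r
    have h1 := HeightOneSpectrum.valuation_liesOver K v w (algebraMap R₀ ℚ r)
    rw [← IsScalarTower.algebraMap_apply] at h1
    have h2 : w.intValuation (algebraMap R₀ B r) = w.valuation K (algebraMap R₀ K r) := by
      rw [← w.valuation_of_algebraMap (K := K)]
      rfl
    rw [h2, ← h1]
    congr 1
    exact HeightOneSpectrum.valuation_of_algebraMap (K := ℚ) v r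
  have he1 : 0 < e := by
    rcases Nat.eq_zero_or_pos e with h0 | h0
    · exfalso
      obtain ⟨ϖ, hϖ⟩ := v.intValuation_exists_uniformizer
      have h1 : ϖ ∈ IsLocalRing.maximalIdeal R₀ := by
        have h2 : v.intValuation ϖ ≤ exp (-((1 : ℕ) : ℤ)) := by rw [hϖ]; simp
        have h3 := (v.intValuation_le_pow_iff_mem ϖ 1).mp h2
        rw [pow_one] at h3
        exact h3
      have h2 : w.intValuation (algebraMap R₀ B ϖ) < 1 :=
        (w.intValuation_lt_one_iff_mem _).mpr ((hmP ϖ).mpr h1)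
      rw [hWk, h0, pow_zero] at h2
      exact lt_irrefl _ h2
    · exact h0
  have hinert : ∀ σ : K ≃ₐ[ℚ] K, σ ∈ P.inertia (K ≃ₐ[ℚ] K) → ∀ y, w.valuation K y ≤ 1 →
      w.valuation K (σ y) ≤ 1 ∧ w.valuation K (σ y - y) < 1 := by
    intro σ hσP y hy
    obtain ⟨b, c, hbc⟩ := w.exists_primeCompl_mul_eq_of_integer y hy
    have hσB : ∀ x : B, σ (algebraMap B K x) = algebraMap B K (σ • x) := fun x => rfl
    have hin : ∀ x : B, σ • x - x ∈ P := fun x => hσP x
    have hc1 : w.intValuation (c : B) = 1 := by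
      rw [w.intValuation_eq_one_iff_mem_primeCompl]
      exact c.2
    have hσc : w.intValuation (σ • (c : B)) = 1 := by
      rw [w.intValuation_eq_one_iff_mem_primeCompl]
      intro h
      apply c.2
      have h3 := P.sub_mem h (hin c)
      rwa [sub_sub_cancel] at h3
    have hσy : σ y * algebraMap B K (σ • (c : B)) = algebraMap B K (σ • b) := by
      rw [← hσB, ← hσB, ← map_mul, hbc]
    constructor
    · have h3 := congrArg (w.valuation K) hσy
      rw [map_mul, HeightOneSpectrum.valuation_of_algebraMap, hσc, mul_one,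
        HeightOneSpectrum.valuation_of_algebraMap] at h3
      rw [h3]
      exact w.intValuation_le_one _
    · have h3 : (σ y - y) * algebraMap B K ((σ • (c : B)) * (c : B)) =
          algebraMap B K ((σ • b - b) * (c : B) - b * (σ • (c : B) - (c : B))) := by
        simp only [map_sub, map_mul]
        linear_combination (algebraMap B K (c : B)) * hσy - (algebraMap B K (σ • (c : B))) * hbc
      have h4 := congrArg (w.valuation K) h3
      rw [map_mul, HeightOneSpectrum.valuation_of_algebraMap, map_mul, hσc, hc1, mul_one, mul_one,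
        HeightOneSpectrum.valuation_of_algebraMap] at h4
      rw [h4, w.intValuation_lt_one_iff_mem]
      exact P.sub_mem (P.mul_mem_right _ (hin b)) (P.mul_mem_left _ (hin c))
  have hcard : e ≤ Nat.card (P.inertia (K ≃ₐ[ℚ] K)) := by
    let : Field (B ⧸ P) := Ideal.Quotient.field P
    rw [hedef, Ideal.ramificationIdx'_eq_ramificationIdx v.asIdeal w.asIdeal v.ne_bot]
    exact ramificationIdx_le_card_inertia7 v.asIdeal P
  refine ⟨w.valuation K, e, he1, ?_, ?_, ?_⟩
  · intro z hz
    have hz0 : (z : R₀) ≠ 0 := by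
      intro h0
      have h1 : algebraMap R₀ K (z : R₀) = 0 := by rw [h0, map_zero]
      rw [map_intCast] at h1
      have : CharZero K := charZero_of_injective_algebraMap (algebraMap ℚ K).injective
      exact hz (by exact_mod_cast h1)
    have h1 : v.intValuation (z : R₀) = exp (-((padicValInt p z : ℕ) : ℤ)) := by
      apply le_antisymm
      · refine (v.intValuation_le_pow_iff_mem (z : R₀) (padicValInt p z)).mpr ?_
        refine (hR₀ z _).mpr ?_
        exact padicValInt_dvd z
      · by_contra hlt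
        rw [not_le] at hlt
        have h2 : v.intValuation (z : R₀) ≤ exp (-((padicValInt p z + 1 : ℕ) : ℤ)) := by
          obtain ⟨m, hm⟩ : ∃ m : ℤ, v.intValuation (z : R₀) = exp m := by
            refine ⟨log (v.intValuation (z : R₀)), (exp_log ?_).symm⟩
            exact v.intValuation_ne_zero _ hz0
          rw [hm] at hlt ⊢
          rw [exp_lt_exp] at hlt
          rw [exp_le_exp]
          push_cast
          omega
        have h3 := (v.intValuation_le_pow_iff_mem (z : R₀) _).mp h2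
        have h4 := (hR₀ z _).mp h3
        have := Fact.mk hp
        rw [padicValInt_dvd_iff] at h4
        rcases h4 with h4 | h4
        · exact hz h4
        · omega
    have h2 : (z : K) = algebraMap B K (algebraMap R₀ B (z : R₀)) := by
      rw [map_intCast, map_intCast]
    rw [h2, HeightOneSpectrum.valuation_of_algebraMap, hWk, h1, ← exp_nsmul]
    congr 1
    push_cast
    rw [nsmul_eq_mul]
    ring
  · intro he2
    have h2 : 1 < Nat.card (P.inertia (K ≃ₐ[ℚ] K)) := lt_of_lt_of_le (by omega) hcard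
    obtain ⟨σ, hσP, hσ1⟩ : ∃ σ : K ≃ₐ[ℚ] K, σ ∈ P.inertia (K ≃ₐ[ℚ] K) ∧ σ ≠ 1 := by
      by_contra hcon
      push Not at hcon
      have : Subsingleton (P.inertia (K ≃ₐ[ℚ] K)) :=
        ⟨fun σ τ => Subtype.ext ((hcon σ σ.2).trans (hcon τ τ.2).symm)⟩
      have := Finite.card_le_one_iff_subsingleton.mpr this
      omega
    exact ⟨σ, hσ1, hinert σ hσP⟩
  · intro he3
    have h2 : 2 < Nat.card (P.inertia (K ≃ₐ[ℚ] K)) := lt_of_lt_of_le (by omega) hcard
    have hfin : Finite (P.inertia (K ≃ₐ[ℚ] K)) := Nat.finite_of_card_ne_zero (by omega)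
    have hft : Fintype (P.inertia (K ≃ₐ[ℚ] K)) := Fintype.ofFinite _
    rw [Nat.card_eq_fintype_card] at h2
    obtain ⟨σ, hσ⟩ : ∃ σ : P.inertia (K ≃ₐ[ℚ] K), σ ∉ ({1} : Finset (P.inertia (K ≃ₐ[ℚ] K))) := by
      by_contra hcon
      push Not at hcon
      have h3 := Finset.card_le_card (s := Finset.univ) (t := {1}) fun x _ => hcon x
      rw [Finset.card_univ, Finset.card_singleton] at h3
      omega
    obtain ⟨τ, hτ⟩ : ∃ τ : P.inertia (K ≃ₐ[ℚ] K), τ ∉ ({1, σ} : Finset (P.inertia (K ≃ₐ[ℚ] K))) := by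
      by_contra hcon
      push Not at hcon
      have h3 := Finset.card_le_card (s := Finset.univ) (t := {1, σ}) fun x _ => hcon x
      rw [Finset.card_univ] at h3
      have h4 := Finset.card_le_two (a := (1 : P.inertia (K ≃ₐ[ℚ] K))) (b := σ)
      omega
    rw [Finset.mem_singleton] at hσ
    rw [Finset.mem_insert, Finset.mem_singleton, not_or] at hτ
    refine ⟨σ, τ, ?_, ?_, ?_, hinert σ σ.2, hinert τ τ.2⟩
    · intro h
      exact hσ (Subtype.ext h)
    · intro h
      exact hτ.1 (Subtype.ext h)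
    · intro h
      exact hτ.2 (Subtype.ext h.symm)

section

attribute [-instance] DivisionRing.toRatAlgebra

/-- The place of `exists_place` (`Gph/Place.lean`), with one more statement for `3 ≤ e`. Proof: the same, with
`exists_place_aux_three` instead of `place_aux_h74`; two different automorphisms of `ℚ(S)` differ at an
element of `S`. -/
theorem exists_place_three [IsAlgClosure ℚ F] {p : ℕ} (hp : p.Prime) (S : Set F) (hS : S.Finite)
    (hσ : ∀ (σ : F ≃ₐ[ℚ] F), ∀ s ∈ S, σ s ∈ S) :
    ∃ P : Place p (IntermediateField.adjoin ℚ S).toSubfield,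
      (2 ≤ P.e → ∃ σ : F ≃ₐ[ℚ] F, (∃ s ∈ S, σ s ≠ s) ∧ P.Inert σ) ∧
      (3 ≤ P.e → ∃ σ τ : F ≃ₐ[ℚ] F, (∃ s ∈ S, σ s ≠ s) ∧ (∃ s ∈ S, τ s ≠ s) ∧
        (∃ s ∈ S, σ s ≠ τ s) ∧ P.Inert σ ∧ P.Inert τ) := by
  have halg : Algebra.IsAlgebraic ℚ F := IsAlgClosure.isAlgebraic
  have hnF : Normal ℚ F := IsAlgClosure.normal ℚ F
  set K : IntermediateField ℚ F := IntermediateField.adjoin ℚ S with hKdef
  have hSfin : Finite S := hS.to_subtype
  have hfd : FiniteDimensional ℚ K :=
    IntermediateField.finiteDimensional_adjoin fun x _ => (halg.isAlgebraic x).isIntegral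
  have hnK : Normal ℚ K := by
    rw [IntermediateField.normal_iff_forall_map_le']
    intro σ
    rw [hKdef, IntermediateField.adjoin_map, IntermediateField.adjoin_le_iff]
    rintro _ ⟨s, hs, rfl⟩
    exact IntermediateField.subset_adjoin ℚ S (hσ σ s hs)
  have hgal : IsGalois ℚ K := ⟨⟩
  obtain ⟨w, e, he, hrat, hin, hin3⟩ := exists_place_aux_three K hp
  let V : ValuationSubring K := w.valuationSubring
  have hinj : Function.Injective (algebraMap K F) := (algebraMap K F).injective
  let O : Subring F := V.toSubring.map (algebraMap K F)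
  let ε : V.toSubring ≃+* O := V.toSubring.equivMapOfInjective (algebraMap K F) hinj
  let red : O →+* IsLocalRing.ResidueField V := (IsLocalRing.residue V).comp ε.symm.toRingHom
  let ord : F → ℤ := fun x => if h : x ∈ K then -(log (w ⟨x, h⟩)) else 0
  have hord : ∀ y : K, ord (y : F) = -(log (w y)) := fun y => dif_pos y.2
  have hred : ∀ (y : K) (hy : y ∈ V) (hO : (y : F) ∈ O), red ⟨y, hO⟩ = IsLocalRing.residue V ⟨y, hy⟩ := by
    intro y hy hO
    have h1 : ε.symm ⟨(y : F), hO⟩ = ⟨y, hy⟩ := by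
      rw [RingEquiv.symm_apply_eq]
      rfl
    show IsLocalRing.residue V (ε.symm ⟨(y : F), hO⟩) = _
    rw [h1]
  have hOmem : ∀ x : F, x ∈ O ↔ ∃ y : K, w y ≤ 1 ∧ (y : F) = x := fun x => Iff.rfl
  have hle : ∀ y : K, y ≠ 0 → (w y ≤ 1 ↔ 0 ≤ -(log (w y))) := by
    intro y hy
    have h1 : w y ≠ 0 := (Valuation.ne_zero_iff w).mpr hy
    have h2 : (0 : ℤ) ≤ -(log (w y)) ↔ log (w y) ≤ 0 := by omega
    rw [h2, log_le_iff_le_exp h1, exp_zero]
  have hlt : ∀ y : K, y ≠ 0 → (w y < 1 ↔ 0 < -(log (w y))) := by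
    intro y hy
    have h1 : w y ≠ 0 := (Valuation.ne_zero_iff w).mpr hy
    have h2 : (0 : ℤ) < -(log (w y)) ↔ log (w y) < 0 := by omega
    rw [h2, log_lt_iff_lt_exp h1, exp_zero]
  have hres : ∀ (y : K) (hy : y ∈ V), IsLocalRing.residue V ⟨y, hy⟩ = 0 ↔ w y < 1 := by
    intro y hy
    rw [IsLocalRing.residue_eq_zero_iff]
    exact Valuation.mem_maximalIdeal_iff _ _
  let P : Place p K.toSubfield :=
    { O := O
      κ := IsLocalRing.ResidueField V
      red := red
      ord := ord
      e := e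
      isVal := by
        refine ⟨?_, ?_⟩
        · intro x hx y hy hx0 hy0
          have h1 := hord ⟨x, hx⟩
          have h2 := hord ⟨y, hy⟩
          have h3 := hord (⟨x, hx⟩ * ⟨y, hy⟩)
          have h4 : w (⟨x, hx⟩ : K) ≠ 0 := (Valuation.ne_zero_iff w).mpr fun h => hx0 (congrArg Subtype.val h)
          have h5 : w (⟨y, hy⟩ : K) ≠ 0 := (Valuation.ne_zero_iff w).mpr fun h => hy0 (congrArg Subtype.val h)
          rw [map_mul, log_mul h4 h5] at h3
          change ord (x * y) = ord x + ord y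
          change ord x = _ at h1
          change ord y = _ at h2
          change ord (x * y) = _ at h3
          rw [h3, h1, h2]
          ring
        · have h1 := hord (-1)
          rw [Valuation.map_neg, map_one, log_one, neg_zero] at h1
          simpa using h1
      mem_O := by
        intro x
        rw [hOmem]
        constructor
        · rintro ⟨y, hy, rfl⟩
          refine ⟨y.2, ?_⟩
          by_cases h0 : y = 0
          · left
            rw [h0]
            rfl
          · right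
            rw [hord]
            exact (hle y h0).mp hy
        · rintro ⟨hx, h1⟩
          refine ⟨⟨x, hx⟩, ?_, rfl⟩
          rcases h1 with h1 | h1
          · have h2 : (⟨x, hx⟩ : K) = 0 := Subtype.ext h1
            rw [h2, map_zero]
            exact zero_le
          · by_cases h0 : (⟨x, hx⟩ : K) = 0
            · rw [h0, map_zero]
              exact zero_le
            · have h2 := hord ⟨x, hx⟩
              change ord x = _ at h2
              rw [h2] at h1
              exact (hle _ h0).mpr h1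
      red_eq_zero := by
        intro x hx hx0
        obtain ⟨y, hy, rfl⟩ := (hOmem x).mp hx
        have h0 : y ≠ 0 := fun h => hx0 (by rw [h]; rfl)
        rw [hred y hy hx, hord]
        exact (hres y hy).trans (hlt y h0)
      e_pos := he
      rat := by
        intro z hz
        have h1 := hord (z : K)
        rw [hrat z hz, log_exp, neg_neg] at h1
        have h2 : ((z : K) : F) = (z : F) := by push_cast; rfl
        rw [h2] at h1
        rw [h1]
        push_cast
        ring }
  have hcomm : ∀ (σ : K ≃ₐ[ℚ] K) (y : K), (σ.liftNormal F) (y : F) = (σ y : F) :=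
    fun σ y => σ.liftNormal_commutes F y
  have hne : ∀ σ τ : K ≃ₐ[ℚ] K, σ ≠ τ → ∃ s ∈ S, (σ.liftNormal F) s ≠ (τ.liftNormal F) s := by
    intro σ τ hστ
    by_contra hcon
    push Not at hcon
    apply hστ
    have h0 : τ⁻¹ * σ = 1 := by
      apply fix_adjoin_h74
      intro s hs
      have h1 := hcon s hs
      have h2 := hcomm σ ⟨s, IntermediateField.subset_adjoin ℚ S hs⟩
      have h3 := hcomm τ ⟨s, IntermediateField.subset_adjoin ℚ S hs⟩
      have h4 : σ ⟨s, IntermediateField.subset_adjoin ℚ S hs⟩ =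
          τ ⟨s, IntermediateField.subset_adjoin ℚ S hs⟩ := by
        apply Subtype.ext
        rw [← h2, ← h3]
        exact h1
      rw [AlgEquiv.mul_apply, h4]
      exact τ.symm_apply_apply _
    exact (inv_mul_eq_one.mp h0).symm
  have hne1 : ∀ σ : K ≃ₐ[ℚ] K, σ ≠ 1 → ∃ s ∈ S, (σ.liftNormal F) s ≠ s := by
    intro σ hσ1
    by_contra hcon
    push Not at hcon
    apply hσ1
    apply fix_adjoin_h74
    intro s hs
    apply Subtype.ext
    have h1 := hcomm σ ⟨s, IntermediateField.subset_adjoin ℚ S hs⟩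
    rw [← h1]
    exact hcon s hs
  have hI : ∀ σ : K ≃ₐ[ℚ] K, (∀ y, w y ≤ 1 → w (σ y) ≤ 1 ∧ w (σ y - y) < 1) →
      P.Inert (σ.liftNormal F) := by
    intro σ hσ2 x hx
    obtain ⟨y, hy, rfl⟩ := (hOmem x).mp hx
    obtain ⟨h1, h2⟩ := hσ2 y hy
    have hmem : (σ.liftNormal F) (y : F) ∈ O := by
      rw [hcomm]
      exact (hOmem _).mpr ⟨σ y, h1, rfl⟩
    refine ⟨hmem, ?_⟩
    have hmem' : ((σ y : K) : F) ∈ O := (hOmem _).mpr ⟨σ y, h1, rfl⟩
    have h3 : (⟨(σ.liftNormal F) (y : F), hmem⟩ : O) = ⟨((σ y : K) : F), hmem'⟩ :=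
      Subtype.ext (hcomm σ y)
    show red ⟨(σ.liftNormal F) (y : F), hmem⟩ = red ⟨(y : F), hx⟩
    rw [h3, hred (σ y) h1 hmem', hred y hy hx, ← sub_eq_zero, ← map_sub]
    have h4 : (⟨σ y, h1⟩ - ⟨y, hy⟩ : V) = ⟨σ y - y, h2.le⟩ := rfl
    rw [h4]
    exact (hres _ _).mpr h2
  refine ⟨P, fun h2e => ?_, fun h3e => ?_⟩
  · obtain ⟨σ, hσ1, hσ2⟩ := hin h2e
    exact ⟨σ.liftNormal F, hne1 σ hσ1, hI σ hσ2⟩
  · obtain ⟨σ, τ, hσ1, hτ1, hστ, hσ2, hτ2⟩ := hin3 h3e
    exact ⟨σ.liftNormal F, τ.liftNormal F, hne1 σ hσ1, hne1 τ hτ1, hne σ τ hστ, hI σ hσ2, hI τ hτ2⟩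

end

end Pool.Agent.Lib.MP_89bcae_ag
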