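import Mathlib
import Pool.Agent.Lib.MP_89bcae_ag.Gr.V01
import Pool.Agent.Lib.MP_89bcae_ag.Gph.Swap

/-!
# The valuation at a prime of type D
-/

open Polynomial

open scoped Classical

namespace Pool.Agent.Lib.MP_89bcae_ag

open Superelliptic

section Aux

variable {F : Type} [Field F] [Algebra ℚ F] {p : ℕ} {K₀ : Subfield F} (P : Place p K₀)

omit [Algebra ℚ F] in
theorem ord_neg_h64 {x : F} (hx : x ∈ K₀) (hx0 : x ≠ 0) : P.ord (-x) = P.ord x := by
  have h1 := P.isVal.mul (-1) (neg_mem (one_mem _)) x hx (neg_ne_zero.2 one_ne_zero) hx0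
  rw [P.isVal.neg_one, neg_one_mul, zero_add] at h1
  exact h1

omit [Algebra ℚ F] in
theorem ord_div_h64 {x y : F} (hx : x ∈ K₀) (hy : y ∈ K₀) (hx0 : x ≠ 0) (hy0 : y ≠ 0) :
    P.ord (x / y) = P.ord x - P.ord y := by
  have h1 := P.isVal.mul (x / y) (div_mem hx hy) y hy (div_ne_zero hx0 hy0) hy0
  rw [div_mul_cancel₀ _ hy0] at h1
  omega

omit [Algebra ℚ F] in
/-- A quotient by an element of smaller value is integral. -/
theorem div_mem_O_h64 {x y : F} (hx : x ∈ K₀) (hy : y ∈ K₀) (hy0 : y ≠ 0)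
    (h : x ≠ 0 → P.ord y ≤ P.ord x) : x / y ∈ P.O := by
  rw [P.mem_O]
  refine ⟨div_mem hx hy, ?_⟩
  by_cases hx0 : x = 0
  · left
    rw [hx0, zero_div]
  · right
    rw [ord_div_h64 P hx hy hx0 hy0]
    have := h hx0
    omega

/-- The algebra of the double root: `y = (z - u) + (z - w)` has value at least `2`. -/
theorem double_root_h64 {lc fz' G G' a b : F} (hlc : lc ∈ K₀) (hlc0 : lc ≠ 0) (hlcv : P.ord lc = 0)
    (hG : G ∈ K₀) (hG0 : G ≠ 0) (hGv : P.ord G = 0) (hG' : G' ∈ P.O)
    (ha : a ∈ K₀) (ha0 : a ≠ 0) (hav : P.ord a = 1) (hb : b ∈ K₀) (hb0 : b ≠ 0) (hbv : P.ord b = 1)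
    (hf : fz' ∈ K₀) (hfv : fz' ≠ 0 → 2 ≤ P.ord fz')
    (he : fz' = lc * ((a + b) * G + a * b * G')) (hab0 : a + b ≠ 0) : 2 ≤ P.ord (a + b) := by
  have haa : a * a ∈ K₀ := mul_mem ha ha
  have haa0 : a * a ≠ 0 := mul_ne_zero ha0 ha0
  have haav : P.ord (a * a) = 2 := by
    rw [P.isVal.mul a ha a ha ha0 ha0, hav]
    rfl
  have h1 : fz' / (a * a) ∈ P.O := by
    refine div_mem_O_h64 P hf haa haa0 fun h => ?_
    rw [haav]
    exact hfv h
  have h2 : (1 : F) / lc ∈ P.O := by
    refine div_mem_O_h64 P (one_mem _) hlc hlc0 fun _ => ?_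
    rw [hlcv, ord_one_h57 P]
  have h3 : (1 : F) / G ∈ P.O := by
    refine div_mem_O_h64 P (one_mem _) hG hG0 fun _ => ?_
    rw [hGv, ord_one_h57 P]
  have h4 : b / a ∈ P.O := by
    refine div_mem_O_h64 P hb ha ha0 fun _ => ?_
    rw [hav, hbv]
  have h5 : (a + b) / (a * a) = (fz' / (a * a) * (1 / lc) - b / a * G') * (1 / G) := by
    rw [he]
    field_simp
    ring
  have h6 : (a + b) / (a * a) ∈ P.O := by
    rw [h5]
    exact mul_mem (sub_mem (mul_mem h1 h2) (mul_mem h4 hG')) h3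
  have h7 := ((P.mem_O _).1 h6).2
  rcases h7 with h7 | h7
  · exact absurd h7 (div_ne_zero hab0 haa0)
  · rw [ord_div_h64 P (add_mem ha hb) haa hab0 haa0, haav] at h7
    omega

end Aux

variable {ι : Type} [Fintype ι] [LinearOrder ι] {n : ℕ} {F : Type} [Field F] [Algebra ℚ F]
  [IsAlgClosure ℚ F]

/-- **The valuation at a prime of type D.** Proof: `P` from `exists_place_three` for `S` the set of the nodes
(`nodes_stable`). All the nodes are in `P.O` (`Place.root_mem`). Two different nodes `s`, `s'` with the same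
reduction are the two roots `u`, `w` of `α_a - α_b` with the reduction of `z` (`h.cop`:
`Place.red_ne_of_isCoprime`; `h.sep`: `Place.red_ne_of_separable`; for `α_a - α_b` see the proof of
`exists_swap_typeD` (`Gph/Swap.lean`)). An element of the inertia group fixes all the other nodes and
permutes `u`, `w`; so `P.e < 3` by the second part of `exists_place_three`. With
`f = gdif v a b = lc ∏ (X - s)`, `P.ord (f z) = P.e * 1` (`Place.rat`, `h.dbl`: `p` divides `f z` exactly
once; `Place.ord_aeval`), and it is `P.ord (z - u) + P.ord (z - w)`, both `≥ 1` (`Place.ord_sub_pos`): so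
`P.e = 2` and both are `1`. The derivative: `f' z` is divisible by `p` (double root modulo `p`), so
`P.ord (f' z) ≥ 2` (or it is `0`) and `f' z = lc ((z - u) + (z - w)) g z + lc (z - u) (z - w) g' z` with
`g = ∏` over the other roots, `P.ord (g z) = 0`: `(z - u) + (z - w)` is `0` or has `P.ord ≥ 2`. Since
`p ≠ 2`, `P.ord (2 (z - u)) = 1`, and `u - w = ((z - u) + (z - w)) - 2 (z - u)`, so `P.ord (u - w) = 1`
(`Place.ord_add` or the ideal `{x | x = 0 ∨ 2 ≤ ord x}` of `P.O`). The other differences have different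
reductions (`Place.ord_sub_eq_zero`). The leading coefficients are prime to `p` (`h.lead`,
`Place.rat`). -/
theorem exists_val_typeD (v : ι × Fin (n + 1) → ℤ) {p : ℕ} (hp : p.Prime) (hp2 : p ≠ 2) {a b : ι}
    (hab : a ≠ b) (h : TypeD p a b v) (hsep : (gpolQ v a - gpolQ v b).Separable) :
    ∃ (ν : F → ℤ) (u w : F), u ≠ w ∧ aeval u (gpolQ v a) = aeval u (gpolQ v b) ∧
      aeval w (gpolQ v a) = aeval w (gpolQ v b) ∧
      IsVal (IntermediateField.adjoin ℚ (nodes ℚ F (gpolQ v))).toSubfield ν ∧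
      DifV ν (gpolQ v) (fun s s' => if s ∈ ({u, w} : Set F) ∧ s' ∈ ({u, w} : Set F) then 1 else 0)
        (fun _ _ => 0) := by
  have : Fact p.Prime := ⟨hp⟩
  have : CharZero F := algebraRat.charZero F
  have hlead : ∀ c d, c ≠ d → v (c, Fin.last n) ≠ v (d, Fin.last n) := by
    intro c d hcd he
    apply h.lead c d hcd
    rw [he, sub_self]
    exact dvd_zero _
  have hlc : ∀ c d, c ≠ d → ¬ (p : ℤ) ∣ (gdif v c d).leadingCoeff := by
    intro c d hcd
    rw [gdif_leadingCoeff (hlead c d hcd)]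
    exact h.lead c d hcd
  have hne : ∀ c d, c ≠ d → gpolQ v c ≠ gpolQ v d := by
    intro c d hcd he
    have h1 := gdif_map_rat v c d
    rw [he, sub_self] at h1
    have h2 : gdif v c d = 0 :=
      (Polynomial.map_eq_zero_iff (Int.castRingHom ℚ).injective_int).1 h1
    apply hlc c d hcd
    rw [h2, leadingCoeff_zero]
    exact dvd_zero _
  obtain ⟨P, -, hP⟩ := exists_place_three (F := F) hp (nodes ℚ F (gpolQ v)) (nodes_gpolQ_finite hne)
    (nodes_stable (gpolQ v))
  have hzero : ∀ (c d : ι) (s : F), aeval s (gpolQ v c) = aeval s (gpolQ v d) →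
      aeval s (gdif v c d) = 0 := by
    intro c d s hs
    rw [aeval_gdif, hs, sub_self]
  have hSK : ∀ s ∈ nodes ℚ F (gpolQ v),
      s ∈ (IntermediateField.adjoin ℚ (nodes ℚ F (gpolQ v))).toSubfield := fun s hs =>
    IntermediateField.subset_adjoin ℚ _ hs
  have hSO : ∀ s ∈ nodes ℚ F (gpolQ v), s ∈ P.O := by
    intro s hs
    obtain ⟨c, d, hcd, hs2⟩ := id hs
    exact P.root_mem hp (hlc c d hcd) (hSK s hs) (hzero c d s hs2)
  obtain ⟨R, hR, hfR⟩ := exists_roots (F := F) hsep
  have hRS : ∀ s ∈ R, s ∈ nodes ℚ F (gpolQ v) := fun s hs => ⟨a, b, hab, (hR s).1 hs⟩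
  have hRO : ∀ s ∈ R, s ∈ P.O := fun s hs => hSO s (hRS s hs)
  obtain ⟨z, hz1, hz2, g, hg, hgz, hgs⟩ := h.dbl
  obtain ⟨c, hc⟩ := swRed_h70 hp P (gdif v a b) R hRO hfR
  set zb : P.κ := P.redp hp (z : ZMod p) with hzb
  set gb : P.κ[X] := g.map (P.redp hp) with hgb
  have hfb : (gred p v a b).map (P.redp hp) = (X - C zb) ^ 2 * gb := by
    rw [hg, Polynomial.map_mul, Polynomial.map_pow, Polynomial.map_sub, map_X, map_C]
  have hgbz : gb.eval zb ≠ 0 := by
    rw [hgb, hzb, eval_map, eval₂_at_apply]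
    exact fun h0 => hgz ((map_eq_zero (P.redp hp)).1 h0)
  have hgb0 : gb ≠ 0 := by
    intro h0
    apply hgbz
    rw [h0, eval_zero]
  have hgbs : gb.Separable := hgs.map
  have hfb0 : (X - C zb) ^ 2 * gb ≠ 0 := mul_ne_zero (pow_ne_zero _ (X_sub_C_ne_zero _)) hgb0
  have hprod : C c * ∏ s ∈ R, (X - C (swRd_h70 P s)) = (X - C zb) ^ 2 * gb := by
    rw [← hfb, ← hc]
    rfl
  have hc0 : c ≠ 0 := by
    intro h0
    rw [h0, C_0, zero_mul] at hprod
    exact hfb0 hprod.symm
  have hroots : R.val.map (swRd_h70 P) = 2 • {zb} + gb.roots := by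
    have h1 := congrArg Polynomial.roots hprod
    rw [roots_C_mul _ hc0, roots_mul hfb0, roots_pow, roots_X_sub_C] at h1
    rw [← h1]
    have h2 := Polynomial.roots_multiset_prod_X_sub_C (R.val.map (swRd_h70 P))
    rw [Multiset.map_map] at h2
    exact h2.symm
  have hcz : (R.filter (fun s => zb = swRd_h70 P s)).card = 2 := by
    rw [swCount_h70, hroots, Multiset.count_add, Multiset.count_nsmul, Multiset.count_singleton_self]
    have h1 : gb.roots.count zb = 0 := by
      rw [Multiset.count_eq_zero]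
      intro h2
      exact hgbz ((mem_roots hgb0).1 h2)
    rw [h1]
  have hct : ∀ t, t ≠ zb → (R.filter (fun s => t = swRd_h70 P s)).card ≤ 1 := by
    intro t ht
    rw [swCount_h70, hroots, Multiset.count_add, Multiset.count_nsmul,
      Multiset.count_singleton, if_neg ht, mul_zero, zero_add]
    exact Multiset.nodup_iff_count_le_one.1 (nodup_roots hgbs) t
  obtain ⟨u, w, huw, hfil⟩ := Finset.card_eq_two.1 hcz
  have hu : u ∈ R ∧ zb = swRd_h70 P u := by
    have : u ∈ R.filter (fun s => zb = swRd_h70 P s) := by rw [hfil]; simp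
    exact Finset.mem_filter.1 this
  have hw : w ∈ R ∧ zb = swRd_h70 P w := by
    have : w ∈ R.filter (fun s => zb = swRd_h70 P s) := by rw [hfil]; simp
    exact Finset.mem_filter.1 this
  have huwR : ∀ s ∈ R, swRd_h70 P s = zb → s = u ∨ s = w := by
    intro s hs hs2
    have : s ∈ R.filter (fun s => zb = swRd_h70 P s) := Finset.mem_filter.2 ⟨hs, hs2.symm⟩
    rw [hfil] at this
    simpa using this
  -- the ramification
  have hzO : ((z : ℤ) : F) ∈ P.O := P.int_mem z
  have hzrd : swRd_h70 P ((z : ℤ) : F) = zb := by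
    rw [swRd_eq_h70 P hzO]
    have e1 : (⟨((z : ℤ) : F), hzO⟩ : P.O) = ((z : ℤ) : P.O) := Subtype.ext (by simp)
    rw [e1, map_intCast, hzb, map_intCast]
  have hfz0 : (gdif v a b).eval z ≠ 0 := by
    intro h0
    apply hz2
    rw [h0]
    exact dvd_zero _
  have haevq : ∀ q : ℤ[X], aeval ((z : ℤ) : F) q = ((q.eval z : ℤ) : F) := by
    intro q
    have e1 : ((z : ℤ) : F) = algebraMap ℤ F z := (eq_intCast (algebraMap ℤ F) z).symm
    rw [e1, aeval_algebraMap_apply, coe_aeval_eq_eval]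
    exact eq_intCast (algebraMap ℤ F) _
  have haev : aeval ((z : ℤ) : F) (gdif v a b) = (((gdif v a b).eval z : ℤ) : F) := haevq _
  have hzR : ((z : ℤ) : F) ∉ R := by
    intro h0
    have h1 := hzero a b _ ((hR _).1 h0)
    rw [haev] at h1
    exact hfz0 (by exact_mod_cast h1)
  have hzK : ((z : ℤ) : F) ∈ (IntermediateField.adjoin ℚ (nodes ℚ F (gpolQ v))).toSubfield :=
    intCast_mem _ z
  have hord := P.ord_aeval hp (hlc a b hab) R (fun s hs => hSK s (hRS s hs)) hfR hzK hzR
  rw [haev, P.rat _ hfz0] at hord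
  have hval : padicValInt p ((gdif v a b).eval z) = 1 := by
    have h1 : 1 ≤ padicValInt p ((gdif v a b).eval z) := by
      have := (padicValInt_dvd_iff (p := p) 1 ((gdif v a b).eval z)).1 (by rwa [pow_one])
      exact this.resolve_left hfz0
    have h2 : ¬ 2 ≤ padicValInt p ((gdif v a b).eval z) := fun h3 =>
      hz2 ((padicValInt_dvd_iff (p := p) 2 ((gdif v a b).eval z)).2 (Or.inr h3))
    omega
  have hpos : ∀ s ∈ R, swRd_h70 P s = zb → 0 < P.ord (((z : ℤ) : F) - s) := by
    intro s hs hs2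
    refine P.ord_sub_pos hzO (hRO s hs) (fun h3 => hzR (h3 ▸ hs)) ?_
    rw [← swRd_eq_h70 P hzO, ← swRd_eq_h70 P (hRO s hs), hzrd, hs2]
  have hz00 : ∀ s ∈ R, s ≠ u → s ≠ w → P.ord (((z : ℤ) : F) - s) = 0 := by
    intro s hs hsu hsw
    refine P.ord_sub_eq_zero hzO (hRO s hs) ?_
    rw [← swRd_eq_h70 P hzO, ← swRd_eq_h70 P (hRO s hs), hzrd]
    intro h1
    rcases huwR s hs h1.symm with h2 | h2
    · exact hsu h2
    · exact hsw h2
  have hpairR : ({u, w} : Finset F) ⊆ R := by
    intro s hs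
    rcases Finset.mem_insert.1 hs with h1 | h1
    · rw [h1]; exact hu.1
    · rw [Finset.mem_singleton.1 h1]; exact hw.1
  have hsum : ∑ s ∈ R, P.ord (((z : ℤ) : F) - s) =
      P.ord (((z : ℤ) : F) - u) + P.ord (((z : ℤ) : F) - w) := by
    have e1 : P.ord (((z : ℤ) : F) - u) + P.ord (((z : ℤ) : F) - w) =
        ∑ s ∈ ({u, w} : Finset F), P.ord (((z : ℤ) : F) - s) :=
      (Finset.sum_pair (f := fun s => P.ord (((z : ℤ) : F) - s)) huw).symm
    rw [e1]
    refine (Finset.sum_subset hpairR fun s hs hs2 => ?_).symm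
    refine hz00 s hs ?_ ?_
    · rintro rfl
      exact hs2 (by simp)
    · rintro rfl
      exact hs2 (by simp)
  rw [hsum, hval] at hord
  have hposu := hpos u hu.1 hu.2.symm
  have hposw := hpos w hw.1 hw.2.symm
  -- an element of the inertia group exchanges `u` and `w`
  have hinert : ∀ σ : F ≃ₐ[ℚ] F, (∃ s ∈ nodes ℚ F (gpolQ v), σ s ≠ s) → P.Inert σ →
      ∀ s ∈ nodes ℚ F (gpolQ v), σ s = if s = u then w else if s = w then u else s := by
    intro σ hσne hσ
    obtain ⟨s₀, hs₀, hs₀ne⟩ := hσne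
    have hσrd : ∀ x ∈ P.O, swRd_h70 P (σ x) = swRd_h70 P x := by
      intro x hx
      obtain ⟨h1, h2⟩ := hσ x hx
      rw [swRd_eq_h70 P h1, swRd_eq_h70 P hx, h2]
    have hσroot : ∀ (c d : ι) (s : F), aeval s (gpolQ v c) = aeval s (gpolQ v d) →
        aeval (σ s) (gpolQ v c) = aeval (σ s) (gpolQ v d) := by
      intro c d s hs
      have e1 : ∀ q : ℚ[X], aeval (σ s) q = σ (aeval s q) := fun q =>
        (Polynomial.aeval_algHom_apply (σ : F →ₐ[ℚ] F) s q)
      rw [e1, e1, hs]
    have hσR : ∀ s ∈ R, σ s ∈ R := fun s hs => (hR _).2 (hσroot a b s ((hR s).1 hs))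
    have hfix : ∀ s ∈ nodes ℚ F (gpolQ v), s ≠ u → s ≠ w → σ s = s := by
      intro s hs hsu hsw
      by_cases hsR : s ∈ R
      · have ht : swRd_h70 P s ≠ zb := by
          intro h1
          rcases huwR s hsR h1 with h2 | h2
          · exact hsu h2
          · exact hsw h2
        have h1 := hct _ ht
        rw [Finset.card_le_one] at h1
        exact h1 (σ s) (Finset.mem_filter.2 ⟨hσR s hsR, (hσrd s (hSO s hs)).symm⟩) s
          (Finset.mem_filter.2 ⟨hsR, rfl⟩)
      · obtain ⟨c, d, hcd, hs2⟩ := id hs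
        have hset : ({c, d} : Set ι) ≠ {a, b} := by
          intro h1
          apply hsR
          rw [hR]
          rcases Set.pair_eq_pair_iff.1 h1 with ⟨h2, h3⟩ | ⟨h2, h3⟩
          · rw [← h2, ← h3]; exact hs2
          · rw [← h2, ← h3]; exact hs2.symm
        by_contra hcon
        have hσO : σ s ∈ P.O := (hσ s (hSO s hs)).1
        have h2 := P.red_ne_of_separable hp (f := gdif v c d) (h.sep c d hcd hset) hσO (hSO s hs)
          (hzero c d _ (hσroot c d s hs2)) (hzero c d s hs2) hcon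
        apply h2
        rw [← swRd_eq_h70 P hσO, ← swRd_eq_h70 P (hSO s hs)]
        exact hσrd s (hSO s hs)
    have hσu : σ u = u ∨ σ u = w :=
      huwR _ (hσR u hu.1) (by rw [hσrd u (hRO u hu.1)]; exact hu.2.symm)
    have hσw : σ w = u ∨ σ w = w :=
      huwR _ (hσR w hw.1) (by rw [hσrd w (hRO w hw.1)]; exact hw.2.symm)
    have hσu' : σ u = w := by
      rcases hσu with h1 | h1
      · exfalso
        have h2 : σ w = w := by
          rcases hσw with h3 | h3
          · exact absurd (σ.injective (h1.trans h3.symm)) huw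
          · exact h3
        apply hs₀ne
        by_cases h3 : s₀ = u
        · rw [h3, h1]
        · by_cases h4 : s₀ = w
          · rw [h4, h2]
          · exact hfix s₀ hs₀ h3 h4
      · exact h1
    have hσw' : σ w = u := by
      rcases hσw with h1 | h1
      · exact h1
      · exact absurd (σ.injective (hσu'.trans h1.symm)) huw
    intro s hs
    by_cases h3 : s = u
    · rw [if_pos h3, h3, hσu']
    · rw [if_neg h3]
      by_cases h4 : s = w
      · rw [if_pos h4, h4, hσw']
      · rw [if_neg h4]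
        exact hfix s hs h3 h4
  have he3 : ¬ 3 ≤ P.e := by
    intro h3
    obtain ⟨σ, τ, hσ1, hτ1, ⟨s, hs, hst⟩, hσ, hτ⟩ := hP h3
    apply hst
    rw [hinert σ hσ1 hσ s hs, hinert τ hτ1 hτ s hs]
  have hou : P.ord (((z : ℤ) : F) - u) = 1 := by
    push_cast at hord
    omega
  have how : P.ord (((z : ℤ) : F) - w) = 1 := by
    push_cast at hord
    omega
  have he2 : P.e = 2 := by
    push_cast at hord
    omega
  -- the derivative
  set lc : ℤ := (gdif v a b).leadingCoeff with hlcdef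
  have hlcF0 : (lc : F) ≠ 0 := by
    have h1 : lc ≠ 0 := by
      intro h0
      apply hlc a b hab
      rw [← hlcdef, h0]
      exact dvd_zero _
    exact_mod_cast h1
  have hlc0 : lc ≠ 0 := by exact_mod_cast hlcF0
  have hlcv : P.ord (lc : F) = 0 := by
    rw [P.rat lc hlc0, padicValInt.eq_zero_of_not_dvd (hlc a b hab)]
    simp
  set R' : Finset F := (R.erase u).erase w with hR'
  have hR'R : ∀ s ∈ R', s ∈ R ∧ s ≠ u ∧ s ≠ w := by
    intro s hs
    rw [hR', Finset.mem_erase, Finset.mem_erase] at hs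
    exact ⟨hs.2.2, hs.2.1, hs.1⟩
  set Gp : F[X] := ∏ s ∈ R', (X - C s) with hGp
  have hfact : (gdif v a b).map (algebraMap ℤ F) =
      C ((lc : ℤ) : F) * ((X - C u) * ((X - C w) * Gp)) := by
    rw [hfR, ← Finset.mul_prod_erase R _ hu.1,
      ← Finset.mul_prod_erase (R.erase u) _ (Finset.mem_erase.2 ⟨huw.symm, hw.1⟩)]
    rfl
  have hder : aeval ((z : ℤ) : F) (derivative (gdif v a b)) = (lc : F) *
      (((((z : ℤ) : F) - u) + (((z : ℤ) : F) - w)) * Gp.eval ((z : ℤ) : F) +
        (((z : ℤ) : F) - u) * (((z : ℤ) : F) - w) * (derivative Gp).eval ((z : ℤ) : F)) := by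
    rw [aeval_def, ← eval_map, ← derivative_map, hfact, derivative_C_mul, derivative_mul,
      derivative_mul]
    simp only [derivative_sub, derivative_X, derivative_C, eval_add, eval_mul, eval_sub,
      eval_C, eval_X, eval_one, eval_zero]
    ring
  have hGK : Gp.eval ((z : ℤ) : F) ∈
      (IntermediateField.adjoin ℚ (nodes ℚ F (gpolQ v))).toSubfield := by
    rw [hGp, eval_prod]
    refine prod_mem fun s hs => ?_
    rw [eval_sub, eval_X, eval_C]
    exact sub_mem hzK (hSK s (hRS s (hR'R s hs).1))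
  have hG0 : ∀ s ∈ R', ((z : ℤ) : F) - s ≠ 0 := by
    intro s hs h0
    exact hzR ((sub_eq_zero.1 h0) ▸ (hR'R s hs).1)
  have hGe : Gp.eval ((z : ℤ) : F) = ∏ s ∈ R', (((z : ℤ) : F) - s) := by
    rw [hGp, eval_prod]
    refine Finset.prod_congr rfl fun s _ => ?_
    rw [eval_sub, eval_X, eval_C]
  have hGne : Gp.eval ((z : ℤ) : F) ≠ 0 := by
    rw [hGe]
    exact Finset.prod_ne_zero_iff.2 hG0
  have hGv : P.ord (Gp.eval ((z : ℤ) : F)) = 0 := by
    rw [hGe, ord_prod_h57 P R' _ (fun s hs => sub_mem hzK (hSK s (hRS s (hR'R s hs).1))) hG0]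
    refine Finset.sum_eq_zero fun s hs => ?_
    obtain ⟨h1, h2, h3⟩ := hR'R s hs
    exact hz00 s h1 h2 h3
  have hG'O : (derivative Gp).eval ((z : ℤ) : F) ∈ P.O := by
    set GO : (P.O)[X] := ∏ s ∈ R'.attach,
      (X - C (⟨s.1, hRO s.1 (hR'R s.1 s.2).1⟩ : P.O)) with hGO
    have h1 : GO.map P.O.subtype = Gp := by
      rw [hGO, hGp, Polynomial.map_prod, ← Finset.prod_attach R' (fun s => (X - C s : F[X]))]
      refine Finset.prod_congr rfl fun s _ => ?_
      rw [Polynomial.map_sub, map_X, map_C]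
      rfl
    have h2 : (derivative Gp).eval ((z : ℤ) : F) =
        P.O.subtype ((derivative GO).eval (⟨((z : ℤ) : F), hzO⟩ : P.O)) := by
      rw [← h1, derivative_map, eval_map, eval₂_eq_eval_map]
      have h3 : ((z : ℤ) : F) = P.O.subtype ⟨((z : ℤ) : F), hzO⟩ := rfl
      conv_lhs => rw [h3]
      rw [eval_map, eval₂_at_apply]
    rw [h2]
    exact Subtype.prop _
  have hdz : (p : ℤ) ∣ (derivative (gdif v a b)).eval z := by
    have h1 : (((derivative (gdif v a b)).eval z : ℤ) : ZMod p) = 0 := by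
      have h2 : (((derivative (gdif v a b)).eval z : ℤ) : ZMod p) =
          (derivative (gred p v a b)).eval (z : ZMod p) := by
        unfold gred
        rw [derivative_map, eval_map]
        have h3 := eval₂_at_apply (p := derivative (gdif v a b)) (Int.castRingHom (ZMod p)) z
        exact h3.symm
      rw [h2, hg, derivative_mul, derivative_pow]
      simp
    exact (ZMod.intCast_zmod_eq_zero_iff_dvd _ _).1 h1
  have hfK : aeval ((z : ℤ) : F) (derivative (gdif v a b)) ∈
      (IntermediateField.adjoin ℚ (nodes ℚ F (gpolQ v))).toSubfield := by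
    rw [haevq]
    exact intCast_mem _ _
  have hfv : aeval ((z : ℤ) : F) (derivative (gdif v a b)) ≠ 0 →
      2 ≤ P.ord (aeval ((z : ℤ) : F) (derivative (gdif v a b))) := by
    rw [haevq]
    intro h0
    have h1 : (derivative (gdif v a b)).eval z ≠ 0 := by exact_mod_cast h0
    rw [P.rat _ h1, he2]
    have h2 : 1 ≤ padicValInt p ((derivative (gdif v a b)).eval z) := by
      have := (padicValInt_dvd_iff (p := p) 1 ((derivative (gdif v a b)).eval z)).1
        (by rwa [pow_one])
      exact this.resolve_left h1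
    push_cast
    omega
  have hzu : ((z : ℤ) : F) - u ≠ 0 := fun h0 => hzR ((sub_eq_zero.1 h0) ▸ hu.1)
  have hzw : ((z : ℤ) : F) - w ≠ 0 := fun h0 => hzR ((sub_eq_zero.1 h0) ▸ hw.1)
  have hzuK := sub_mem hzK (hSK u (hRS u hu.1))
  have hzwK := sub_mem hzK (hSK w (hRS w hw.1))
  have h2v : P.ord (-(2 * (((z : ℤ) : F) - u))) = 1 := by
    have h20 : (2 : F) ≠ 0 := two_ne_zero
    have h2K : (2 : F) ∈ (IntermediateField.adjoin ℚ (nodes ℚ F (gpolQ v))).toSubfield :=
      ofNat_mem _ 2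
    rw [ord_neg_h64 P (mul_mem h2K hzuK) (mul_ne_zero h20 hzu), P.isVal.mul _ h2K _ hzuK h20 hzu,
      hou]
    have h3 := P.rat 2 two_ne_zero
    have h4 : padicValInt p 2 = 0 := by
      refine padicValInt.eq_zero_of_not_dvd fun h5 => hp2 ?_
      have h6 : p ∣ 2 := by exact_mod_cast h5
      exact (Nat.prime_dvd_prime_iff_eq hp Nat.prime_two).1 h6
    rw [h4] at h3
    have h5 : (((2 : ℤ)) : F) = 2 := by norm_num
    rw [h5] at h3
    rw [h3]
    simp
  have huwv : P.ord (u - w) = 1 := by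
    have h20 : (2 : F) ≠ 0 := two_ne_zero
    have h2K : (2 : F) ∈ (IntermediateField.adjoin ℚ (nodes ℚ F (gpolQ v))).toSubfield :=
      ofNat_mem _ 2
    by_cases h0 : (((z : ℤ) : F) - u) + (((z : ℤ) : F) - w) = 0
    · have h1 : u - w = -(2 * (((z : ℤ) : F) - u)) := by linear_combination h0
      rw [h1, h2v]
    · have h1 := double_root_h64 P (intCast_mem _ lc) hlcF0 hlcv hGK hGne hGv hG'O hzuK hzu hou
        hzwK hzw how hfK hfv hder h0
      have h2 : u - w = -(2 * (((z : ℤ) : F) - u)) +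
          ((((z : ℤ) : F) - u) + (((z : ℤ) : F) - w)) := by ring
      rw [h2]
      rw [(P.ord_add (neg_mem (mul_mem h2K hzuK)) (add_mem hzuK hzwK)
        (neg_ne_zero.2 (mul_ne_zero h20 hzu)) h0 (by rw [h2v]; omega)).2, h2v]
  -- different reductions
  have hred : ∀ s ∈ nodes ℚ F (gpolQ v), ∀ s' ∈ nodes ℚ F (gpolQ v), s ≠ s' →
      swRd_h70 P s = swRd_h70 P s' → s ∈ ({u, w} : Set F) ∧ s' ∈ ({u, w} : Set F) := by
    intro s hs s' hs' hss hrr
    obtain ⟨c, d, hcd, hs2⟩ := id hs
    obtain ⟨c', d', hcd', hs2'⟩ := id hs'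
    have hrr' : P.red ⟨s, hSO s hs⟩ = P.red ⟨s', hSO s' hs'⟩ := by
      rw [← swRd_eq_h70 P (hSO s hs), ← swRd_eq_h70 P (hSO s' hs'), hrr]
    by_cases hset : ({c, d} : Set ι) = {c', d'}
    · have hs3' : aeval s' (gpolQ v c) = aeval s' (gpolQ v d) := by
        rcases Set.pair_eq_pair_iff.1 hset with ⟨h2, h3⟩ | ⟨h2, h3⟩
        · rw [h2, h3]; exact hs2'
        · rw [h2, h3]; exact hs2'.symm
      by_cases hset2 : ({c, d} : Set ι) = {a, b}
      · have hin : ∀ t : F, aeval t (gpolQ v c) = aeval t (gpolQ v d) → t ∈ R := by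
          intro t ht
          rw [hR]
          rcases Set.pair_eq_pair_iff.1 hset2 with ⟨h2, h3⟩ | ⟨h2, h3⟩
          · rw [← h2, ← h3]; exact ht
          · rw [← h2, ← h3]; exact ht.symm
        have hsR := hin s hs2
        have hsR' := hin s' hs3'
        by_cases ht : swRd_h70 P s = zb
        · have h1 := huwR s hsR ht
          have h2 := huwR s' hsR' (hrr ▸ ht)
          exact ⟨h1, h2⟩
        · exfalso
          have h1 := hct _ ht
          rw [Finset.card_le_one] at h1
          exact hss (h1 s (Finset.mem_filter.2 ⟨hsR, rfl⟩) s' (Finset.mem_filter.2 ⟨hsR', hrr⟩))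
      · exact absurd hrr' (P.red_ne_of_separable hp (f := gdif v c d) (h.sep c d hcd hset2)
          (hSO s hs) (hSO s' hs') (hzero c d s hs2) (hzero c d s' hs3') hss)
    · exact absurd hrr' (P.red_ne_of_isCoprime hp (h.cop c d c' d' hcd hcd' hset)
          (hSO s hs) (hSO s' hs') (hzero c d s hs2) (hzero c' d' s' hs2'))
  refine ⟨P.ord, u, w, huw, (hR u).1 hu.1, (hR w).1 hw.1, P.isVal, ⟨?_, ?_⟩⟩
  · intro s hs s' hs' hss
    by_cases hcond : s ∈ ({u, w} : Set F) ∧ s' ∈ ({u, w} : Set F)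
    · rw [if_pos hcond]
      rcases hcond with ⟨h1 | h1, h2 | h2⟩
      · exact absurd (h1.trans h2.symm) hss
      · have h2' : s' = w := h2
        rw [h1, h2', huwv]
      · have h1' : s = w := h1
        rw [h1', h2, ← neg_sub u w, ord_neg_h64 P (sub_mem (hSK u (hRS u hu.1)) (hSK w (hRS w hw.1)))
          (sub_ne_zero.2 huw), huwv]
      · have h1' : s = w := h1
        have h2' : s' = w := h2
        exact absurd (h1'.trans h2'.symm) hss
    · rw [if_neg hcond]
      refine P.ord_sub_eq_zero (hSO s hs) (hSO s' hs') ?_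
      rw [← swRd_eq_h70 P (hSO s hs), ← swRd_eq_h70 P (hSO s' hs')]
      exact fun h1 => hcond (hred s hs s' hs' hss h1)
  · intro i j hij
    have h1 : algebraMap ℚ F (gpolQ v i - gpolQ v j).leadingCoeff =
        (((gdif v i j).leadingCoeff : ℤ) : F) := by
      rw [← gdif_map_rat, leadingCoeff_map_of_injective (Int.castRingHom ℚ).injective_int]
      simp
    have h2 : (gdif v i j).leadingCoeff ≠ 0 := by
      intro h0
      apply hlc i j hij
      rw [h0]
      exact dvd_zero _
    rw [h1, P.rat _ h2, padicValInt.eq_zero_of_not_dvd (hlc i j hij)]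
    simp

end Pool.Agent.Lib.MP_89bcae_ag
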