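import Mathlib
import Pool.Agent.Lib.MP_89bcae_ag.Gr.V01
import Pool.Agent.Lib.MP_89bcae_ag.Gph.Roots

/-!
# The valuation at a prime of type K
-/

open Polynomial

open scoped Classical

namespace Pool.Agent.Lib.MP_89bcae_ag

open Superelliptic

variable {ι : Type} [Fintype ι] [LinearOrder ι] {n : ℕ} {F : Type} [Field F] [Algebra ℚ F]
  [IsAlgClosure ℚ F]

omit [Fintype ι] [LinearOrder ι] [IsAlgClosure ℚ F] in
theorem eq_of_red_h40 {O κ : Type*} [CommRing O] [IsDomain O] [Field κ] (q : O →+* κ) {G : O[X]}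
    (h1 : q (G.coeff 1) ≠ 0) {x y : O} (hx : G.eval x = 0) (hy : G.eval y = 0)
    (hqx : q x = 0) (hqy : q y = 0) : x = y := by
  by_contra hne
  obtain ⟨H, hH⟩ := dvd_iff_isRoot.mpr hx
  rw [hH, eval_mul, eval_sub, eval_X, eval_C] at hy
  have h2 : H.IsRoot y := (mul_eq_zero.mp hy).resolve_left fun h => hne (sub_eq_zero.mp h).symm
  obtain ⟨H', hH'⟩ := dvd_iff_isRoot.mpr h2
  apply h1
  rw [← coeff_map, hH, hH', Polynomial.map_mul, Polynomial.map_mul, Polynomial.map_sub,
    Polynomial.map_sub, map_X, map_C, map_C, hqx, hqy, C_0, sub_zero, coeff_X_mul,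
    mul_coeff_zero, coeff_X_zero, zero_mul]

variable {p : ℕ} {K₀ : Subfield F} (P : Place p K₀)

theorem ord_neg_h40 {x : F} (hx : x ∈ K₀) (hx0 : x ≠ 0) : P.ord (-x) = P.ord x := by
  have h := P.isVal.mul (-1) (neg_mem (one_mem _)) x hx (neg_ne_zero.mpr one_ne_zero) hx0
  rw [P.isVal.neg_one, zero_add, neg_one_mul] at h
  exact h

theorem ord_inv_h40 {x : F} (hx : x ∈ K₀) (hx0 : x ≠ 0) : P.ord x⁻¹ = -P.ord x := by
  have h1 := P.isVal.mul x hx _ (inv_mem hx) hx0 (inv_ne_zero hx0)
  rw [mul_inv_cancel₀ hx0, ord_one_h57 P] at h1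
  omega

theorem reverse_zero_h40 {f : ℤ[X]} {s : F} (hs0 : s ≠ 0) (h0 : aeval s f = 0) :
    aeval s⁻¹ (reverse f) = 0 := by
  letI : Invertible s := invertibleOfNonzero hs0
  have h2 := (eval₂_reverse_eq_zero_iff (algebraMap ℤ F) s f).2 h0
  rw [invOf_eq_inv] at h2
  exact h2

theorem red_int_h40 (hp : p.Prime) (z : ℤ) (hz : ¬ (p : ℤ) ∣ z) :
    P.redp hp (Int.castRingHom (ZMod p) z) ≠ 0 := by
  haveI := P.charP hp
  have h6 : ((P.redp hp).comp (Int.castRingHom (ZMod p))) = Int.castRingHom P.κ :=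
    RingHom.ext_int _ _
  intro h
  have h7 : Int.castRingHom P.κ z = 0 := by
    rw [← h6]
    exact h
  exact hz ((CharP.intCast_eq_zero_iff P.κ p z).1 h7)

/-- The value of a root which is not integral, if the second coefficient is prime to `p`. -/
theorem ord_root_h40 (hp : p.Prime) {f : ℤ[X]} (hf0 : f ≠ 0) (hf1 : ¬ (p : ℤ) ∣ f.nextCoeff) {s : F}
    (hs : s ∈ K₀) (hO : s ∉ P.O) (h0 : aeval s f = 0) :
    P.ord s = -P.ord ((f.leadingCoeff : ℤ) : F) := by
  haveI : CharZero F := algebraRat.charZero F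
  obtain ⟨hs0, hm, hr⟩ := P.inv_h64 hs hO
  have h1 := reverse_zero_h40 hs0 h0
  rw [← divX_mul_X_add (reverse f), coeff_zero_reverse, map_add, map_mul, aeval_X, aeval_C] at h1
  obtain ⟨h, h3⟩ := P.red_aeval_h64 hp (divX (reverse f)) hm
  rw [hr, ← coeff_zero_eq_eval_zero, coeff_map, coeff_map, coeff_divX, zero_add,
    coeff_one_reverse] at h3
  set y : F := aeval s⁻¹ (divX (reverse f)) with hy
  have hry : P.red ⟨y, h⟩ ≠ 0 := by
    rw [h3]
    exact red_int_h40 P hp _ hf1
  have hy0 : y ≠ 0 := by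
    intro h4
    apply hry
    have h5 : (⟨y, h⟩ : P.O) = 0 := Subtype.ext h4
    rw [h5, map_zero]
  have hyK := ((P.mem_O _).1 h).1
  have hoy : P.ord y = 0 := by
    have h4 : ¬ 0 < P.ord y := by
      rw [← P.red_eq_zero _ h hy0]
      exact hry
    rcases ((P.mem_O _).1 h).2 with h5 | h5
    · exact absurd h5 hy0
    · omega
  have hsi : s⁻¹ ∈ K₀ := inv_mem hs
  have hsi0 : s⁻¹ ≠ 0 := inv_ne_zero hs0
  have h5 : ((f.leadingCoeff : ℤ) : F) = -(y * s⁻¹) := by
    rw [eq_intCast] at h1
    linear_combination h1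
  rw [h5, ord_neg_h40 P (mul_mem hyK hsi) (mul_ne_zero hy0 hsi0), P.isVal.mul _ hyK _ hsi hy0 hsi0,
    hoy, ord_inv_h40 P hs hs0]
  ring

/-- At most one root is not integral, if the second coefficient is prime to `p`. -/
theorem unique_root_h40 (hp : p.Prime) {f : ℤ[X]} (hf1 : ¬ (p : ℤ) ∣ f.nextCoeff) {s s' : F}
    (hs : s ∈ K₀) (hO : s ∉ P.O) (h0 : aeval s f = 0) (hs' : s' ∈ K₀) (hO' : s' ∉ P.O)
    (h0' : aeval s' f = 0) : s = s' := by
  obtain ⟨hs0, hm, hr⟩ := P.inv_h64 hs hO
  obtain ⟨hs0', hm', hr'⟩ := P.inv_h64 hs' hO'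
  have h1 : ((reverse f).map (Int.castRingHom P.O)).eval ⟨s⁻¹, hm⟩ = 0 := by
    apply Subtype.ext
    rw [eval_sub_h57 P _ hm, reverse_zero_h40 hs0 h0]
    rfl
  have h2 : ((reverse f).map (Int.castRingHom P.O)).eval ⟨s'⁻¹, hm'⟩ = 0 := by
    apply Subtype.ext
    rw [eval_sub_h57 P _ hm', reverse_zero_h40 hs0' h0']
    rfl
  have h3 : P.red (((reverse f).map (Int.castRingHom P.O)).coeff 1) ≠ 0 := by
    rw [coeff_map, coeff_one_reverse]
    have e : P.red.comp (Int.castRingHom P.O) = (P.redp hp).comp (Int.castRingHom (ZMod p)) :=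
      RingHom.ext_int _ _
    have e2 : P.red (Int.castRingHom P.O f.nextCoeff) =
        P.redp hp (Int.castRingHom (ZMod p) f.nextCoeff) := RingHom.congr_fun e _
    rw [e2]
    exact red_int_h40 P hp _ hf1
  have h4 := eq_of_red_h40 P.red h3 h1 h2 hr hr'
  exact inv_injective (congrArg Subtype.val h4)

/-- If all the roots are integral and `p` divides the leading coefficient, the reduction is zero. -/
theorem map_zero_h40 (hp : p.Prime) {f : ℤ[X]} (hf : (p : ℤ) ∣ f.leadingCoeff) (R : Finset F)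
    (hRO : ∀ s ∈ R, s ∈ P.O)
    (hfR : f.map (algebraMap ℤ F) = C (algebraMap ℤ F f.leadingCoeff) * ∏ s ∈ R, (X - C s)) :
    f.map (Int.castRingHom (ZMod p)) = 0 := by
  have h1 : f.map (Int.castRingHom P.O) =
      C (Int.castRingHom P.O f.leadingCoeff) *
        ∏ s ∈ R.attach, (X - C (⟨s.1, hRO s.1 s.2⟩ : P.O)) := by
    apply Polynomial.map_injective P.O.subtype Subtype.val_injective
    rw [Polynomial.map_map, Polynomial.map_mul, Polynomial.map_prod, map_C]
    have e1 : P.O.subtype.comp (Int.castRingHom P.O) = algebraMap ℤ F := RingHom.ext_int _ _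
    rw [e1, hfR]
    have e2 : P.O.subtype ((Int.castRingHom P.O) f.leadingCoeff) =
        algebraMap ℤ F f.leadingCoeff := by
      rw [← e1]
      rfl
    rw [e2, ← Finset.prod_attach]
    congr 1
    refine Finset.prod_congr rfl fun s _ => ?_
    rw [Polynomial.map_sub, map_X, map_C]
    rfl
  haveI := P.charP hp
  haveI : Fact p.Prime := ⟨hp⟩
  have h2 := congrArg (Polynomial.map P.red) h1
  rw [Polynomial.map_map, Polynomial.map_mul, map_C] at h2
  have e1 : P.red.comp (Int.castRingHom P.O) =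
      (P.redp hp).comp (Int.castRingHom (ZMod p)) := RingHom.ext_int _ _
  have e3 : P.red (Int.castRingHom P.O f.leadingCoeff) = 0 := by
    have e2 : P.red (Int.castRingHom P.O f.leadingCoeff) =
        P.redp hp (Int.castRingHom (ZMod p) f.leadingCoeff) := RingHom.congr_fun e1 _
    have e4 : Int.castRingHom (ZMod p) f.leadingCoeff = 0 :=
      (ZMod.intCast_zmod_eq_zero_iff_dvd _ _).2 hf
    rw [e2, e4, map_zero]
  rw [e1, e3, C_0, zero_mul, ← Polynomial.map_map] at h2
  exact (Polynomial.map_eq_zero (P.redp hp)).1 h2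

/-- **The valuation at a prime of type K.** Proof: `P` from `exists_place_three` for `S` the set of the nodes
(`nodes_stable`). The nodes of the other pairs are in `P.O` (`Place.root_mem`). Let
`f = gdif v a b = c_n X ^ n + c_{n-1} X ^ (n-1) + ...`, `p` divides `c_n` exactly once, and not `c_{n-1}`
(`h.deg`, `h.dvd`). (1) A root `s ∉ P.O` of `f`: `s⁻¹ ∈ P.O` has positive order (`Place.inv_h64`), and
`c_n s = - c_{n-1} - c_{n-2} s⁻¹ - ...` has order `0`, so `P.ord s = - P.ord c_n = - P.e`. (2) At most one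
root is not in `P.O`: the inverses of two such roots `s`, `s'` are roots of the reverse polynomial
`g = c_n + c_{n-1} X + ... + c_0 X ^ n`, whose derivative at `0` is a unit:
`0 = g(x) - g(x') = (x - x') (c_{n-1} + element of the maximal ideal)`, so `x = x'`. (3) At least one: if all
roots are in `P.O`, then in `f = c_n ∏ (X - s)` all coefficients have positive order or are zero,
contradiction for `c_{n-1}`. So there is exactly one such root `u`. (4) Two different nodes in `P.O` have
different reductions: `h.sep` (`Place.red_ne_of_separable`) and `h.cop` (`Place.red_ne_of_isCoprime`).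
(5) `P.e = 1`: otherwise some `σ` in the inertia group moves a node; it permutes the nodes of each pair, fixes
all nodes in `P.O` by (4), and so it fixes `u` (the only root of `f` which is left), contradiction. (6) The
values: `P.ord (s - s') = 0` for nodes `s ≠ s'` in `P.O` (`Place.ord_sub_eq_zero`), `P.ord (u - s) = -1`
(`u - s = u (1 - s u⁻¹)`); `P.ord c_n = 1` and the other leading coefficients are prime to `p`. -/
theorem exists_val_typeK (v : ι × Fin (n + 1) → ℤ) {p : ℕ} (hp : p.Prime) {a b : ι}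
    (hab : a ≠ b) (h : TypeK p a b v) (hn : 2 ≤ n) (hsep : (gpolQ v a - gpolQ v b).Separable) :
    ∃ (ν : F → ℤ) (u : F), aeval u (gpolQ v a) = aeval u (gpolQ v b) ∧
      IsVal (IntermediateField.adjoin ℚ (nodes ℚ F (gpolQ v))).toSubfield ν ∧
      DifV ν (gpolQ v) (fun s s' => if s = u ∨ s' = u then -1 else 0)
        (fun c d => if ({c, d} : Set ι) = {a, b} then 1 else 0) := by
  haveI : Fact p.Prime := ⟨hp⟩
  haveI : CharZero F := algebraRat.charZero F
  -- the leading coefficients
  have hlead : ∀ c d, c ≠ d → v (c, Fin.last n) ≠ v (d, Fin.last n) := by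
    intro c d hcd he
    by_cases hs : ({c, d} : Set ι) = {a, b}
    · apply h.ndvd
      rcases Set.pair_eq_pair_iff.1 hs with ⟨h2, h3⟩ | ⟨h2, h3⟩
      · rw [← h2, ← h3, he, sub_self]
        exact dvd_zero _
      · rw [← h2, ← h3, he, sub_self]
        exact dvd_zero _
    · apply h.lead c d hcd hs
      rw [he, sub_self]
      exact dvd_zero _
  have hlc : ∀ c d, c ≠ d → ({c, d} : Set ι) ≠ {a, b} →
      ¬ (p : ℤ) ∣ (gdif v c d).leadingCoeff := by
    intro c d hcd hs
    rw [gdif_leadingCoeff (hlead c d hcd)]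
    exact h.lead c d hcd hs
  have hg0 : ∀ c d, c ≠ d → gdif v c d ≠ 0 := by
    intro c d hcd h0
    have h1 := gdif_leadingCoeff (hlead c d hcd)
    rw [h0, leadingCoeff_zero] at h1
    exact hlead c d hcd (sub_eq_zero.1 h1.symm)
  have hne : ∀ c d, c ≠ d → gpolQ v c ≠ gpolQ v d := by
    intro c d hcd he
    have h1 := gdif_map_rat v c d
    rw [he, sub_self] at h1
    exact hg0 c d hcd ((Polynomial.map_eq_zero_iff (Int.castRingHom ℚ).injective_int).1 h1)
  obtain ⟨P, hP, -⟩ := exists_place_three (F := F) hp (nodes ℚ F (gpolQ v)) (nodes_gpolQ_finite hne)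
    (nodes_stable (gpolQ v))
  have hzero : ∀ (c d : ι) (s : F), aeval s (gpolQ v c) = aeval s (gpolQ v d) →
      aeval s (gdif v c d) = 0 := by
    intro c d s hs
    rw [aeval_gdif, hs, sub_self]
  have hSK : ∀ s ∈ nodes ℚ F (gpolQ v),
      s ∈ (IntermediateField.adjoin ℚ (nodes ℚ F (gpolQ v))).toSubfield := fun s hs =>
    IntermediateField.subset_adjoin ℚ _ hs
  -- the second coefficient
  have hnd : (gdif v a b).natDegree = n := gdif_natDegree (hlead a b hab)
  have hnc : ¬ (p : ℤ) ∣ (gdif v a b).nextCoeff := by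
    intro hd
    rw [nextCoeff_of_natDegree_pos (by rw [hnd]; omega), hnd] at hd
    have h1 : (gred p v a b).coeff (n - 1) = 0 := by
      unfold gred
      rw [coeff_map]
      exact (ZMod.intCast_zmod_eq_zero_iff_dvd _ _).2 hd
    have h2 : (gred p v a b).natDegree = n - 1 := by
      have := h.deg
      omega
    rw [← h2, coeff_natDegree, leadingCoeff_eq_zero] at h1
    rw [h1, natDegree_zero] at h2
    omega
  have hlcab : (gdif v a b).leadingCoeff = v (a, Fin.last n) - v (b, Fin.last n) :=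
    gdif_leadingCoeff (hlead a b hab)
  obtain ⟨R, hR, hfR⟩ := exists_roots (F := F) hsep
  have hRS : ∀ s ∈ R, s ∈ nodes ℚ F (gpolQ v) := fun s hs => ⟨a, b, hab, (hR s).1 hs⟩
  -- the exceptional root
  obtain ⟨u, huR, huO⟩ : ∃ u ∈ R, u ∉ P.O := by
    by_contra hcon
    push Not at hcon
    have h1 := map_zero_h40 P hp (f := gdif v a b) (by rw [hlcab]; exact h.dvd) R hcon hfR
    have h2 : (gred p v a b).Separable := h.sep a b hab
    unfold gred at h2
    rw [h1] at h2
    exact not_separable_zero h2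
  have hu0 : aeval u (gpolQ v a) = aeval u (gpolQ v b) := (hR u).1 huR
  have huK := hSK u (hRS u huR)
  -- the pair of a node
  have hpair : ∀ (c d : ι) (s : F), ({c, d} : Set ι) = {a, b} →
      aeval s (gpolQ v c) = aeval s (gpolQ v d) → aeval s (gpolQ v a) = aeval s (gpolQ v b) := by
    intro c d s hs h1
    rcases Set.pair_eq_pair_iff.1 hs with ⟨h2, h3⟩ | ⟨h2, h3⟩
    · rw [← h2, ← h3]; exact h1
    · rw [← h2, ← h3]; exact h1.symm
  have huniq : ∀ s ∈ nodes ℚ F (gpolQ v), s ∉ P.O → s = u := by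
    intro s hs hsO
    obtain ⟨c, d, hcd, hs2⟩ := id hs
    by_cases hset : ({c, d} : Set ι) = {a, b}
    · exact unique_root_h40 P hp hnc (hSK s hs) hsO (hzero a b s (hpair c d s hset hs2)) huK huO
        (hzero a b u hu0)
    · exact absurd (P.root_mem hp (hlc c d hcd hset) (hSK s hs) (hzero c d s hs2)) hsO
  have hSO : ∀ s ∈ nodes ℚ F (gpolQ v), s ≠ u → s ∈ P.O := by
    intro s hs hsu
    by_contra hcon
    exact hsu (huniq s hs hcon)
  -- reductions
  have hred : ∀ s ∈ nodes ℚ F (gpolQ v), ∀ s' ∈ nodes ℚ F (gpolQ v), s ≠ s' →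
      ∀ (hs : s ∈ P.O) (hs' : s' ∈ P.O), P.red ⟨s, hs⟩ ≠ P.red ⟨s', hs'⟩ := by
    rintro s ⟨c, d, hcd, h1⟩ s' ⟨c', d', hcd', h1'⟩ hss hs hs'
    by_cases hset : ({c, d} : Set ι) = {c', d'}
    · refine P.red_ne_of_separable hp (f := gdif v c d) (h.sep c d hcd) hs hs' (hzero c d s h1)
        (hzero c d s' ?_) hss
      rcases Set.pair_eq_pair_iff.1 hset with ⟨h2, h3⟩ | ⟨h2, h3⟩
      · rw [h2, h3]; exact h1'
      · rw [h2, h3]; exact h1'.symm
    · exact P.red_ne_of_isCoprime hp (f := gdif v c d) (g := gdif v c' d')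
        (h.cop c d c' d' hcd hcd' hset) hs hs' (hzero c d s h1) (hzero c' d' s' h1')
  -- the ramification index
  have he : P.e = 1 := by
    by_contra hcon
    have he2 : 2 ≤ P.e := by
      have := P.e_pos
      omega
    obtain ⟨σ, ⟨s₀, hs₀, hs₀ne⟩, hσ⟩ := hP he2
    have hstab := nodes_stable (gpolQ v) σ
    have hfix : ∀ s ∈ nodes ℚ F (gpolQ v), s ∈ P.O → σ s = s := by
      intro s hs hsO
      obtain ⟨h1, h2⟩ := hσ s hsO
      by_contra h3
      exact hred (σ s) (hstab s hs) s hs h3 h1 hsO h2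
    have hσu : σ u = u := by
      have h1 := hstab u (hRS u huR)
      by_cases h2 : σ u ∈ P.O
      · have h3 := hfix (σ u) h1 h2
        exact σ.injective h3
      · exact huniq _ h1 h2
    apply hs₀ne
    by_cases h1 : s₀ ∈ P.O
    · exact hfix s₀ hs₀ h1
    · rw [huniq s₀ hs₀ h1]
      exact hσu
  -- the values
  have hval : padicValInt p (v (a, Fin.last n) - v (b, Fin.last n)) = 1 := by
    have h0 : v (a, Fin.last n) - v (b, Fin.last n) ≠ 0 := sub_ne_zero.2 (hlead a b hab)
    have h1 : 1 ≤ padicValInt p (v (a, Fin.last n) - v (b, Fin.last n)) := by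
      have := (padicValInt_dvd_iff (p := p) 1 (v (a, Fin.last n) - v (b, Fin.last n))).1
        (by rw [pow_one]; exact h.dvd)
      exact this.resolve_left h0
    have h2 : ¬ 2 ≤ padicValInt p (v (a, Fin.last n) - v (b, Fin.last n)) := fun h3 =>
      h.ndvd ((padicValInt_dvd_iff (p := p) 2 _).2 (Or.inr h3))
    omega
  have hordab : P.ord (((v (a, Fin.last n) - v (b, Fin.last n) : ℤ)) : F) = 1 := by
    rw [P.rat _ (sub_ne_zero.2 (hlead a b hab)), hval, he]
    rfl
  have hordu : P.ord u = -1 := by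
    rw [ord_root_h40 P hp (hg0 a b hab) hnc huK huO (hzero a b u hu0), hlcab, hordab]
  have hu_ne : u ≠ 0 := by
    intro h0
    apply huO
    rw [h0]
    exact zero_mem _
  have hus : ∀ s ∈ nodes ℚ F (gpolQ v), s ≠ u → P.ord (u - s) = -1 := by
    intro s hs hsu
    have hsO := hSO s hs hsu
    rcases ((P.mem_O s).1 hsO).2 with h0 | h0
    · rw [h0, sub_zero]
      exact hordu
    · by_cases hs0 : s = 0
      · rw [hs0, sub_zero]
        exact hordu
      · have h1 := ord_neg_h40 P (hSK s hs) hs0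
        have h2 := (P.ord_add huK (neg_mem (hSK s hs)) hu_ne (neg_ne_zero.2 hs0)
          (by rw [h1, hordu]; omega)).2
        rw [← sub_eq_add_neg, hordu] at h2
        exact h2
  refine ⟨P.ord, u, hu0, P.isVal, ?_, ?_⟩
  · intro s hs s' hs' hss
    show P.ord (s - s') = if s = u ∨ s' = u then -1 else 0
    by_cases h1 : s = u
    · rw [if_pos (Or.inl h1), h1]
      exact hus s' hs' fun h2 => hss (h1.trans h2.symm)
    · by_cases h2 : s' = u
      · rw [if_pos (Or.inr h2), h2, ← neg_sub u s, ord_neg_h40 P (sub_mem huK (hSK s hs))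
          (sub_ne_zero.2 fun h3 => h1 h3.symm)]
        exact hus s hs h1
      · rw [if_neg (by tauto)]
        exact P.ord_sub_eq_zero (hSO s hs h1) (hSO s' hs' h2)
          (hred s hs s' hs' hss (hSO s hs h1) (hSO s' hs' h2))
  · intro i j hij
    show P.ord (algebraMap ℚ F (gpolQ v i - gpolQ v j).leadingCoeff) =
      if ({i, j} : Set ι) = {a, b} then 1 else 0
    have h1 : algebraMap ℚ F (gpolQ v i - gpolQ v j).leadingCoeff =
        (((v (i, Fin.last n) - v (j, Fin.last n) : ℤ)) : F) := by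
      rw [← gdif_map_rat, leadingCoeff_map_of_injective (Int.castRingHom ℚ).injective_int,
        gdif_leadingCoeff (hlead i j hij)]
      rw [eq_intCast, map_intCast]
    rw [h1]
    by_cases hset : ({i, j} : Set ι) = {a, b}
    · rw [if_pos hset]
      rcases Set.pair_eq_pair_iff.1 hset with ⟨h2, h3⟩ | ⟨h2, h3⟩
      · rw [h2, h3]
        exact hordab
      · rw [h2, h3]
        have h4 : (((v (b, Fin.last n) - v (a, Fin.last n) : ℤ)) : F) =
            -(((v (a, Fin.last n) - v (b, Fin.last n) : ℤ)) : F) := by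
          push_cast
          ring
        rw [h4, ord_neg_h40 P (intCast_mem _ _)
          (Int.cast_ne_zero.2 (sub_ne_zero.2 (hlead a b hab)))]
        exact hordab
    · rw [if_neg hset, P.rat _ (sub_ne_zero.2 (hlead i j hij)),
        padicValInt.eq_zero_of_not_dvd (h.lead i j hij hset)]
      simp

end Pool.Agent.Lib.MP_89bcae_ag
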