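import Mathlib
import Pool.Agent.Lib.MP_89bcae_ag.Gr.V02
import Pool.Agent.Lib.MP_89bcae_ag.Gr.V03
import Pool.Agent.Lib.MP_89bcae_ag.Gph.Ind

/-!
# The homomorphisms of types B, D, K at all the nodes
-/

open Polynomial

open scoped Classical

namespace Pool.Agent.Lib.MP_89bcae_ag

open Superelliptic

variable {ι : Type} [Fintype ι] [LinearOrder ι] {n : ℕ} {F : Type} [Field F] [Algebra ℚ F]

/-- Conjugation. (As `TripleV.conj`, `Gph/Ind.lean`: `σ` permutes the nodes (`nodes_stable`) and fixes the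
leading coefficients; `IsVal.conj`.) -/
theorem DifV.conj {A : Type*} [AddCommGroup A] {α : ι → ℚ[X]} (σ : F ≃ₐ[ℚ] F) {ν : F → A}
    {h : F → F → A} {b : ι → ι → A} (H : DifV ν α h b) :
    DifV (fun x => ν (σ.symm x)) α (fun s s' => h (σ.symm s) (σ.symm s')) b := by
  have hnode : ∀ s ∈ nodes ℚ F α, σ.symm s ∈ nodes ℚ F α := nodes_stable α σ.symm
  refine ⟨fun s hs s' hs' hne => ?_, fun a c hac => ?_⟩
  · show ν (σ.symm (s - s')) = _
    rw [map_sub, H.dif _ (hnode s hs) _ (hnode s' hs') (by simpa using hne)]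
  · show ν (σ.symm (algebraMap ℚ F (α a - α c).leadingCoeff)) = _
    rw [AlgEquiv.commutes, H.lead a c hac]

variable [IsAlgClosure ℚ F]

theorem isVal_prod_h66 {A : Type*} [AddCommGroup A] {K₀ : Subfield F}
    {ν₀ : F → A} (h₀ : IsVal K₀ ν₀) {τ : Type*} (R : Finset τ) (f : τ → F)
    (hK : ∀ t ∈ R, f t ∈ K₀) (h0 : ∀ t ∈ R, f t ≠ 0) :
    ν₀ (∏ t ∈ R, f t) = ∑ t ∈ R, ν₀ (f t) := by
  induction R using Finset.induction_on with
  | empty => rw [Finset.prod_empty, Finset.sum_empty, isVal_one_h65 h₀]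
  | insert t R ht ih =>
    rw [Finset.prod_insert ht, Finset.sum_insert ht, h₀.mul, ih]
    · exact fun u hu => hK u (Finset.mem_insert_of_mem hu)
    · exact fun u hu => h0 u (Finset.mem_insert_of_mem hu)
    · exact hK t (Finset.mem_insert_self t R)
    · exact prod_mem fun u hu => hK u (Finset.mem_insert_of_mem hu)
    · exact h0 t (Finset.mem_insert_self t R)
    · exact Finset.prod_ne_zero_iff.2 fun u hu => h0 u (Finset.mem_insert_of_mem hu)

theorem leadingCoeff_h66 (v : ι × Fin (n + 1) → ℤ) (a b : ι) :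
    algebraMap ℚ F (gpolQ v a - gpolQ v b).leadingCoeff =
      algebraMap ℤ F (gdif v a b).leadingCoeff := by
  rw [← gdif_map_rat, leadingCoeff_map_of_injective (RingHom.injective_int (Int.castRingHom ℚ))]
  simp

/-- Type B. Proof: `exists_val_good` gives `ν` with `TripleV ν (gpolQ v) 1 i j l r r' r''`; `dif` is the
statement. The leading coefficient of `α_a - α_b`: take a root `s` (`n ≥ 1`); by `der`,
`0 = ν((α_a - α_b)' s) = ν(lc) + ∑_{s' ≠ s} ν(s - s')` over the other roots `s'` of `α_a - α_b`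
(`exists_roots` gives the factorisation), and `ν(s - s') = 0` because at most one of `r, r', r''` is a root
of `α_a - α_b` (`no_common_root_h30`). -/
theorem exists_val_B {ℓ : ℕ} (hℓ : ℓ.Prime) {v : ι × Fin (n + 1) → ℤ} (h : GoodH v) (hn : 1 ≤ n)
    {i j l : ι} (hij : i ≠ j) (hjl : j ≠ l) (hil : i ≠ l) (r r' r'' : F)
    (hr : aeval r (gpolQ v i) = aeval r (gpolQ v j))
    (hr' : aeval r' (gpolQ v j) = aeval r' (gpolQ v l))
    (hr'' : aeval r'' (gpolQ v i) = aeval r'' (gpolQ v l)) :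
    ∃ ν : F → ZMod ℓ, IsVal (IntermediateField.adjoin ℚ (nodes ℚ F (gpolQ v))).toSubfield ν ∧
      DifV ν (gpolQ v) (fun s s' => if s ∈ ({r, r', r''} : Set F) ∧ s' ∈ ({r, r', r''} : Set F)
        then 1 else 0) (fun _ _ => 0) := by
  obtain ⟨ν, hν, T⟩ := exists_val_good hℓ h.good hij hjl hil r r' r'' hr hr' hr''
  refine ⟨ν, hν, fun s hs s' hs' hne => T.dif s hs s' hs' hne, fun a b hab => ?_⟩
  have hG := h.good
  have h12 : ({i, j} : Set ι) ≠ {j, l} := by
    intro hcon
    rw [Set.pair_eq_pair_iff] at hcon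
    rcases hcon with ⟨h1, _⟩ | ⟨h1, _⟩
    · exact hij h1
    · exact hil h1
  have h13 : ({i, j} : Set ι) ≠ {i, l} := by
    intro hcon
    rw [Set.pair_eq_pair_iff] at hcon
    rcases hcon with ⟨_, h1⟩ | ⟨h1, _⟩
    · exact hjl h1
    · exact hil h1
  have h23 : ({j, l} : Set ι) ≠ {i, l} := by
    intro hcon
    rw [Set.pair_eq_pair_iff] at hcon
    rcases hcon with ⟨h1, _⟩ | ⟨h1, _⟩
    · exact hij h1.symm
    · exact hjl h1
  have key : ∀ x ∈ ({r, r', r''} : Set F), aeval x (gpolQ v a) = aeval x (gpolQ v b) →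
      (({a, b} : Set ι) = {i, j} ∧ x = r) ∨ (({a, b} : Set ι) = {j, l} ∧ x = r') ∨
        (({a, b} : Set ι) = {i, l} ∧ x = r'') := by
    intro x hx hxa
    simp only [Set.mem_insert_iff, Set.mem_singleton_iff] at hx
    rcases hx with rfl | rfl | rfl
    · refine Or.inl ⟨by_contra fun hcon => ?_, rfl⟩
      exact no_common_root_h30 hG hab hij hcon hxa hr
    · refine Or.inr (Or.inl ⟨by_contra fun hcon => ?_, rfl⟩)
      exact no_common_root_h30 hG hab hjl hcon hxa hr'
    · refine Or.inr (Or.inr ⟨by_contra fun hcon => ?_, rfl⟩)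
      exact no_common_root_h30 hG hab hil hcon hxa hr''
  have hcharz : CharZero F := algebraRat.charZero F
  obtain ⟨p, hp, hI⟩ := hG.typeI a b hab
  have hsep := separable_of_typeI v hp hI
  obtain ⟨R, hR, hfR⟩ := exists_roots (F := F) hsep
  have hinj : Function.Injective (algebraMap ℤ F) := RingHom.injective_int _
  have hf0 : gdif v a b ≠ 0 := by
    intro hcon
    have := hsep.ne_zero
    rw [← gdif_map_rat, hcon, Polynomial.map_zero] at this
    exact this rfl
  have hlc0 : algebraMap ℤ F (gdif v a b).leadingCoeff ≠ 0 := by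
    rw [Ne, map_eq_zero_iff _ hinj, leadingCoeff_eq_zero]
    exact hf0
  have hdeg : (gdif v a b).natDegree = n := by
    have := hG.natDegree hab
    rwa [← gdif_map_rat, natDegree_map_eq_of_injective (RingHom.injective_int (Int.castRingHom ℚ))] at this
  have hcard : R.card = n := by
    have h1 := congrArg natDegree hfR
    rw [natDegree_map_eq_of_injective hinj, hdeg, natDegree_C_mul hlc0,
      natDegree_prod_of_monic _ _ fun s _ => monic_X_sub_C s] at h1
    simp only [natDegree_X_sub_C, Finset.sum_const, smul_eq_mul, mul_one] at h1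
    exact h1.symm
  obtain ⟨s, hs⟩ : R.Nonempty := by
    rw [← Finset.card_pos, hcard]
    omega
  have hsr := (hR s).1 hs
  have hder : aeval s (derivative (gpolQ v a - gpolQ v b)) =
      algebraMap ℤ F (gdif v a b).leadingCoeff * ∏ t ∈ R.erase s, (s - t) := by
    rw [← aeval_derivative_gdif, aeval_def, ← eval_map, ← derivative_map, hfR,
      ← Finset.mul_prod_erase R _ hs, derivative_mul, derivative_mul, derivative_C, derivative_sub,
      derivative_X, derivative_C]
    simp only [eval_add, eval_mul, eval_sub, eval_zero, eval_C, eval_X, eval_one, eval_prod]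
    simp
  have hmem : ∀ t ∈ R, t ∈ (IntermediateField.adjoin ℚ (nodes ℚ F (gpolQ v))).toSubfield := by
    intro t ht
    exact IntermediateField.subset_adjoin ℚ _ ⟨a, b, hab, (hR t).1 ht⟩
  have h1 := T.der a b s hab hsr
  rw [hder, hν.mul, isVal_prod_h66 hν] at h1
  · rw [Finset.sum_eq_zero, add_zero] at h1
    · rw [leadingCoeff_h66]
      exact h1
    · intro t ht
      rw [Finset.mem_erase] at ht
      have htr := (hR t).1 ht.2
      rw [T.dif s ⟨a, b, hab, hsr⟩ t ⟨a, b, hab, htr⟩ (Ne.symm ht.1), if_neg]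
      rintro ⟨c1, c2⟩
      rcases key s c1 hsr with ⟨e1, e2⟩ | ⟨e1, e2⟩ | ⟨e1, e2⟩ <;>
        rcases key t c2 htr with ⟨g1, g2⟩ | ⟨g1, g2⟩ | ⟨g1, g2⟩
      · exact ht.1 (g2.trans e2.symm)
      · exact h12 (e1.symm.trans g1)
      · exact h13 (e1.symm.trans g1)
      · exact h12 (g1.symm.trans e1)
      · exact ht.1 (g2.trans e2.symm)
      · exact h23 (e1.symm.trans g1)
      · exact h13 (g1.symm.trans e1)
      · exact h23 (g1.symm.trans e1)
      · exact ht.1 (g2.trans e2.symm)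
  · exact fun t ht => sub_mem (hmem s hs) (hmem t (Finset.mem_of_mem_erase ht))
  · intro t ht hcon
    exact (Finset.ne_of_mem_erase ht) (sub_eq_zero.1 hcon).symm
  · rw [← leadingCoeff_h66]
    exact (IntermediateField.adjoin ℚ (nodes ℚ F (gpolQ v))).algebraMap_mem _
  · exact prod_mem fun t ht => sub_mem (hmem s hs) (hmem t (Finset.mem_of_mem_erase ht))
  · exact hlc0
  · refine Finset.prod_ne_zero_iff.2 fun t ht hcon => ?_
    exact (Finset.ne_of_mem_erase ht) (sub_eq_zero.1 hcon).symm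

/-- conjugation and reduction modulo `ℓ` -/
theorem valmod_h59 {ℓ : ℕ} {α : ι → ℚ[X]} (σ : F ≃ₐ[ℚ] F) {ν : F → ℤ}
    {h : F → F → ℤ} {b : ι → ι → ℤ}
    (hν : IsVal (IntermediateField.adjoin ℚ (nodes ℚ F α)).toSubfield ν) (H : DifV ν α h b) :
    ∃ ν' : F → ZMod ℓ, IsVal (IntermediateField.adjoin ℚ (nodes ℚ F α)).toSubfield ν' ∧
      DifV ν' α (fun s s' => ((h (σ.symm s) (σ.symm s') : ℤ) : ZMod ℓ))
        (fun c d => ((b c d : ℤ) : ZMod ℓ)) := by
  have hS : σ.symm '' nodes ℚ F α = nodes ℚ F α := by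
    apply Set.Subset.antisymm
    · rintro _ ⟨x, hx, rfl⟩
      exact nodes_stable _ σ.symm x hx
    · intro x hx
      exact ⟨σ x, nodes_stable _ σ x hx, by simp⟩
  have hν' := hν.conj σ hS
  have hT' := H.conj σ
  refine ⟨fun x => ((ν (σ.symm x) : ℤ) : ZMod ℓ), ⟨fun x hx y hy hx0 hy0 => ?_, ?_⟩,
    ⟨fun s hs s' hs' hne => ?_, fun c d hcd => ?_⟩⟩
  · have := hν'.mul x hx y hy hx0 hy0
    simp only [this, Int.cast_add]
  · have := hν'.neg_one
    simp only [this, Int.cast_zero]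
  · have := hT'.dif s hs s' hs' hne
    simp only [this]
  · have := hT'.lead c d hcd
    simp only [this]

/-- Type D. Proof: `exists_val_typeD` (`h.typeD`, `separable_of_typeI`) and `pairTransitive_gpol` give a
conjugate (`DifV.conj`, `IsVal.conj`) with the roots `u, w`; reduce modulo `ℓ` (as in
`exists_val_good`). -/
theorem exists_val_D {ℓ : ℕ} (hℓ : ℓ.Prime) {v : ι × Fin (n + 1) → ℤ} (h : GoodH v)
    {a b : ι} (hab : a ≠ b) (u w : F) (huw : u ≠ w)
    (hu : aeval u (gpolQ v a) = aeval u (gpolQ v b))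
    (hw : aeval w (gpolQ v a) = aeval w (gpolQ v b)) :
    ∃ ν : F → ZMod ℓ, IsVal (IntermediateField.adjoin ℚ (nodes ℚ F (gpolQ v))).toSubfield ν ∧
      DifV ν (gpolQ v) (fun s s' => if s ∈ ({u, w} : Set F) ∧ s' ∈ ({u, w} : Set F)
        then 1 else 0) (fun _ _ => 0) := by
  obtain ⟨p, hp, hp2, hD⟩ := h.typeD a b hab
  obtain ⟨q, hq, hI⟩ := h.good.typeI a b hab
  have hsep := separable_of_typeI v hq hI
  obtain ⟨ν, u', w', huw', hu', hw', hν, hT⟩ := exists_val_typeD (F := F) v hp hp2 hab hD hsep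
  obtain ⟨σ, hσu, hσw⟩ := pairTransitive_gpol v (h.good.typeI a b hab) (h.good.typeL a b hab)
    u' w' u w hu' hw' hu hw huw' huw
  obtain ⟨ν', hν', hT'⟩ := valmod_h59 (ℓ := ℓ) σ hν hT
  refine ⟨ν', hν', ?_⟩
  have hmem : ∀ s : F, σ.symm s ∈ ({u', w'} : Set F) ↔ s ∈ ({u, w} : Set F) := by
    intro s
    simp only [Set.mem_insert_iff, Set.mem_singleton_iff, AlgEquiv.symm_apply_eq, hσu, hσw]
  refine ⟨fun s hs s' hs' hne => ?_, fun c d hcd => ?_⟩
  · rw [hT'.dif s hs s' hs' hne]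
    simp only [hmem]
    split_ifs <;> simp
  · rw [hT'.lead c d hcd]
    simp

/-- Type K. Proof: `exists_val_typeK` and a conjugate by `exists_move`. -/
theorem exists_val_K {ℓ : ℕ} (hℓ : ℓ.Prime) {v : ι × Fin (n + 1) → ℤ} (h : GoodH v) (hn : 2 ≤ n)
    {a b : ι} (hab : a ≠ b) (u : F) (hu : aeval u (gpolQ v a) = aeval u (gpolQ v b)) :
    ∃ ν : F → ZMod ℓ, IsVal (IntermediateField.adjoin ℚ (nodes ℚ F (gpolQ v))).toSubfield ν ∧
      DifV ν (gpolQ v) (fun s s' => if s = u ∨ s' = u then -1 else 0)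
        (fun c d => if ({c, d} : Set ι) = {a, b} then 1 else 0) := by
  obtain ⟨p, hp, hK⟩ := h.typeK a b hab
  obtain ⟨q, hq, hI⟩ := h.good.typeI a b hab
  have hsep := separable_of_typeI v hq hI
  obtain ⟨ν, u', hu', hν, hT⟩ := exists_val_typeK (F := F) v hp hab hK hn hsep
  obtain ⟨σ, hσu, -⟩ := exists_move h.good hab u' u hu' hu
  obtain ⟨ν', hν', hT'⟩ := valmod_h59 (ℓ := ℓ) σ hν hT
  refine ⟨ν', hν', ?_⟩
  have hmem : ∀ s : F, σ.symm s = u' ↔ s = u := by
    intro s
    rw [AlgEquiv.symm_apply_eq, hσu]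
  refine ⟨fun s hs s' hs' hne => ?_, fun c d hcd => ?_⟩
  · rw [hT'.dif s hs s' hs' hne]
    simp only [hmem]
    split_ifs <;> simp
  · rw [hT'.lead c d hcd]
    split_ifs <;> simp

end Pool.Agent.Lib.MP_89bcae_ag
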