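import Mathlib
import Pool.Agent.Lib.MP_89bcae_ag.Gr.E04

/-!
# The sums of the homomorphisms: one triple, one pair
-/

open Polynomial

open scoped Classical

namespace Pool.Agent.Lib.MP_89bcae_ag

open Superelliptic

variable {ι : Type} [Fintype ι] [LinearOrder ι] {n : ℕ} {F : Type} [Field F] [Algebra ℚ F]

/-- The nodes of different pairs are different. -/
theorem Nodes.ne [IsAlgClosure ℚ F] {v : ι × Fin (n + 1) → ℤ} (h : GoodH v)
    {nd : ι → ι → Fin n → F} (hN : Nodes (gpolQ v) nd) {i j i' j' : ι} (hij : i ≠ j)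
    (hij' : i' ≠ j') {a a' : Fin n} (he : nd i j a = nd i' j' a') :
    ({i, j} : Set ι) = {i', j'} ∧ a = a' := by
  have h1 : aeval (nd i j a) (gpolQ v i) = aeval (nd i j a) (gpolQ v j) := (hN.mem i j hij _).2 ⟨a, rfl⟩
  have h2 : aeval (nd i j a) (gpolQ v i') = aeval (nd i j a) (gpolQ v j') :=
    (hN.mem i' j' hij' _).2 ⟨a', he.symm⟩
  have h3 : ({i, j} : Set ι) = {i', j'} := by
    by_contra hne
    exact no_common_root_h30 h.good hij hij' hne h1 h2
  refine ⟨h3, ?_⟩
  rcases Set.pair_eq_pair_iff.mp h3 with ⟨rfl, rfl⟩ | ⟨rfl, rfl⟩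
  · exact hN.inj _ _ hij he
  · rw [hN.symm j i a'] at he
    exact hN.inj _ _ hij he

lemma isVal_sum_h30 {F' : Type*} [Field F'] {A κ : Type*} [AddCommGroup A] {K : Subfield F'} (s : Finset κ)
    {ν : κ → F' → A} (h : ∀ a ∈ s, IsVal K (ν a)) : IsVal K (fun x => ∑ a ∈ s, ν a x) where
  mul x hx y hy hx0 hy0 := by
    rw [← Finset.sum_add_distrib]
    exact Finset.sum_congr rfl fun a ha => (h a ha).mul x hx y hy hx0 hy0
  neg_one := Finset.sum_eq_zero fun a ha => (h a ha).neg_one

lemma Nodes.mem_nodes_h30 {F' : Type} [Field F'] [Algebra ℚ F'] {κ : Type} {m : ℕ} {α : κ → ℚ[X]}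
    {nd : κ → κ → Fin m → F'} (hN : Nodes α nd) {x y : κ} (hxy : x ≠ y) (a : Fin m) :
    nd x y a ∈ nodes ℚ F' α := ⟨x, y, hxy, (hN.mem x y hxy _).2 ⟨a, rfl⟩⟩

lemma triple_mem_iff_h30 [IsAlgClosure ℚ F] {v : ι × Fin (n + 1) → ℤ} (h : GoodH v)
    {nd : ι → ι → Fin n → F} (hN : Nodes (gpolQ v) nd) {i j l : ι} (hij : i ≠ j) (hil : i ≠ l) (hjl : j ≠ l)
    {x y : ι} (hxy : x ≠ y) (a c : Fin n) :
    nd x y a ∈ ({nd i j c, nd j l c, nd i l c} : Set F) ↔
      a = c ∧ x ∈ ({i, j, l} : Finset ι) ∧ y ∈ ({i, j, l} : Finset ι) := by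
  constructor
  · intro hm
    have key : ∀ i' j' : ι, i' ≠ j' → i' ∈ ({i, j, l} : Finset ι) → j' ∈ ({i, j, l} : Finset ι) →
        nd x y a = nd i' j' c → a = c ∧ x ∈ ({i, j, l} : Finset ι) ∧ y ∈ ({i, j, l} : Finset ι) := by
      intro i' j' hij' hi' hj' he
      obtain ⟨h1, h2⟩ := Nodes.ne h hN hxy hij' he
      refine ⟨h2, ?_⟩
      rcases Set.pair_eq_pair_iff.mp h1 with ⟨rfl, rfl⟩ | ⟨rfl, rfl⟩
      · exact ⟨hi', hj'⟩
      · exact ⟨hj', hi'⟩
    rcases hm with he | he | he
    · exact key i j hij (by simp) (by simp) he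
    · exact key j l hjl (by simp) (by simp) he
    · exact key i l hil (by simp) (by simp) he
  · rintro ⟨rfl, hx, hy⟩
    simp only [Finset.mem_insert, Finset.mem_singleton] at hx hy
    simp only [Set.mem_insert_iff, Set.mem_singleton_iff]
    rcases hx with rfl | rfl | rfl <;> rcases hy with rfl | rfl | rfl
    · exact absurd rfl hxy
    · exact Or.inl rfl
    · exact Or.inr (Or.inr rfl)
    · exact Or.inl (hN.symm _ _ _)
    · exact absurd rfl hxy
    · exact Or.inr (Or.inl rfl)
    · exact Or.inr (Or.inr (hN.symm _ _ _))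
    · exact Or.inr (Or.inl (hN.symm _ _ _))
    · exact absurd rfl hxy

/-- One triple. Proof: `ν = ∑ a : Fin n, ν_a` where `ν_a` is that of `exists_val_B` for
`r = nd i j a`, `r' = nd j l a`, `r'' = nd i l a`. A node `nd x y a'` is in `{r, r', r''}` if and only if
`a' = a` and `x, y ∈ {i, j, l}` (`Nodes.ne`). So for `x ≠ y`, `a' ≠ b'`, `ν(nd x y a' - nd x y b') = 0`, and
for different `x, y, z`: `ν(nd x y a' - nd x z b')` is `1` if `a' = b'` and `{x, y, z} = {i, j, l}`, and `0`
otherwise. The values of `B` at pairs are `0`. -/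
theorem copyV_triple [IsAlgClosure ℚ F] {ℓ : ℕ} (hℓ : ℓ.Prime) {v : ι × Fin (n + 1) → ℤ}
    (h : GoodH v) (hn : 1 ≤ n) {nd : ι → ι → Fin n → F} (hN : Nodes (gpolQ v) nd)
    {T : Finset ι} (hT : T.card = 3) :
    ∃ ν : F → ZMod ℓ, IsVal (IntermediateField.adjoin ℚ (nodes ℚ F (gpolQ v))).toSubfield ν ∧
      CopyV ν (gpolQ v) nd (fun T' => if T' = T then 1 else 0) := by
  obtain ⟨i, j, l, hij, hil, hjl, hTe⟩ := Finset.card_eq_three.mp hT
  have hm : ∀ {x y : ι} (_ : x ≠ y) (a : Fin n), aeval (nd x y a) (gpolQ v x) = aeval (nd x y a) (gpolQ v y) :=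
    fun {x y} hxy a => (hN.mem x y hxy _).2 ⟨a, rfl⟩
  choose ν hν hD using fun a : Fin n => exists_val_B hℓ h hn hij hjl hil (nd i j a) (nd j l a) (nd i l a)
    (hm hij a) (hm hjl a) (hm hil a)
  have hpair : ∀ {x y : ι} (_ : x ≠ y), (if ({x, y} : Finset ι) = T then (1 : ZMod ℓ) else 0) = 0 := by
    intro x y hxy
    refine if_neg fun he => ?_
    rw [← he, Finset.card_pair hxy] at hT
    omega
  refine ⟨fun x => ∑ a : Fin n, ν a x, isVal_sum_h30 _ fun a _ => hν a, ?_, ?_, ?_⟩
  · intro x y hxy
    have e := (Finset.sum_eq_zero fun a (_ : a ∈ Finset.univ) => (hD a).lead x y hxy).trans (hpair hxy).symm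
    refine e.trans ?_
    congr <;> exact Subsingleton.elim _ _
  · intro x y hxy a b hab
    refine Finset.sum_eq_zero fun c _ => ?_
    rw [(hD c).dif _ (hN.mem_nodes_h30 hxy a) _ (hN.mem_nodes_h30 hxy b) fun he => hab (hN.inj x y hxy he),
      if_neg]
    rintro ⟨h1, h2⟩
    rw [triple_mem_iff_h30 h hN hij hil hjl hxy] at h1 h2
    exact hab (h1.1.trans h2.1.symm)
  · intro x y z hxy hyz hxz a b
    have hne : nd x y a ≠ nd x z b := by
      intro he
      rcases Set.pair_eq_pair_iff.mp (Nodes.ne h hN hxy hxz he).1 with ⟨-, h2⟩ | ⟨h1, -⟩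
      · exact hyz h2
      · exact hxz h1
    have h1 : ∀ c : Fin n, ν c (nd x y a - nd x z b) =
        if c = a ∧ a = b ∧ ({x, y, z} : Finset ι) = T then 1 else 0 := by
      intro c
      rw [(hD c).dif _ (hN.mem_nodes_h30 hxy a) _ (hN.mem_nodes_h30 hxz b) hne]
      refine if_congr ?_ rfl rfl
      rw [triple_mem_iff_h30 h hN hij hil hjl hxy, triple_mem_iff_h30 h hN hij hil hjl hxz, ← hTe]
      constructor
      · rintro ⟨⟨rfl, hx, hy⟩, rfl, -, hz⟩
        refine ⟨rfl, rfl, ?_⟩
        apply Finset.eq_of_subset_of_card_le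
        · intro t ht
          simp only [Finset.mem_insert, Finset.mem_singleton] at ht
          rcases ht with rfl | rfl | rfl
          · exact hx
          · exact hy
          · exact hz
        · rw [hT, Finset.card_eq_three.mpr ⟨x, y, z, hxy, hxz, hyz, rfl⟩]
      · rintro ⟨rfl, rfl, he⟩
        rw [← he]
        simp
    have e : ∑ c : Fin n, ν c (nd x y a - nd x z b) = if a = b then
        (if ({x, y, z} : Finset ι) = T then (1 : ZMod ℓ) else 0) - (if ({x, y} : Finset ι) = T then 1 else 0)
          - (if ({x, z} : Finset ι) = T then 1 else 0) else 0 := by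
      simp only [h1, hpair hxy, hpair hxz, sub_zero]
      by_cases hab : a = b
      · by_cases hxT : ({x, y, z} : Finset ι) = T
        · simp [hab, hxT]
        · simp [hxT]
      · simp [hab]
    refine e.trans ?_
    congr <;> exact Subsingleton.elim _ _

lemma IsVal.add_h64 {A : Type*} [AddCommGroup A] {K : Subfield F} {ν ν' : F → A} (H : IsVal K ν)
    (H' : IsVal K ν') : IsVal K (fun x => ν x + ν' x) := by
  refine ⟨fun x hx y hy hx0 hy0 => ?_, ?_⟩
  · show ν (x * y) + ν' (x * y) = (ν x + ν' x) + (ν y + ν' y)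
    rw [H.mul x hx y hy hx0 hy0, H'.mul x hx y hy hx0 hy0]
    abel
  · show ν (-1) + ν' (-1) = 0
    rw [H.neg_one, H'.neg_one, add_zero]

lemma IsVal.sub_h64 {A : Type*} [AddCommGroup A] {K : Subfield F} {ν ν' : F → A} (H : IsVal K ν)
    (H' : IsVal K ν') : IsVal K (fun x => ν x - ν' x) := by
  refine ⟨fun x hx y hy hx0 hy0 => ?_, ?_⟩
  · show ν (x * y) - ν' (x * y) = (ν x - ν' x) + (ν y - ν' y)
    rw [H.mul x hx y hy hx0 hy0, H'.mul x hx y hy hx0 hy0]
    abel
  · show ν (-1) - ν' (-1) = 0
    rw [H.neg_one, H'.neg_one, sub_zero]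

lemma IsVal.sum_h64 {A J : Type*} [AddCommGroup A] {K : Subfield F} {ν : J → F → A} (S : Finset J)
    (H : ∀ c ∈ S, IsVal K (ν c)) : IsVal K (fun x => ∑ c ∈ S, ν c x) := by
  refine ⟨fun x hx y hy hx0 hy0 => ?_, ?_⟩
  · show ∑ c ∈ S, ν c (x * y) = ∑ c ∈ S, ν c x + ∑ c ∈ S, ν c y
    rw [← Finset.sum_add_distrib]
    exact Finset.sum_congr rfl fun c hc => (H c hc).mul x hx y hy hx0 hy0
  · exact Finset.sum_eq_zero fun c hc => (H c hc).neg_one

lemma DifV.add_h64 {A : Type*} [AddCommGroup A] {α : ι → ℚ[X]} {ν ν' : F → A}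
    {h h' : F → F → A} {b b' : ι → ι → A} (H : DifV ν α h b) (H' : DifV ν' α h' b') :
    DifV (fun x => ν x + ν' x) α (fun s s' => h s s' + h' s s') (fun i j => b i j + b' i j) := by
  refine ⟨fun s hs s' hs' hss => ?_, fun i j hij => ?_⟩
  · show ν (s - s') + ν' (s - s') = _
    rw [H.dif s hs s' hs' hss, H'.dif s hs s' hs' hss]
  · show ν _ + ν' _ = _
    rw [H.lead i j hij, H'.lead i j hij]

lemma DifV.sub_h64 {A : Type*} [AddCommGroup A] {α : ι → ℚ[X]} {ν ν' : F → A}
    {h h' : F → F → A} {b b' : ι → ι → A} (H : DifV ν α h b) (H' : DifV ν' α h' b') :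
    DifV (fun x => ν x - ν' x) α (fun s s' => h s s' - h' s s') (fun i j => b i j - b' i j) := by
  refine ⟨fun s hs s' hs' hss => ?_, fun i j hij => ?_⟩
  · show ν (s - s') - ν' (s - s') = _
    rw [H.dif s hs s' hs' hss, H'.dif s hs s' hs' hss]
  · show ν _ - ν' _ = _
    rw [H.lead i j hij, H'.lead i j hij]

lemma DifV.sum_h64 {A J : Type*} [AddCommGroup A] {α : ι → ℚ[X]} {ν : J → F → A}
    {h : J → F → F → A} {b : J → ι → ι → A} (S : Finset J) (H : ∀ c ∈ S, DifV (ν c) α (h c) (b c)) :
    DifV (fun x => ∑ c ∈ S, ν c x) α (fun s s' => ∑ c ∈ S, h c s s')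
      (fun i j => ∑ c ∈ S, b c i j) := by
  refine ⟨fun s hs s' hs' hss => ?_, fun i j hij => ?_⟩
  · exact Finset.sum_congr rfl fun c hc => (H c hc).dif s hs s' hs' hss
  · exact Finset.sum_congr rfl fun c hc => (H c hc).lead i j hij

omit [Field F] [Algebra ℚ F] in
lemma ite_cg_h64 {A : Type*} {p q : Prop} {ip : Decidable p} {iq : Decidable q} (h : p ↔ q)
    {x y x' y' : A} (hx : x = x') (hy : y = y') : @ite A p ip x y = @ite A q iq x' y' := by
  subst hx hy
  by_cases hp : p
  · rw [if_pos hp, if_pos (h.1 hp)]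
  · rw [if_neg hp, if_neg (fun hq => hp (h.2 hq))]

/-- The sum of the values of `B - B'`. -/
lemma sumB_h64 {A : Type*} [Ring A] (z a b : Fin n) {t1 t2 t1' t2' : Prop} (ht : ¬ (t1 ∧ t2))
    (ht' : ¬ (t1' ∧ t2')) (hab : t1 → t1' → a ≠ b) :
    ∑ c : Fin n, (((if ((t1 ∧ a = z) ∨ (t2 ∧ a = c)) ∧ ((t1' ∧ b = z) ∨ (t2' ∧ b = c)) then
        (1 : A) else 0)) - (if ((t1 ∨ t2) ∧ a = c) ∧ ((t1' ∨ t2') ∧ b = c) then 1 else 0)) =
      if t1 ∧ t2' then (if a = z then 1 else 0) - (if a = b then 1 else 0) else
        if t2 ∧ t1' then (if b = z then 1 else 0) - (if a = b then 1 else 0) else 0 := by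
  rw [Finset.sum_sub_distrib]
  by_cases h1 : t1
  · have h2 : ¬ t2 := fun h => ht ⟨h1, h⟩
    by_cases h1' : t1'
    · have h2' : ¬ t2' := fun h => ht' ⟨h1', h⟩
      have hne := hab h1 h1'
      have e1 : ∀ c : Fin n, ¬ (a = c ∧ b = c) := fun c h => hne (h.1.trans h.2.symm)
      simp [h1, h2, h1', h2', e1]
    · by_cases h2' : t2'
      · simp only [h1, h2, h1', h2', true_and, false_and, or_false, false_or, true_or, and_true,
          if_true]
        congr 1
        · rw [Finset.sum_eq_single b]
          · simp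
          · intro c _ hc
            rw [if_neg]
            exact fun h => hc h.2.symm
          · exact fun h => absurd (Finset.mem_univ b) h
        · rw [Finset.sum_eq_single b]
          · simp
          · intro c _ hc
            rw [if_neg]
            exact fun h => hc h.2.symm
          · exact fun h => absurd (Finset.mem_univ b) h
      · simp [h1, h2, h1', h2']
  · by_cases h2 : t2
    · by_cases h1' : t1'
      · have h2' : ¬ t2' := fun h => ht' ⟨h1', h⟩
        simp only [h1, h2, h1', h2', true_and, false_and, or_false, false_or, and_true,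
          if_true, if_false, and_false]
        congr 1
        · rw [Finset.sum_eq_single a]
          · simp
          · intro c _ hc
            rw [if_neg]
            exact fun h => hc h.1.symm
          · exact fun h => absurd (Finset.mem_univ a) h
        · rw [Finset.sum_eq_single a]
          · simp only [true_and]
            simp only [eq_comm]
          · intro c _ hc
            rw [if_neg]
            exact fun h => hc h.1.symm
          · exact fun h => absurd (Finset.mem_univ a) h
      · by_cases h2' : t2'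
        · simp [h1, h2, h1', h2']
        · simp [h1, h2, h1', h2']
    · simp [h1, h2]

/-- The sum of the values of `D`. -/
lemma sumD_h64 {A : Type*} [Ring A] (z a b : Fin n) {t t' : Prop} (hab : t → t' → a ≠ b) :
    ∑ c ∈ Finset.univ.erase z, (if (t ∧ (a = z ∨ a = c)) ∧ (t' ∧ (b = z ∨ b = c)) then
        (1 : A) else 0) = if t ∧ t' ∧ (a = z ∨ b = z) then 1 else 0 := by
  by_cases h1 : t
  · by_cases h2 : t'
    · have hne := hab h1 h2
      by_cases ha : a = z
      · have hb : b ≠ z := fun h => hne (ha.trans h.symm)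
        simp only [h1, h2, ha, hb, true_and, true_or, false_or, if_true]
        rw [Finset.sum_eq_single b]
        · simp
        · intro c _ hc
          rw [if_neg]
          exact fun h => hc h.symm
        · intro h
          exact absurd (Finset.mem_erase.2 ⟨hb, Finset.mem_univ b⟩) h
      · by_cases hb : b = z
        · simp only [h1, h2, ha, hb, true_and, true_or, false_or, and_true, if_true, or_true]
          rw [Finset.sum_eq_single a]
          · simp
          · intro c _ hc
            rw [if_neg]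
            exact fun h => hc h.symm
          · intro h
            exact absurd (Finset.mem_erase.2 ⟨ha, Finset.mem_univ a⟩) h
        · have e1 : ∀ c : Fin n, ¬ (a = c ∧ b = c) := fun c h => hne (h.1.trans h.2.symm)
          simp [h1, h2, ha, hb, e1]
    · simp [h2]
  · simp [h1]

/-- One pair. Proof: `T = {i, j}`, `0 : Fin n` (`n ≥ 1`). Let `K` be the homomorphism of `exists_val_K` for
`nd i j 0`, `D_a` (`a ≠ 0`) that of `exists_val_D` for `nd i j 0`, `nd i j a`, and for `l ≠ i, j` and
`a : Fin n` let `B_la`, `B'_la` be those of `exists_val_B` for `nd i j 0`, `nd j l a`, `nd i l a`, resp.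
`nd i j a`, `nd j l a`, `nd i l a`. Take `ν = K + ∑_{a ≠ 0} D_a + ∑_l ∑_a (B_la - B'_la)`. The values:
leading coefficient of `α_x - α_y`: `1` if `{x, y} = {i, j}`, otherwise `0`. Parallel pairs
`nd x y a - nd x y b`, `a ≠ b`: if `{x, y} = {i, j}`, `K` gives `-1` if `a = 0` or `b = 0`, the `D` give `1`
in the same cases; the others give `0`; otherwise all give `0`. `nd i j a - nd i l b` (`l ≠ i, j`, also with
`i`, `j` exchanged): `K` gives `-1` if `a = 0`, `D` gives `0`, `∑_a' (B_la' - B'_la')` gives
`[a = 0] - [a = b]`; the sum is `- [a = b]` as required (`B {i, j, l} - B {i, j} - B {i, l} = 0 - 1 - 0`).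
`nd l i a - nd l j b`: `[a = b] - [a = b] = 0` as required. The other adjacent pairs: `0`, as required. -/
theorem copyV_pair [IsAlgClosure ℚ F] {ℓ : ℕ} (hℓ : ℓ.Prime) {v : ι × Fin (n + 1) → ℤ}
    (h : GoodH v) (hn : 2 ≤ n) {nd : ι → ι → Fin n → F} (hN : Nodes (gpolQ v) nd)
    {T : Finset ι} (hT : T.card = 2) :
    ∃ ν : F → ZMod ℓ, IsVal (IntermediateField.adjoin ℚ (nodes ℚ F (gpolQ v))).toSubfield ν ∧
      CopyV ν (gpolQ v) nd (fun T' => if T' = T then 1 else 0) := by
  obtain ⟨i, j, hij, hTij⟩ := Finset.card_eq_two.1 hT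
  have hTm : ∀ t, t ∈ T ↔ t = i ∨ t = j := by
    intro t
    rw [hTij, Finset.mem_insert, Finset.mem_singleton]
  have z : Fin n := ⟨0, by omega⟩
  set K₀ := (IntermediateField.adjoin ℚ (nodes ℚ F (gpolQ v))).toSubfield with hK₀
  have hmem : ∀ x y, x ≠ y → ∀ a, aeval (nd x y a) (gpolQ v x) = aeval (nd x y a) (gpolQ v y) :=
    fun x y hxy a => (hN.mem x y hxy _).2 ⟨a, rfl⟩
  have hnode : ∀ x y, x ≠ y → ∀ a, nd x y a ∈ nodes ℚ F (gpolQ v) :=
    fun x y hxy a => ⟨x, y, hxy, hmem x y hxy a⟩
  have hkey : ∀ {x y x' y' : ι} {a a' : Fin n}, x ≠ y → x' ≠ y' →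
      (nd x y a = nd x' y' a' ↔ ({x, y} : Set ι) = {x', y'} ∧ a = a') := by
    intro x y x' y' a a' hxy hxy'
    constructor
    · exact fun he => Nodes.ne h hN hxy hxy' he
    · rintro ⟨h1, rfl⟩
      rcases Set.pair_eq_pair_iff.1 h1 with ⟨h2, h3⟩ | ⟨h2, h3⟩
      · rw [h2, h3]
      · rw [h2, h3, hN.symm]
  -- the homomorphisms
  obtain ⟨νK, hK1, hK2⟩ := exists_val_K hℓ h hn hij (nd i j z) (hmem i j hij z)
  have hD := fun (a : Fin n) (ha : a ∈ Finset.univ.erase z) =>
    exists_val_D hℓ h hij (nd i j z) (nd i j a)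
      (fun he => (Finset.mem_erase.1 ha).1 (hN.inj i j hij he).symm) (hmem i j hij z) (hmem i j hij a)
  choose! νD hD1 hD2 using hD
  set L : Finset ι := Finset.univ.filter (fun l => l ≠ i ∧ l ≠ j) with hL
  have hLm : ∀ l, l ∈ L ↔ l ≠ i ∧ l ≠ j := fun l => by simp [hL]
  have hB := fun (l : ι) (hl : l ∈ L) (a : Fin n) =>
    exists_val_B hℓ h (by omega : 1 ≤ n) hij ((hLm l).1 hl).2.symm ((hLm l).1 hl).1.symm
      (nd i j z) (nd j l a) (nd i l a) (hmem i j hij z) (hmem j l ((hLm l).1 hl).2.symm a)
      (hmem i l ((hLm l).1 hl).1.symm a)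
  choose! νB hB1 hB2 using hB
  have hB' := fun (l : ι) (hl : l ∈ L) (a : Fin n) =>
    exists_val_B hℓ h (by omega : 1 ≤ n) hij ((hLm l).1 hl).2.symm ((hLm l).1 hl).1.symm
      (nd i j a) (nd j l a) (nd i l a) (hmem i j hij a) (hmem j l ((hLm l).1 hl).2.symm a)
      (hmem i l ((hLm l).1 hl).1.symm a)
  choose! νB' hB1' hB2' using hB'
  have hV := (hK1.add_h64 (IsVal.sum_h64 _ hD1)).add_h64
    (IsVal.sum_h64 L fun l hl => IsVal.sum_h64 (Finset.univ : Finset (Fin n))
      fun a _ => (hB1 l hl a).sub_h64 (hB1' l hl a))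
  have hDV := (hK2.add_h64 (DifV.sum_h64 _ hD2)).add_h64
    (DifV.sum_h64 L fun l hl => DifV.sum_h64 (Finset.univ : Finset (Fin n))
      fun a _ => (hB2 l hl a).sub_h64 (hB2' l hl a))
  refine ⟨_, hV, ?_⟩
  -- the values at the nodes
  have hval : ∀ x y x' y' a b, x ≠ y → x' ≠ y' → nd x y a ≠ nd x' y' b →
      ((if nd x y a = nd i j z ∨ nd x' y' b = nd i j z then (-1 : ZMod ℓ) else 0) +
        ∑ c ∈ Finset.univ.erase z, (if nd x y a ∈ ({nd i j z, nd i j c} : Set F) ∧
          nd x' y' b ∈ ({nd i j z, nd i j c} : Set F) then 1 else 0)) +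
        ∑ l ∈ L, ∑ c : Fin n, ((if nd x y a ∈ ({nd i j z, nd j l c, nd i l c} : Set F) ∧
          nd x' y' b ∈ ({nd i j z, nd j l c, nd i l c} : Set F) then 1 else 0) -
          (if nd x y a ∈ ({nd i j c, nd j l c, nd i l c} : Set F) ∧
          nd x' y' b ∈ ({nd i j c, nd j l c, nd i l c} : Set F) then 1 else 0)) =
      ((if ({x, y} : Set ι) = {i, j} ∧ a = z ∨ ({x', y'} : Set ι) = {i, j} ∧ b = z
          then (-1 : ZMod ℓ) else 0) +
        (if ({x, y} : Set ι) = {i, j} ∧ ({x', y'} : Set ι) = {i, j} ∧ (a = z ∨ b = z)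
          then 1 else 0)) +
        ∑ l ∈ L, (if ({x, y} : Set ι) = {i, j} ∧
            (({x', y'} : Set ι) = {j, l} ∨ ({x', y'} : Set ι) = {i, l})
          then (if a = z then 1 else 0) - (if a = b then 1 else 0)
          else if (({x, y} : Set ι) = {j, l} ∨ ({x, y} : Set ι) = {i, l}) ∧
              ({x', y'} : Set ι) = {i, j}
            then (if b = z then 1 else 0) - (if a = b then 1 else 0) else 0) := by
    intro x y x' y' a b hxy hxy' hne
    have hab : ({x, y} : Set ι) = {i, j} → ({x', y'} : Set ι) = {i, j} → a ≠ b := by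
      intro h1 h2 h3
      exact hne ((hkey hxy hxy').2 ⟨h1.trans h2.symm, h3⟩)
    congr 1
    · congr 1
      · exact ite_cg_h64 (by rw [hkey hxy hij, hkey hxy' hij]) rfl rfl
      · refine Eq.trans (Finset.sum_congr rfl fun c _ => ?_) ((sumD_h64 z a b hab).trans ?_)
        · refine ite_cg_h64 ?_ rfl rfl
          simp only [Set.mem_insert_iff, Set.mem_singleton_iff, hkey hxy hij, hkey hxy' hij,
            ← and_or_left]
        · exact ite_cg_h64 Iff.rfl rfl rfl
    · refine Finset.sum_congr rfl fun l hl => ?_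
      obtain ⟨hli, hlj⟩ := (hLm l).1 hl
      have hex : ∀ x y : ι, ¬ (({x, y} : Set ι) = {i, j} ∧
          (({x, y} : Set ι) = {j, l} ∨ ({x, y} : Set ι) = {i, l})) := by
        rintro x y ⟨h1, h2 | h2⟩
        · rw [h1] at h2
          have h3 : l ∈ ({i, j} : Set ι) := by rw [h2]; simp
          rcases h3 with h3 | h3
          · exact hli h3
          · exact hlj h3
        · rw [h1] at h2
          have h3 : l ∈ ({i, j} : Set ι) := by rw [h2]; simp
          rcases h3 with h3 | h3
          · exact hli h3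
          · exact hlj h3
      refine Eq.trans (Finset.sum_congr rfl fun c _ => ?_)
        ((sumB_h64 (A := ZMod ℓ) z a b (hex x y) (hex x' y') hab).trans ?_)
      · refine congrArg₂ (fun x y : ZMod ℓ => x - y) (ite_cg_h64 ?_ rfl rfl) (ite_cg_h64 ?_ rfl rfl)
        · simp only [Set.mem_insert_iff, Set.mem_singleton_iff, hkey hxy hij, hkey hxy' hij,
            hkey hxy hlj.symm, hkey hxy' hlj.symm, hkey hxy hli.symm, hkey hxy' hli.symm,
            ← or_and_right]
        · simp only [Set.mem_insert_iff, Set.mem_singleton_iff, hkey hxy hij, hkey hxy' hij,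
            hkey hxy hlj.symm, hkey hxy' hlj.symm, hkey hxy hli.symm, hkey hxy' hli.symm,
            ← or_and_right]
      · exact ite_cg_h64 Iff.rfl rfl (ite_cg_h64 Iff.rfl rfl rfl)
  have hsetfin : ∀ (inst : DecidableEq ι) (x y : ι),
      (@insert ι (Finset ι) (@Finset.instInsert ι inst) x {y} = T) ↔
        ({x, y} : Set ι) = {i, j} := by
    intro inst x y
    rw [Finset.ext_iff, Set.ext_iff]
    refine forall_congr' fun t => ?_
    rw [hTm, Finset.mem_insert, Finset.mem_singleton, Set.mem_insert_iff, Set.mem_singleton_iff,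
      Set.mem_insert_iff, Set.mem_singleton_iff]
  refine ⟨?_, ?_, ?_⟩
  · intro x y hxy
    rw [hDV.lead x y hxy]
    simp only [Finset.sum_const_zero, sub_self, add_zero]
    exact ite_cg_h64 (hsetfin _ x y).symm rfl rfl
  · intro x y hxy a b hab
    have hne : nd x y a ≠ nd x y b := fun he => hab (hN.inj x y hxy he)
    rw [hDV.dif _ (hnode x y hxy a) _ (hnode x y hxy b) hne]
    refine (hval x y x y a b hxy hxy hne).trans ?_
    have h0 : ∀ l ∈ L, (if ({x, y} : Set ι) = {i, j} ∧
            (({x, y} : Set ι) = {j, l} ∨ ({x, y} : Set ι) = {i, l})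
          then (if a = z then (1 : ZMod ℓ) else 0) - (if a = b then 1 else 0)
          else if (({x, y} : Set ι) = {j, l} ∨ ({x, y} : Set ι) = {i, l}) ∧
              ({x, y} : Set ι) = {i, j}
            then (if b = z then 1 else 0) - (if a = b then 1 else 0) else 0) = 0 := by
      intro l hl
      obtain ⟨hli, hlj⟩ := (hLm l).1 hl
      have hex : ¬ (({x, y} : Set ι) = {i, j} ∧
          (({x, y} : Set ι) = {j, l} ∨ ({x, y} : Set ι) = {i, l})) := by
        rintro ⟨h1, h2 | h2⟩
        · rw [h1] at h2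
          have h3 : l ∈ ({i, j} : Set ι) := by rw [h2]; simp
          rcases h3 with h3 | h3
          · exact hli h3
          · exact hlj h3
        · rw [h1] at h2
          have h3 : l ∈ ({i, j} : Set ι) := by rw [h2]; simp
          rcases h3 with h3 | h3
          · exact hli h3
          · exact hlj h3
      rw [if_neg hex, if_neg (fun hh => hex hh.symm)]
    rw [Finset.sum_eq_zero h0, add_zero]
    by_cases h1 : ({x, y} : Set ι) = {i, j}
    · by_cases h2 : a = z ∨ b = z
      · rw [if_pos (by tauto), if_pos (by tauto)]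
        simp
      · rw [if_neg (by tauto), if_neg (by tauto)]
        simp
    · rw [if_neg (by tauto), if_neg (by tauto)]
      simp
  · intro x y w hxy hyw hxw a b
    have hne1 : ({x, y} : Set ι) ≠ {x, w} := by
      intro he
      have h3 : w ∈ ({x, y} : Set ι) := by rw [he]; simp
      rcases h3 with h3 | h3
      · exact hxw h3.symm
      · exact hyw h3.symm
    have hne : nd x y a ≠ nd x w b := fun he => hne1 ((hkey hxy hxw).1 he).1
    rw [hDV.dif _ (hnode x y hxy a) _ (hnode x w hxw b) hne]
    refine (hval x y x w a b hxy hxw hne).trans ?_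
    have hc3 : ∀ inst : DecidableEq ι, ¬ (@insert ι (Finset ι) (@Finset.instInsert ι inst) x
        (@insert ι (Finset ι) (@Finset.instInsert ι inst) y {w}) = T) := by
      intro inst he
      have h1 := (hTm x).1 (by rw [← he]; simp)
      have h2 := (hTm y).1 (by rw [← he]; simp)
      have h3 := (hTm w).1 (by rw [← he]; simp)
      rcases h1 with h1 | h1 <;> rcases h2 with h2 | h2
      · exact hxy (h1.trans h2.symm)
      · rcases h3 with h3 | h3
        · exact hxw (h1.trans h3.symm)
        · exact hyw (h2.trans h3.symm)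
      · rcases h3 with h3 | h3
        · exact hyw (h2.trans h3.symm)
        · exact hxw (h1.trans h3.symm)
      · exact hxy (h1.trans h2.symm)
    refine Eq.trans (b := if a = b then ((0 : ZMod ℓ) - (if ({x, y} : Set ι) = {i, j} then 1 else 0)) -
      (if ({x, w} : Set ι) = {i, j} then 1 else 0) else 0) ?_ (ite_cg_h64 (Iff.rfl : a = b ↔ a = b)
      (congrArg₂ (fun x y : ZMod ℓ => x - y) (congrArg₂ (fun x y : ZMod ℓ => x - y)
        (if_neg (hc3 _)).symm (ite_cg_h64 (hsetfin _ x y).symm rfl rfl))
        (ite_cg_h64 (hsetfin _ x w).symm rfl rfl)) rfl)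
    have hDz : ¬ (({x, y} : Set ι) = {i, j} ∧ ({x, w} : Set ι) = {i, j} ∧ (a = z ∨ b = z)) :=
      fun hh => hne1 (hh.1.trans hh.2.1.symm)
    rw [if_neg hDz, add_zero]
    by_cases h1 : ({x, y} : Set ι) = {i, j}
    · have h2 : ({x, w} : Set ι) ≠ {i, j} := fun hh => hne1 (h1.trans hh.symm)
      have hwL : w ∈ L := by
        rw [hLm]
        constructor
        · rintro rfl
          have h3 : w ∈ ({x, y} : Set ι) := by rw [h1]; simp
          rcases h3 with h3 | h3
          · exact hxw h3.symm
          · exact hyw h3.symm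
        · rintro rfl
          have h3 : w ∈ ({x, y} : Set ι) := by rw [h1]; simp
          rcases h3 with h3 | h3
          · exact hxw h3.symm
          · exact hyw h3.symm
      have hx : x = i ∨ x = j := by
        have h3 : x ∈ ({i, j} : Set ι) := by rw [← h1]; simp
        exact h3
      rw [Finset.sum_eq_single w]
      · have h3 : ({x, w} : Set ι) = {j, w} ∨ ({x, w} : Set ι) = {i, w} := by
          rcases hx with rfl | rfl
          · right; rfl
          · left; rfl
        have p1 := eq_true h1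
        have p2 := eq_false h2
        have p3 := eq_true h3
        simp only [p1, p2, p3, true_and, false_and, or_false, if_true, if_false]
        by_cases h4 : a = z
        · by_cases h5 : a = b
          · simp only [eq_true h4, eq_true h5, if_true]; ring
          · simp only [eq_true h4, eq_false h5, if_true, if_false]; ring
        · by_cases h5 : a = b
          · simp only [eq_false h4, eq_true h5, if_true, if_false]; ring
          · simp only [eq_false h4, eq_false h5, if_false]; ring
      · intro l hl hlw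
        obtain ⟨hli, hlj⟩ := (hLm l).1 hl
        have h3 : ¬ (({x, w} : Set ι) = {j, l} ∨ ({x, w} : Set ι) = {i, l}) := by
          have key : ∀ t : ι, ({x, w} : Set ι) ≠ {t, l} := by
            intro t ht
            have h4 : l ∈ ({x, w} : Set ι) := by rw [ht]; simp
            rcases h4 with h4 | h4
            · rcases hx with h5 | h5
              · exact hli (h4.trans h5)
              · exact hlj (h4.trans h5)
            · exact hlw h4
          rintro (h4 | h4)
          · exact key j h4
          · exact key i h4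
        rw [if_neg (fun hh => h3 hh.2), if_neg (fun hh => h2 hh.2)]
      · exact fun hh => absurd hwL hh
    · by_cases h2 : ({x, w} : Set ι) = {i, j}
      · have hyL : y ∈ L := by
          rw [hLm]
          constructor
          · rintro rfl
            have h3 : y ∈ ({x, w} : Set ι) := by rw [h2]; simp
            rcases h3 with h3 | h3
            · exact hxy h3.symm
            · exact hyw h3
          · rintro rfl
            have h3 : y ∈ ({x, w} : Set ι) := by rw [h2]; simp
            rcases h3 with h3 | h3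
            · exact hxy h3.symm
            · exact hyw h3
        have hx : x = i ∨ x = j := by
          have h3 : x ∈ ({i, j} : Set ι) := by rw [← h2]; simp
          exact h3
        rw [Finset.sum_eq_single y]
        · have h3 : ({x, y} : Set ι) = {j, y} ∨ ({x, y} : Set ι) = {i, y} := by
            rcases hx with rfl | rfl
            · right; rfl
            · left; rfl
          have p1 := eq_false h1
          have p2 := eq_true h2
          have p3 := eq_true h3
          simp only [p1, p2, p3, true_and, false_and, false_or, if_true, if_false]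
          by_cases h4 : b = z
          · by_cases h5 : a = b
            · simp only [eq_true h4, eq_true h5, if_true]; ring
            · simp only [eq_true h4, eq_false h5, if_true, if_false]; ring
          · by_cases h5 : a = b
            · simp only [eq_false h4, eq_true h5, if_true, if_false]; ring
            · simp only [eq_false h4, eq_false h5, if_false]; ring
        · intro l hl hly
          obtain ⟨hli, hlj⟩ := (hLm l).1 hl
          have h3 : ¬ (({x, y} : Set ι) = {j, l} ∨ ({x, y} : Set ι) = {i, l}) := by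
            have key : ∀ t : ι, ({x, y} : Set ι) ≠ {t, l} := by
              intro t ht
              have h4 : l ∈ ({x, y} : Set ι) := by rw [ht]; simp
              rcases h4 with h4 | h4
              · rcases hx with h5 | h5
                · exact hli (h4.trans h5)
                · exact hlj (h4.trans h5)
              · exact hly h4
            rintro (h4 | h4)
            · exact key j h4
            · exact key i h4
          rw [if_neg (fun hh => h1 hh.1), if_neg (fun hh => h3 hh.1)]
        · exact fun hh => absurd hyL hh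
      · have h0 : ∀ l ∈ L, (if ({x, y} : Set ι) = {i, j} ∧
              (({x, w} : Set ι) = {j, l} ∨ ({x, w} : Set ι) = {i, l})
            then (if a = z then (1 : ZMod ℓ) else 0) - (if a = b then 1 else 0)
            else if (({x, y} : Set ι) = {j, l} ∨ ({x, y} : Set ι) = {i, l}) ∧
                ({x, w} : Set ι) = {i, j}
              then (if b = z then 1 else 0) - (if a = b then 1 else 0) else 0) = 0 := by
          intro l _
          rw [if_neg (fun hh => h1 hh.1), if_neg (fun hh => h2 hh.2)]
        rw [Finset.sum_eq_zero h0, add_zero]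
        simp [h1, h2]

end Pool.Agent.Lib.MP_89bcae_ag
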