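import Mathlib
import Pool.Agent.Lib.MP_89bcae_ag.Gr.E05

/-!
# Homomorphisms with arbitrary symbols
-/

open Polynomial

open scoped Classical

namespace Pool.Agent.Lib.MP_89bcae_ag

open Superelliptic

variable {ι : Type} [Fintype ι] [LinearOrder ι] {n : ℕ} {F : Type} [Field F] [Algebra ℚ F]

theorem card_pair_h57 {κ : Type} (inst : DecidableEq κ) {a b : κ} (h : a ≠ b) :
    (@insert κ (Finset κ) (@Finset.instInsert κ inst) a {b}).card = 2 := Finset.card_pair h

theorem card_triple_h57 {κ : Type} (inst : DecidableEq κ) {a b c : κ} (hab : a ≠ b) (hac : a ≠ c)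
    (hbc : b ≠ c) : (@insert κ (Finset κ) (@Finset.instInsert κ inst) a
      (@insert κ (Finset κ) (@Finset.instInsert κ inst) b {c})).card = 3 :=
  Finset.card_eq_three.2 ⟨a, b, c, hab, hac, hbc, rfl⟩

/-- Linear combinations of homomorphisms which are `IsVal`. -/
theorem isVal_sum_h57 {ℓ : ℕ} {K : Subfield F} {κ : Type} (s : Finset κ) (c : κ → ZMod ℓ)
    (ν : κ → F → ZMod ℓ) (h : ∀ T, IsVal K (ν T)) : IsVal K (fun x => ∑ T ∈ s, c T * ν T x) where
  mul x hx y hy hx0 hy0 := by
    rw [← Finset.sum_add_distrib]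
    refine Finset.sum_congr rfl (fun T _ => ?_)
    rw [(h T).mul x hx y hy hx0 hy0, mul_add]
  neg_one := Finset.sum_eq_zero (fun T _ => by rw [(h T).neg_one, mul_zero])

/-- Linear combinations of homomorphisms which are `CopyV`. -/
theorem copyV_sum_h57 {ℓ : ℕ} {α : ι → ℚ[X]} {nd : ι → ι → Fin n → F} {κ : Type} (s : Finset κ)
    (c : κ → ZMod ℓ) (ν : κ → F → ZMod ℓ) (C : κ → Finset ι → ZMod ℓ) (h : ∀ T, CopyV (ν T) α nd (C T)) :
    CopyV (fun x => ∑ T ∈ s, c T * ν T x) α nd (fun T' => ∑ T ∈ s, c T * C T T') where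
  lead i j hij := Finset.sum_congr rfl (fun T _ => by rw [(h T).lead i j hij])
  par i j hij a b hab := Finset.sum_eq_zero (fun T _ => by rw [(h T).par i j hij a b hab, mul_zero])
  adj i j l hij hjl hil a b := by
    rw [← Finset.sum_sub_distrib, ← Finset.sum_sub_distrib]
    by_cases hab : a = b
    · rw [if_pos hab]
      refine Finset.sum_congr rfl (fun T _ => ?_)
      rw [(h T).adj i j l hij hjl hil a b, if_pos hab]
      ring
    · rw [if_neg hab]
      refine Finset.sum_eq_zero (fun T _ => ?_)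
      rw [(h T).adj i j l hij hjl hil a b, if_neg hab, mul_zero]

/-- All symbols. Proof: for `T` with `T.card = 3` or `T.card = 2` let `ν_T` be that of `copyV_triple`,
`copyV_pair`, and `ν_T = 0` otherwise; take `ν = ∑ T : Finset ι, B T • ν_T` (or `B T * ν_T x`). All the
conditions of `CopyV` and `IsVal` are linear; `∑ T, B T * (if {i, j} = T then 1 else 0) = B {i, j}` (the
`T` with `T.card ≠ 2, 3` do not contribute at pairs and triples). -/
theorem copyV_all [IsAlgClosure ℚ F] {ℓ : ℕ} (hℓ : ℓ.Prime) {v : ι × Fin (n + 1) → ℤ}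
    (h : GoodH v) (hn : 2 ≤ n) {nd : ι → ι → Fin n → F} (hN : Nodes (gpolQ v) nd)
    (B : Finset ι → ZMod ℓ) :
    ∃ ν : F → ZMod ℓ, IsVal (IntermediateField.adjoin ℚ (nodes ℚ F (gpolQ v))).toSubfield ν ∧
      CopyV ν (gpolQ v) nd B := by
  have key : ∀ T : Finset ι, ∃ ν : F → ZMod ℓ,
      IsVal (IntermediateField.adjoin ℚ (nodes ℚ F (gpolQ v))).toSubfield ν ∧
      CopyV ν (gpolQ v) nd (fun T' => if T' = T then 1 else 0) := by
    intro T
    by_cases h3 : T.card = 3
    · exact copyV_triple hℓ h (by omega) hN h3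
    by_cases h2 : T.card = 2
    · exact copyV_pair hℓ h hn hN h2
    refine ⟨fun _ => 0, ⟨fun _ _ _ _ _ _ => (add_zero 0).symm, rfl⟩, ⟨?_, ?_, ?_⟩⟩
    · intro i j hij
      refine (if_neg ?_).symm
      intro he
      exact h2 (by rw [← he]; exact card_pair_h57 _ hij)
    · intro i j hij a b hab
      rfl
    · intro i j l hij hjl hil a b
      by_cases hab : a = b
      · rw [if_pos hab, if_neg, if_neg, if_neg]
        · ring
        · intro he
          exact h2 (by rw [← he]; exact card_pair_h57 _ hil)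
        · intro he
          exact h2 (by rw [← he]; exact card_pair_h57 _ hij)
        · intro he
          exact h3 (by rw [← he]; exact card_triple_h57 _ hij hil hjl)
      · rw [if_neg hab]
  choose ν hν1 hν2 using key
  refine ⟨fun x => ∑ T : Finset ι, B T * ν T x, isVal_sum_h57 Finset.univ B ν hν1, ?_⟩
  have h5 := copyV_sum_h57 Finset.univ B ν (fun T T' => if T' = T then 1 else 0) hν2
  have h6 : (fun T' : Finset ι => ∑ T : Finset ι, B T * (if T' = T then (1 : ZMod ℓ) else 0)) = B := by
    funext T'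
    simp only [mul_ite, mul_one, mul_zero]
    rw [Finset.sum_ite_eq]
    simp
  rw [h6] at h5
  exact h5

theorem exists_numbering_h43 [IsAlgClosure ℚ F] {v : ι × Fin (n + 1) → ℤ} (h : GoodH v) {i j : ι}
    (hij : i ≠ j) : ∃ g : Fin n → F, Function.Injective g ∧
      ∀ s : F, aeval s (gpolQ v i) = aeval s (gpolQ v j) ↔ ∃ a, g a = s := by
  obtain ⟨p, hp, hI⟩ := h.good.typeI i j hij
  obtain ⟨R, hR1, hR2⟩ := exists_roots (F := F) (separable_of_typeI v hp hI)
  have hd : (gpolQ v i - gpolQ v j).natDegree = n := h.good.natDegree hij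
  have hmap : (gdif v i j).map (algebraMap ℤ F) =
      (gpolQ v i - gpolQ v j).map (algebraMap ℚ F) := by
    rw [← gdif_map_rat, Polynomial.map_map, ← algebraMap_int_eq, ← IsScalarTower.algebraMap_eq]
  have hd2 : ((gdif v i j).map (algebraMap ℤ F)).natDegree = n := by
    rw [hmap, natDegree_map, hd]
  have hne : (gpolQ v i - gpolQ v j).map (algebraMap ℚ F) ≠ 0 := by
    rw [Polynomial.map_ne_zero_iff (algebraMap ℚ F).injective]
    exact (separable_of_typeI v hp hI).ne_zero
  have hc0 : algebraMap ℤ F (gdif v i j).leadingCoeff ≠ 0 := by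
    intro hc
    rw [hc, C_0, zero_mul] at hR2
    exact hne (hmap.symm.trans hR2)
  have hcard : R.card = n := by
    rw [hR2, natDegree_C_mul hc0, natDegree_prod_of_monic _ _ (fun s _ => monic_X_sub_C s)] at hd2
    simpa using hd2
  let e := (Finset.equivFinOfCardEq hcard).symm
  refine ⟨fun a => (e a : F), Subtype.val_injective.comp e.injective, fun s => ?_⟩
  rw [← hR1 s]
  constructor
  · intro hs
    exact ⟨e.symm ⟨s, hs⟩, by simp⟩
  · rintro ⟨a, rfl⟩
    exact (e a).2

/-- A numbering of the nodes. Proof: for `i < j` the polynomial `α_i - α_j` has degree `n`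
(`GoodG.natDegree`) and is separable, so it has exactly `n` roots in `F` (`exists_roots`); take a bijection
`Fin n ≃ roots` (`Finset.equivFinOfCardEq`, or `Finset.orderIsoOfFin` is not available) for `i < j` and
`nd j i = nd i j`; `nd i i` is arbitrary. -/
theorem exists_nodes [IsAlgClosure ℚ F] {v : ι × Fin (n + 1) → ℤ} (h : GoodH v) :
    ∃ nd : ι → ι → Fin n → F, Nodes (gpolQ v) nd := by
  have key : ∀ i j : ι, i < j → ∃ g : Fin n → F, Function.Injective g ∧
      ∀ s : F, aeval s (gpolQ v i) = aeval s (gpolQ v j) ↔ ∃ a, g a = s :=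
    fun i j hij => exists_numbering_h43 h hij.ne
  choose! g hg using key
  refine ⟨fun i j => if i < j then g i j else g j i, ?_, ?_, ?_, ?_⟩
  · intro i j a
    rcases lt_trichotomy i j with hij | hij | hij
    · simp only [if_pos hij, if_neg hij.le.not_gt]
    · rw [hij]
    · simp only [if_pos hij, if_neg hij.le.not_gt]
  · intro i j hij
    rcases lt_or_gt_of_ne hij with h1 | h1
    · simp only [if_pos h1]
      exact (hg i j h1).1
    · simp only [if_neg h1.le.not_gt]
      exact (hg j i h1).1
  · intro i j hij s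
    rcases lt_or_gt_of_ne hij with h1 | h1
    · simp only [if_pos h1]
      exact (hg i j h1).2 s
    · simp only [if_neg h1.le.not_gt]
      rw [eq_comm]
      exact (hg j i h1).2 s
  · intro i j hij
    exact h.good.natDegree hij

end Pool.Agent.Lib.MP_89bcae_ag
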