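import Mathlib
import Pool.Agent.Lib.MP_89bcae_ag.Gr.E06
import Pool.Agent.Lib.MP_89bcae_ag.Tow.M11

/-!
# An automorphism with arbitrary symbols
-/

open Polynomial

open scoped Classical

namespace Pool.Agent.Lib.MP_89bcae_ag

open Superelliptic

variable {ι : Type} [Fintype ι] [LinearOrder ι] {n : ℕ} {F : Type} [Field F] [Algebra ℚ F]

/-- Proof: `K = CyclotomicField ℓ ℚ` with an embedding in `F` (`letI : Algebra K F`, as in
`graphCovers8`, `Gph/Fin.lean`); `ν₀` of `copyV_all`; `exists_extend_val` (`Gph/Norm.lean`, `S` the nodes,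
`nodes_gpolQ_finite`) extends it to `ν` on `K(S)`. `E = (IntermediateField.adjoin K S).restrictScalars ℚ`,
finite over `ℚ`; `ζ` the primitive root of `K` in `E`. `Sup.exists_U_of_lam` for `k := E`, `K := ⊥`,
`lam := ν` and `T` the finite set of the leading coefficients and of the differences of different nodes
(not zero: `Nodes.inj`, `Nodes.ne`) gives `U`; all values of `CopyV` are at elements of `T`, in `ℚ(S)`,
where `ν = ν₀`. -/
theorem exists_U_graphs [IsAlgClosure ℚ F] {ℓ : ℕ} (hℓ : ℓ.Prime) {v : ι × Fin (n + 1) → ℤ}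
    (h : GoodH v) (hn : 2 ≤ n) {nd : ι → ι → Fin n → F} (hN : Nodes (gpolQ v) nd)
    (B : Finset ι → ZMod ℓ) :
    ∃ (E : IntermediateField ℚ F) (ζ : E) (U : F ≃ₐ[E] F), FiniteDimensional ℚ E ∧
      IsPrimitiveRoot ζ ℓ ∧ (∀ i j, i ≠ j → ∀ a, nd i j a ∈ E) ∧
      CopyV (fun x => Sup.kap ℓ (algebraMap E F ζ) U x) (gpolQ v) nd B := by
  have hF : IsAlgClosed F := IsAlgClosure.isAlgClosed ℚ
  have halg : Algebra.IsAlgebraic ℚ F := IsAlgClosure.isAlgebraic
  have hF0 : CharZero F := algebraRat.charZero F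
  have hne0 : NeZero ℓ := ⟨hℓ.ne_zero⟩
  have hfact : Fact ℓ.Prime := ⟨hℓ⟩
  obtain ⟨ν₀, hν₀, hC⟩ := copyV_all hℓ h hn hN B
  obtain ⟨S, hSdef⟩ : ∃ S, S = nodes ℚ F (gpolQ v) := ⟨_, rfl⟩
  rw [← hSdef] at hν₀
  have hS : S.Finite := by
    rw [hSdef]
    refine nodes_gpolQ_finite fun a b hab he => ?_
    have h1 := h.good.natDegree hab
    rw [he, sub_self, natDegree_zero] at h1
    omega
  have hint : ∀ s ∈ S, IsIntegral ℚ s := fun s _ => (halg.isAlgebraic s).isIntegral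
  have hmem : ∀ i j, i ≠ j → ∀ a, nd i j a ∈ S := by
    intro i j hij a
    rw [hSdef]
    exact ⟨i, j, hij, (hN.mem i j hij _).2 ⟨a, rfl⟩⟩
  -- the cyclotomic field
  let K := CyclotomicField ℓ ℚ
  letI : Algebra ℚ K := CyclotomicField.algebra ℓ ℚ
  haveI : IsCyclotomicExtension {ℓ} ℚ K := inferInstance
  haveI hfin : FiniteDimensional ℚ K := IsCyclotomicExtension.finiteDimensional {ℓ} ℚ K
  let e : K →ₐ[ℚ] F := IsAlgClosed.lift
  letI : Algebra K F := e.toRingHom.toAlgebra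
  haveI : IsScalarTower ℚ K F := IsScalarTower.of_algebraMap_eq fun x => (e.commutes x).symm
  obtain ⟨ν, hν, hνe⟩ := exists_extend_val hℓ K F S hS hint ν₀ hν₀
  obtain ⟨z, hz⟩ := IsCyclotomicExtension.exists_isPrimitiveRoot (S := {ℓ}) ℚ K
    (Set.mem_singleton ℓ) hℓ.ne_zero
  have hzF : IsPrimitiveRoot (algebraMap K F z) ℓ := hz.map_of_injective (algebraMap K F).injective
  -- the field `E`
  haveI hSfin : Finite S := hS.to_subtype
  haveI hfdK : FiniteDimensional K (IntermediateField.adjoin K S) :=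
    IntermediateField.finiteDimensional_adjoin fun x hx => (hint x hx).tower_top
  let E : IntermediateField ℚ F := (IntermediateField.adjoin K S).restrictScalars ℚ
  have hEmem : ∀ x : F, x ∈ E ↔ x ∈ IntermediateField.adjoin K S := fun x => Iff.rfl
  have hfd : FiniteDimensional ℚ E := by
    have h1 : FiniteDimensional ℚ (IntermediateField.adjoin K S) :=
      FiniteDimensional.trans ℚ K (IntermediateField.adjoin K S)
    exact h1
  let ζ : E := ⟨algebraMap K F z, (IntermediateField.adjoin K S).algebraMap_mem z⟩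
  have hζF : IsPrimitiveRoot (algebraMap E F ζ) ℓ := hzF
  have hζ : IsPrimitiveRoot ζ ℓ := hζF.of_map_of_injective (algebraMap E F).injective
  have hℓE : ((ℓ : ℕ) : E) ≠ 0 := by
    have h1 : CharZero E := inferInstance
    exact Nat.cast_ne_zero.2 hℓ.ne_zero
  have halgE : Algebra.IsAlgebraic E F := Algebra.IsAlgebraic.tower_top (K := ℚ) E
  -- the elements at which the symbol is prescribed
  let N : Finset F := hS.toFinset
  let T : Finset F := ((Finset.univ : Finset (ι × ι)).filter fun x => x.1 ≠ x.2).image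
      (fun x => algebraMap ℚ F (gpolQ v x.1 - gpolQ v x.2).leadingCoeff) ∪
    ((N ×ˢ N).filter fun x => x.1 ≠ x.2).image fun x => x.1 - x.2
  have hlead0 : ∀ i j, i ≠ j → algebraMap ℚ F (gpolQ v i - gpolQ v j).leadingCoeff ≠ 0 := by
    intro i j hij h0
    rw [map_eq_zero, leadingCoeff_eq_zero] at h0
    have h1 := h.good.natDegree hij
    rw [h0, natDegree_zero] at h1
    omega
  have hSE : ∀ s ∈ S, s ∈ E := fun s hs => IntermediateField.subset_adjoin K S hs
  have hbot : ∀ x : F, x ∈ E → x ∈ (⊥ : IntermediateField E F) := fun x hx =>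
    IntermediateField.mem_bot.2 ⟨⟨x, hx⟩, rfl⟩
  have hbot' : ∀ x : F, x ∈ (⊥ : IntermediateField E F) → x ∈ E := by
    intro x hx
    obtain ⟨y, hy⟩ := IntermediateField.mem_bot.1 hx
    rw [← hy]
    exact y.2
  have hT : ∀ x ∈ T, x ∈ (⊥ : IntermediateField E F) ∧ x ≠ 0 := by
    intro x hx
    rcases Finset.mem_union.1 hx with h1 | h1
    · obtain ⟨⟨i, j⟩, h2, h3⟩ := Finset.mem_image.1 h1
      have hij : i ≠ j := (Finset.mem_filter.1 h2).2
      rw [← h3]
      exact ⟨hbot _ (E.algebraMap_mem _), hlead0 i j hij⟩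
    · obtain ⟨⟨s, t⟩, h2, h3⟩ := Finset.mem_image.1 h1
      obtain ⟨h4, h5⟩ := Finset.mem_filter.1 h2
      obtain ⟨h6, h7⟩ := Finset.mem_product.1 h4
      rw [← h3]
      refine ⟨hbot _ (E.sub_mem (hSE _ (hS.mem_toFinset.1 h6)) (hSE _ (hS.mem_toFinset.1 h7))), ?_⟩
      exact sub_ne_zero.2 h5
  obtain ⟨U, -, hU⟩ := Sup.exists_U_of_lam (k := E) (F := F) hℓ hℓE hζ ⊥ ν
    (fun x hx y hy hx0 hy0 => hν.mul x (hbot' x hx) y (hbot' y hy) hx0 hy0) T hT
  have hsub : ∀ s ∈ S, ∀ t ∈ S, s ≠ t →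
      Sup.kap ℓ (algebraMap E F ζ) U (s - t) = ν₀ (s - t) := by
    intro s hs t ht hst
    rw [hU (s - t) (Finset.mem_union.2 (Or.inr (Finset.mem_image.2 ⟨(s, t),
      Finset.mem_filter.2 ⟨Finset.mem_product.2 ⟨hS.mem_toFinset.2 hs, hS.mem_toFinset.2 ht⟩, hst⟩,
      rfl⟩)))]
    exact hνe _ (sub_mem (IntermediateField.subset_adjoin ℚ S hs)
      (IntermediateField.subset_adjoin ℚ S ht))
  refine ⟨E, ζ, U, hfd, hζ, fun i j hij a => hSE _ (hmem i j hij a), ?_, ?_, ?_⟩
  · intro i j hij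
    show Sup.kap ℓ (algebraMap E F ζ) U _ = _
    rw [hU _ (Finset.mem_union.2 (Or.inl (Finset.mem_image.2 ⟨(i, j),
      Finset.mem_filter.2 ⟨Finset.mem_univ _, hij⟩, rfl⟩)))]
    rw [hνe _ ((IntermediateField.adjoin ℚ S).algebraMap_mem _)]
    exact hC.lead i j hij
  · intro i j hij a b hab
    show Sup.kap ℓ (algebraMap E F ζ) U _ = _
    rw [hsub _ (hmem i j hij a) _ (hmem i j hij b) fun h1 => hab (hN.inj i j hij h1)]
    exact hC.par i j hij a b hab
  · intro i j l hij hjl hil a b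
    show Sup.kap ℓ (algebraMap E F ζ) U _ = _
    rw [hsub _ (hmem i j hij a) _ (hmem i l hil b) ?_]
    · exact hC.adj i j l hij hjl hil a b
    · intro h1
      have h2 := (Nodes.ne h hN hij hil h1).1
      rcases Set.pair_eq_pair_iff.1 h2 with ⟨-, h3⟩ | ⟨h3, -⟩
      · exact hjl h3
      · exact hil h3

end Pool.Agent.Lib.MP_89bcae_ag
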