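import Mathlib
import Pool.Agent.Lib.MP_89bcae_ag.Gr.E07
import Pool.Agent.Lib.MP_89bcae_ag.Lr.B03
import Pool.Agent.Lib.MP_89bcae_ag.Re.N17
import Pool.Agent.Lib.MP_89bcae_ag.Gr.E02

/-!
# Prime fields with arbitrary symbols
-/

open Polynomial

open scoped Classical

namespace Pool.Agent.Lib.MP_89bcae_ag

open Superelliptic

variable {ι : Type} [Fintype ι] [LinearOrder ι] {n : ℕ}

/-- A unit is coprime to everything. -/
theorem isCoprime_of_isUnit_left_h32 {R : Type*} [CommSemiring R] {a : R} (h : IsUnit a) (b : R) :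
    IsCoprime a b := by
  obtain ⟨u, rfl⟩ := h
  exact ⟨↑u⁻¹, 0, by simp⟩

/-- The factorisation of the reduction of one difference. -/
theorem gdif_reduction_h32 {F : Type} [Field F] [Algebra ℚ F] {v : ι × Fin (n + 1) → ℤ}
    {nd : ι → ι → Fin n → F} (hN : Nodes (gpolQ v) nd) {q : ℕ}
    (A : Subring F) (Φ : A →+* ZMod q) (hA : ∀ i j, i ≠ j → ∀ a, nd i j a ∈ A)
    (hlc : ∀ i j, i ≠ j → ((v (i, Fin.last n) - v (j, Fin.last n) : ℤ) : ZMod q) ≠ 0)
    (i j : ι) (hij : i ≠ j) :
    gpol (fun x => (v x : ZMod q)) i - gpol (fun x => (v x : ZMod q)) j =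
      C ((v (i, Fin.last n) - v (j, Fin.last n) : ℤ) : ZMod q) *
        ∏ a, (X - C (Φ ⟨nd i j a, hA i j hij a⟩)) := by
  have : CharZero F := algebraRat.charZero F
  have hv : v (i, Fin.last n) - v (j, Fin.last n) ≠ 0 := by
    intro h
    apply hlc i j hij
    rw [h]
    simp
  have hcoef : (gpolQ v i - gpolQ v j).coeff n = ((v (i, Fin.last n) - v (j, Fin.last n) : ℤ) : ℚ) := by
    have := gdif_coeff (fun x => (v x : ℚ)) i j (Fin.last n)
    unfold gdif at this
    rw [Fin.val_last] at this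
    unfold gpolQ
    rw [this]
    push_cast
    ring
  have hne : gpolQ v i ≠ gpolQ v j := by
    intro h
    rw [h, sub_self, coeff_zero] at hcoef
    exact hv (by exact_mod_cast hcoef.symm)
  have h1 := hN.prod_eq hij hne
  have hlead : (gpolQ v i - gpolQ v j).leadingCoeff =
      ((v (i, Fin.last n) - v (j, Fin.last n) : ℤ) : ℚ) := by
    rw [← hcoef, leadingCoeff, hN.lead i j hij]
  rw [hlead] at h1
  -- the identity in `A[X]`
  have h2 : gdif (fun x => ((v x : ℤ) : A)) i j =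
      C ((v (i, Fin.last n) - v (j, Fin.last n) : ℤ) : A) *
        ∏ a, (X - C (⟨nd i j a, hA i j hij a⟩ : A)) := by
    apply Polynomial.map_injective A.subtype Subtype.val_injective
    rw [gdif_map, Polynomial.map_mul, Polynomial.map_prod, map_C]
    have e1 : gdif (fun x => A.subtype ((v x : ℤ) : A)) i j =
        (gpolQ v i - gpolQ v j).map (algebraMap ℚ F) := by
      unfold gpolQ
      change _ = (gdif (fun x => (v x : ℚ)) i j).map (algebraMap ℚ F)
      rw [gdif_map]
      congr 1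
      funext x
      rw [map_intCast, map_intCast]
    rw [e1, h1]
    congr 1
    · rw [map_intCast (algebraMap ℚ F), map_intCast A.subtype]
    · refine Finset.prod_congr rfl fun a _ => ?_
      rw [Polynomial.map_sub, map_X, map_C]
      rfl
  have h3 := congrArg (Polynomial.map Φ) h2
  rw [gdif_map, Polynomial.map_mul, Polynomial.map_prod, map_C] at h3
  have e2 : (fun x => Φ ((v x : ℤ) : A)) = fun x : ι × Fin (n + 1) => ((v x : ℤ) : ZMod q) := by
    funext x
    rw [map_intCast]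
  rw [e2, map_intCast] at h3
  unfold gdif at h3
  rw [h3]
  congr 1
  refine Finset.prod_congr rfl fun a _ => ?_
  rw [Polynomial.map_sub, map_X, map_C]

/-- The reduction of a family whose differences split. Proof: let `v'` be the reduction of `v`. In `F[X]`,
`(gdif v i j).map = C lc * ∏ a, (X - C (nd i j a))` (`Nodes.prod_eq`); both sides have coefficients in the
subring `A` of `F`, so this holds in `A[X]` (`Polynomial.map_injective`) and, applying `Φ`, in `(ZMod q)[X]`
with `Φ (nd i j a)` and `Φ lc = v'(i, n) - v'(j, n) ≠ 0` (`hlc`). So `gpol v' i - gpol v' j` has degree `n` and the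
roots `Φ (nd i j a)`, which are different by `hd`: this is `Nodes`. `IsArrangement`: the product over
`i < j` is a constant times the product of the `X - C s` over the different elements
`s = Φ (nd i j a)` (`hd`; `Polynomial.separable_prod'`). -/
theorem nodes_reduction {F : Type} [Field F] [Algebra ℚ F] {v : ι × Fin (n + 1) → ℤ}
    (hn : 1 ≤ n) {nd : ι → ι → Fin n → F} (hN : Nodes (gpolQ v) nd) {q : ℕ} [Fact q.Prime]
    (A : Subring F) (Φ : A →+* ZMod q) (hA : ∀ i j, i ≠ j → ∀ a, nd i j a ∈ A)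
    (hlc : ∀ i j, i ≠ j → ((v (i, Fin.last n) - v (j, Fin.last n) : ℤ) : ZMod q) ≠ 0)
    (hd : ∀ i j i' j' (hij : i ≠ j) (hij' : i' ≠ j') (a a' : Fin n),
      (({i, j} : Set ι) ≠ {i', j'} ∨ a ≠ a') →
        Φ ⟨nd i j a, hA i j hij a⟩ ≠ Φ ⟨nd i' j' a', hA i' j' hij' a'⟩) :
    IsArrangement (gpol (fun x => (v x : ZMod q))) ∧
      Nodes (F := ZMod q) (gpol (fun x => (v x : ZMod q)))
        (fun i j a => if hij : i = j then 0 else Φ ⟨nd i j a, hA i j hij a⟩) := by
  have key := gdif_reduction_h32 hN A Φ hA hlc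
  have hcu : ∀ i j, i ≠ j →
      IsUnit (C ((v (i, Fin.last n) - v (j, Fin.last n) : ℤ) : ZMod q) : (ZMod q)[X]) := by
    intro i j hij
    exact Polynomial.isUnit_C.2 (isUnit_iff_ne_zero.2 (hlc i j hij))
  have hmon : ∀ i j (hij : i ≠ j), (∏ a, (X - C (Φ ⟨nd i j a, hA i j hij a⟩)) :
      (ZMod q)[X]).natDegree = n := by
    intro i j hij
    rw [Polynomial.natDegree_prod_of_monic _ _ (fun a _ => monic_X_sub_C _)]
    simp
  have hdeg : ∀ i j, i ≠ j →
      (gpol (fun x => (v x : ZMod q)) i - gpol (fun x => (v x : ZMod q)) j).natDegree = n := by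
    intro i j hij
    rw [key i j hij, natDegree_C_mul (hlc i j hij), hmon i j hij]
  have hsep : ∀ i j, i ≠ j →
      (gpol (fun x => (v x : ZMod q)) i - gpol (fun x => (v x : ZMod q)) j).Separable := by
    intro i j hij
    rw [key i j hij]
    refine Separable.mul ((separable_C _).2 (isUnit_iff_ne_zero.2 (hlc i j hij))) ?_ ?_
    · refine separable_prod_X_sub_C_iff.2 fun a b hab => ?_
      by_contra hne
      exact hd i j i j hij hij a b (Or.inr hne) hab
    · exact isCoprime_of_isUnit_left_h32 (hcu i j hij) _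
  have hcop : ∀ i j i' j', i ≠ j → i' ≠ j' → ({i, j} : Set ι) ≠ {i', j'} →
      IsCoprime (gpol (fun x => (v x : ZMod q)) i - gpol (fun x => (v x : ZMod q)) j)
        (gpol (fun x => (v x : ZMod q)) i' - gpol (fun x => (v x : ZMod q)) j') := by
    intro i j i' j' hij hij' hne
    rw [key i j hij, key i' j' hij']
    refine IsCoprime.mul_left (isCoprime_of_isUnit_left_h32 (hcu i j hij) _)
      (IsCoprime.mul_right (isCoprime_of_isUnit_left_h32 (hcu i' j' hij') _).symm ?_)
    refine IsCoprime.prod_left fun a _ => IsCoprime.prod_right fun b _ => ?_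
    exact isCoprime_X_sub_C_of_isUnit_sub
      (isUnit_iff_ne_zero.2 (sub_ne_zero.2 (hd i j i' j' hij hij' a b (Or.inl hne))))
  refine ⟨⟨?_, fun i j hij => ?_⟩, ⟨?_, ?_, ?_, hdeg⟩⟩
  · refine separable_prod' ?_ ?_
    · intro i _ i' _ hii
      refine IsCoprime.prod_left fun j hj => IsCoprime.prod_right fun j' hj' => ?_
      have h1 : i < j := (Finset.mem_filter.1 hj).2
      have h2 : i' < j' := (Finset.mem_filter.1 hj').2
      refine hcop i j i' j' h1.ne h2.ne fun h => ?_
      have e1 : i ∈ ({i', j'} : Set ι) := h ▸ (by simp)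
      have e2 : i' ∈ ({i, j} : Set ι) := h ▸ (by simp)
      rcases e1 with e1 | e1
      · exact hii e1
      · rcases e2 with e2 | e2
        · exact hii e2.symm
        · have e1' : i = j' := e1
          have e2' : i' = j := e2
          rw [e1'] at h1
          rw [e2'] at h2
          exact lt_asymm h1 h2
    · intro i _
      refine separable_prod' ?_ ?_
      · intro j hj j' hj' hjj
        have h1 : i < j := (Finset.mem_filter.1 hj).2
        have h2 : i < j' := (Finset.mem_filter.1 hj').2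
        refine hcop i j i j' h1.ne h2.ne fun h => ?_
        have e1 : j ∈ ({i, j'} : Set ι) := h ▸ (by simp)
        rcases e1 with e1 | e1
        · exact h1.ne e1.symm
        · exact hjj e1
      · intro j hj
        exact hsep i j (Finset.mem_filter.1 hj).2.ne
  · rw [hdeg i j hij]
    omega
  · intro i j a
    by_cases hij : i = j
    · rw [dif_pos hij, dif_pos hij.symm]
    · rw [dif_neg hij, dif_neg (Ne.symm hij)]
      congr 2
      exact hN.symm i j a
  · intro i j hij a b hab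
    simp only [dif_neg hij] at hab
    by_contra hne
    exact hd i j i j hij hij a b (Or.inr hne) hab
  · intro i j hij s
    have h1 : aeval s (gpol (fun x => (v x : ZMod q)) i) =
        aeval s (gpol (fun x => (v x : ZMod q)) j) ↔
        (gpol (fun x => (v x : ZMod q)) i - gpol (fun x => (v x : ZMod q)) j).eval s = 0 := by
      rw [eval_sub, sub_eq_zero]
      rfl
    rw [h1, key i j hij, eval_mul, eval_C, mul_eq_zero, or_iff_right (hlc i j hij), eval_prod,
      Finset.prod_eq_zero_iff]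
    simp only [dif_neg hij, Finset.mem_univ, true_and, eval_sub, eval_X, eval_C]
    constructor
    · rintro ⟨a, ha⟩
      exact ⟨a, (sub_eq_zero.1 ha).symm⟩
    · rintro ⟨a, ha⟩
      exact ⟨a, sub_eq_zero.2 ha.symm⟩

/-- **Primes with arbitrary symbols.** Proof: `F = AlgebraicClosure ℚ`, `nd` of `exists_nodes`, `E, ζ, U` of
`exists_U_graphs`; `F` is an algebraic closure of the number field `E`. `Re.exists_reduction` for `K := E`
and `T` the finite set of the nodes, the differences of different nodes and the leading coefficients (as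
elements of `E`); `hT` from `hB` and `CopyV` (a pair with `B {i, j} ≠ 0`: the leading coefficient; otherwise
a triple with `B {i, j, l} ≠ 0` and all pairs zero: the difference `nd i j 0 - nd i l 0`). It gives `q`, `A`,
`Φ`, `c ≠ 0` and `ζ' = (Φ ζ) ^ c.val` and `V` as in `Lr.exists_prime_lines` (`Lr/B05.lean`). `nodes_reduction`
for the image of `A` in `F` (`Subring.map`), or with `Φ` composed; the values of `V` at the differences of the
`Φ (nd i j a)` and at the leading coefficients are those of `kap`. -/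
theorem exists_prime_graphs {v : ι × Fin (n + 1) → ℤ} (h : GoodH v) (hn : 2 ≤ n) {ℓ : ℕ}
    (hℓ : ℓ.Prime) (hℓ2 : ℓ ≠ 2) (B : Finset ι → ZMod ℓ)
    (hB : (∃ i j l : ι, i ≠ j ∧ j ≠ l ∧ i ≠ l ∧ B {i, j, l} ≠ 0) ∨ ∃ i j : ι, i ≠ j ∧ B {i, j} ≠ 0)
    (N : ℕ) :
    ∃ (q : ℕ) (_ : Fact q.Prime) (ζ : ZMod q) (V : Val14 (ZMod q) ℓ) (nd : ι → ι → Fin n → ZMod q),
      N < q ∧ IsPrimitiveRoot ζ ℓ ∧ IsArrangement (gpol (fun x => (v x : ZMod q))) ∧
      Nodes (F := ZMod q) (gpol (fun x => (v x : ZMod q))) nd ∧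
      CopyV V.ν (gpol (fun x => (v x : ZMod q))) nd B := by
  have : Fact ℓ.Prime := ⟨hℓ⟩
  have : NeZero ℓ := ⟨hℓ.ne_zero⟩
  obtain ⟨F, _, _, _⟩ : ∃ (F : Type) (_ : Field F) (_ : Algebra ℚ F), IsAlgClosure ℚ F := by
    let _ : Algebra ℚ (AlgebraicClosure ℚ) := AlgebraicClosure.instAlgebra ℚ
    exact ⟨AlgebraicClosure ℚ, inferInstance, AlgebraicClosure.instAlgebra ℚ, inferInstance⟩
  obtain ⟨nd, hN⟩ := exists_nodes (F := F) h
  obtain ⟨E, ζ, U, hfin, hζ, hmem, hC⟩ := exists_U_graphs (F := F) hℓ h hn hN B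
  have : FiniteDimensional ℚ E := hfin
  have : NumberField E := @NumberField.of_module_finite ℚ E _ _ _ E.algebra' hfin
  have : Algebra.IsAlgebraic ℚ F := IsAlgClosure.isAlgebraic
  have : IsAlgClosure E F := ⟨IsAlgClosure.isAlgClosed ℚ, Algebra.IsAlgebraic.tower_top (K := ℚ) E⟩
  -- the leading coefficients
  have hlead : ∀ i j : ι, i ≠ j → (gpolQ v i - gpolQ v j).leadingCoeff =
      ((v (i, Fin.last n) - v (j, Fin.last n) : ℤ) : ℚ) := by
    intro i j hij
    have h1 := gdif_coeff (fun x => (v x : ℚ)) i j (Fin.last n)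
    unfold gdif at h1
    rw [Fin.val_last] at h1
    have h2 : (gpolQ v i - gpolQ v j).coeff n =
        (v (i, Fin.last n) : ℚ) - (v (j, Fin.last n) : ℚ) := h1
    rw [leadingCoeff, hN.lead i j hij, h2]
    push_cast
    rfl
  have hvne : ∀ i j : ι, i ≠ j → v (i, Fin.last n) - v (j, Fin.last n) ≠ 0 := by
    intro i j hij h0
    have h1 := hlead i j hij
    rw [h0, Int.cast_zero, leadingCoeff_eq_zero] at h1
    have h2 := hN.lead i j hij
    rw [h1, natDegree_zero] at h2
    omega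
  -- the elements of `E`
  let nE : ι → ι → Fin n → E := fun i j a => if hij : i ≠ j then ⟨nd i j a, hmem i j hij a⟩ else 0
  have hnE : ∀ i j (hij : i ≠ j) a, nE i j a = ⟨nd i j a, hmem i j hij a⟩ := by
    intro i j hij a
    exact dif_pos hij
  have hnE' : ∀ i j (_ : i ≠ j) a, algebraMap E F (nE i j a) = nd i j a := by
    intro i j hij a
    rw [hnE i j hij a]
    rfl
  let T : Finset E :=
    (Finset.univ.image fun t : ι × ι × Fin n => nE t.1 t.2.1 t.2.2) ∪
    (Finset.univ.image fun t : (ι × ι × Fin n) × (ι × ι × Fin n) =>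
      nE t.1.1 t.1.2.1 t.1.2.2 - nE t.2.1 t.2.2.1 t.2.2.2) ∪
    (Finset.univ.image fun t : ι × ι => ((v (t.1, Fin.last n) - v (t.2, Fin.last n) : ℤ) : E))
  have hT1 : ∀ i j a, nE i j a ∈ T := fun i j a =>
    Finset.mem_union_left _ (Finset.mem_union_left _
      (Finset.mem_image.2 ⟨(i, j, a), Finset.mem_univ _, rfl⟩))
  have hT2 : ∀ i j a i' j' a', nE i j a - nE i' j' a' ∈ T := fun i j a i' j' a' =>
    Finset.mem_union_left _ (Finset.mem_union_right _
      (Finset.mem_image.2 ⟨((i, j, a), (i', j', a')), Finset.mem_univ _, rfl⟩))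
  have hT3 : ∀ i j, ((v (i, Fin.last n) - v (j, Fin.last n) : ℤ) : E) ∈ T := fun i j =>
    Finset.mem_union_right _ (Finset.mem_image.2 ⟨(i, j), Finset.mem_univ _, rfl⟩)
  have hdne : ∀ i j i' j' (_ : i ≠ j) (_ : i' ≠ j') (a a' : Fin n),
      (({i, j} : Set ι) ≠ {i', j'} ∨ a ≠ a') → nE i j a - nE i' j' a' ≠ 0 := by
    intro i j i' j' hij hij' a a' hor h0
    have h1 : nE i j a = nE i' j' a' := sub_eq_zero.1 h0
    rw [hnE i j hij, hnE i' j' hij'] at h1
    have h2 : nd i j a = nd i' j' a' := congrArg Subtype.val h1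
    obtain ⟨h3, h4⟩ := Nodes.ne h hN hij hij' h2
    rcases hor with h5 | h5
    · exact h5 h3
    · exact h5 h4
  have hpairne : ∀ i j l : ι, j ≠ l → i ≠ l → ({i, j} : Set ι) ≠ {i, l} := by
    intro i j l hjl hil he
    have h1 : l ∈ ({i, j} : Set ι) := he ▸ (by simp)
    rcases h1 with h1 | h1
    · exact hil h1.symm
    · exact hjl (Set.mem_singleton_iff.1 h1).symm
  -- the Kummer symbols
  have hk3 : ∀ i j, i ≠ j → Sup.kap ℓ (algebraMap E F ζ) U
      (algebraMap E F ((v (i, Fin.last n) - v (j, Fin.last n) : ℤ) : E)) =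
        B {i, j} := by
    intro i j hij
    have h1 := hC.lead i j hij
    rw [hlead i j hij, map_intCast] at h1
    rw [map_intCast]
    refine h1.trans ?_
    congr <;> exact Subsingleton.elim _ _
  have hk2 : ∀ i j i' j' (_ : i ≠ j) (_ : i' ≠ j') (a a' : Fin n),
      algebraMap E F (nE i j a - nE i' j' a') = nd i j a - nd i' j' a' := by
    intro i j i' j' hij hij' a a'
    rw [map_sub, hnE' i j hij, hnE' i' j' hij']
  have hfirst : ∃ z ∈ T, z ≠ 0 ∧ Sup.kap ℓ (algebraMap E F ζ) U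
      (algebraMap E F z) ≠ 0 := by
    by_cases hp : ∃ i j : ι, i ≠ j ∧ B {i, j} ≠ 0
    · obtain ⟨i, j, hij, hb⟩ := hp
      refine ⟨_, hT3 i j, Int.cast_ne_zero.2 (hvne i j hij), ?_⟩
      rw [hk3 i j hij]
      exact hb
    · have hp' : ∀ i j : ι, i ≠ j → B {i, j} = 0 := by
        intro i j hij
        by_contra hb
        exact hp ⟨i, j, hij, hb⟩
      rcases hB with ⟨i, j, l, hij, hjl, hil, hb⟩ | hB
      · have a0 : Fin n := ⟨0, by omega⟩
        refine ⟨_, hT2 i j a0 i l a0,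
          hdne i j i l hij hil a0 a0 (Or.inl (hpairne i j l hjl hil)), ?_⟩
        rw [hk2 i j i l hij hil a0 a0]
        have h1 : Sup.kap ℓ (algebraMap E F ζ) U (nd i j a0 - nd i l a0) =
            B {i, j, l} - B {i, j} - B {i, l} := by
          have h2 := hC.adj i j l hij hjl hil a0 a0
          rw [if_pos rfl] at h2
          refine h2.trans ?_
          congr <;> exact Subsingleton.elim _ _
        rw [hp' i j hij, hp' i l hil, sub_zero, sub_zero] at h1
        intro h2
        exact hb (h1.symm.trans h2)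
      · exact absurd hB hp
  obtain ⟨q, hq, A, Φ, c, hζA, hNq, hdvd, hc, hprim, hT⟩ :=
    Re.exists_reduction hℓ E F hζ U T hfirst N
  have hcop : Nat.Coprime c.val ℓ := by
    refine ((Nat.Prime.coprime_iff_not_dvd hℓ).2 ?_).symm
    intro hd
    apply hc
    have h5 : c.val = 0 := Nat.eq_zero_of_dvd_of_lt hd (ZMod.val_lt c)
    exact (ZMod.val_eq_zero c).1 h5
  have hζ' : IsPrimitiveRoot ((Φ ⟨ζ, hζA⟩) ^ c.val) ℓ := hprim.pow_of_coprime c.val hcop
  obtain ⟨V, hV⟩ := Lr.exists_val_zmod hℓ hℓ2 hdvd hζ'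
  have hval : ∀ z ∈ T, ∀ hz : z ∈ A, z ≠ 0 → Φ ⟨z, hz⟩ ≠ 0 ∧ V.ν (Φ ⟨z, hz⟩) =
      Sup.kap ℓ (algebraMap E F ζ) U (algebraMap E F z) := by
    intro z hzT hz hz0
    obtain ⟨hz', hrest⟩ := hT z hzT
    obtain ⟨h0, hpow⟩ := hrest hz0
    refine ⟨h0, hV _ _ h0 ?_⟩
    rw [hpow, ZMod.val_mul, ← pow_mul]
    exact (pow_eq_pow_mod _ hprim.pow_eq_one).symm
  -- the subring of `F`
  have hinj : Function.Injective (algebraMap E F) :=
    (algebraMap E F).injective
  let e := A.equivMapOfInjective (algebraMap E F) hinj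
  let A' : Subring F := A.map (algebraMap E F)
  let Φ' : A' →+* ZMod q := Φ.comp (e.symm : A' →+* A)
  have hmA : ∀ i j a, nE i j a ∈ A := fun i j a => (hT _ (hT1 i j a)).1
  have hA' : ∀ i j, i ≠ j → ∀ a, nd i j a ∈ A' := by
    intro i j hij a
    exact Subring.mem_map.2 ⟨nE i j a, hmA i j a, hnE' i j hij a⟩
  have hΦ' : ∀ i j (hij : i ≠ j) a, Φ' ⟨nd i j a, hA' i j hij a⟩ = Φ ⟨nE i j a, hmA i j a⟩ := by
    intro i j hij a
    have h1 : e ⟨nE i j a, hmA i j a⟩ = ⟨nd i j a, hA' i j hij a⟩ :=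
      Subtype.ext (hnE' i j hij a)
    show Φ (e.symm ⟨nd i j a, hA' i j hij a⟩) = _
    rw [← h1, RingEquiv.symm_apply_apply]
  have hsub : ∀ i j a i' j' a', ∃ hz : nE i j a - nE i' j' a' ∈ A,
      Φ ⟨nE i j a - nE i' j' a', hz⟩ = Φ ⟨nE i j a, hmA i j a⟩ - Φ ⟨nE i' j' a', hmA i' j' a'⟩ := by
    intro i j a i' j' a'
    refine ⟨A.sub_mem (hmA i j a) (hmA i' j' a'), ?_⟩
    rw [← map_sub]
    rfl
  have hlc' : ∀ i j, ∃ hz : ((v (i, Fin.last n) - v (j, Fin.last n) : ℤ) : E) ∈ A,
      Φ ⟨((v (i, Fin.last n) - v (j, Fin.last n) : ℤ) : E), hz⟩ =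
        ((v (i, Fin.last n) - v (j, Fin.last n) : ℤ) : ZMod q) := by
    intro i j
    obtain ⟨hz, -⟩ := hT _ (hT3 i j)
    refine ⟨hz, ?_⟩
    have h5 : (⟨((v (i, Fin.last n) - v (j, Fin.last n) : ℤ) : E), hz⟩ : A) =
        ((v (i, Fin.last n) - v (j, Fin.last n) : ℤ) : A) := Subtype.ext (by push_cast; rfl)
    rw [h5, map_intCast]
  have hlc : ∀ i j, i ≠ j →
      ((v (i, Fin.last n) - v (j, Fin.last n) : ℤ) : ZMod q) ≠ 0 ∧
      V.ν ((v (i, Fin.last n) - v (j, Fin.last n) : ℤ) : ZMod q) = B {i, j} := by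
    intro i j hij
    obtain ⟨hz, he⟩ := hlc' i j
    obtain ⟨h0, h1⟩ := hval _ (hT3 i j) hz (Int.cast_ne_zero.2 (hvne i j hij))
    rw [he] at h0 h1
    exact ⟨h0, h1.trans (hk3 i j hij)⟩
  have hdif : ∀ i j i' j' (hij : i ≠ j) (hij' : i' ≠ j') (a a' : Fin n),
      (({i, j} : Set ι) ≠ {i', j'} ∨ a ≠ a') →
        Φ' ⟨nd i j a, hA' i j hij a⟩ - Φ' ⟨nd i' j' a', hA' i' j' hij' a'⟩ ≠ 0 ∧
        V.ν (Φ' ⟨nd i j a, hA' i j hij a⟩ - Φ' ⟨nd i' j' a', hA' i' j' hij' a'⟩) =
          Sup.kap ℓ (algebraMap E F ζ) U (nd i j a - nd i' j' a') := by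
    intro i j i' j' hij hij' a a' hor
    obtain ⟨hz, he⟩ := hsub i j a i' j' a'
    obtain ⟨h0, h1⟩ := hval _ (hT2 i j a i' j' a') hz (hdne i j i' j' hij hij' a a' hor)
    rw [he] at h0 h1
    rw [hΦ' i j hij a, hΦ' i' j' hij' a']
    refine ⟨h0, h1.trans ?_⟩
    rw [hk2 i j i' j' hij hij' a a']
  have hd : ∀ i j i' j' (hij : i ≠ j) (hij' : i' ≠ j') (a a' : Fin n),
      (({i, j} : Set ι) ≠ {i', j'} ∨ a ≠ a') →
        Φ' ⟨nd i j a, hA' i j hij a⟩ ≠ Φ' ⟨nd i' j' a', hA' i' j' hij' a'⟩ := by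
    intro i j i' j' hij hij' a a' hor
    exact sub_ne_zero.1 (hdif i j i' j' hij hij' a a' hor).1
  obtain ⟨hArr, hNod⟩ := nodes_reduction (by omega : 1 ≤ n) hN A' Φ' hA'
    (fun i j hij => (hlc i j hij).1) hd
  refine ⟨q, hq, (Φ ⟨ζ, hζA⟩) ^ c.val, V, _, hNq, hζ', hArr, hNod, ?_, ?_, ?_⟩
  · intro i j hij
    have h1 : (gpol (fun x => (v x : ZMod q)) i - gpol (fun x => (v x : ZMod q)) j).leadingCoeff =
        ((v (i, Fin.last n) - v (j, Fin.last n) : ℤ) : ZMod q) := by
      have h2 := gdif_coeff (fun x => (v x : ZMod q)) i j (Fin.last n)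
      unfold gdif at h2
      rw [Fin.val_last] at h2
      rw [leadingCoeff, hNod.lead i j hij, h2]
      push_cast
      rfl
    rw [h1, map_intCast]
    refine (hlc i j hij).2.trans ?_
    congr <;> exact Subsingleton.elim _ _
  · intro i j hij a b hab
    rw [dif_neg hij, dif_neg hij]
    exact (hdif i j i j hij hij a b (Or.inr hab)).2.trans (hC.par i j hij a b hab)
  · intro i j l hij hjl hil a b
    rw [dif_neg hij, dif_neg hil]
    exact (hdif i j i l hij hil a b (Or.inl (hpairne i j l hjl hil))).2.trans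
      (hC.adj i j l hij hjl hil a b)

end Pool.Agent.Lib.MP_89bcae_ag
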