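import Mathlib
import Pool.Agent.Lib.MP_89bcae_ag.Gr.E03
import Pool.Agent.Lib.MP_89bcae_ag.LIndB14

/-!
# The criterion when all the nodes are rational
-/

open Polynomial

open scoped Classical

namespace Pool.Agent.Lib.MP_89bcae_ag

open Superelliptic

variable {k : Type} [Field k] {ι : Type} [Fintype ι] [LinearOrder ι] {n : ℕ}

/-- **The criterion, nodes in `k`.** Proof: let `nd' i j a = algebraMap k F (nd i j a)` and let `ν x = V.ν y`
if `x = algebraMap k F y` (for instance with `Function.invFun (algebraMap k F) x`; `algebraMap k F` is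
injective). The nodes over `F` are the `nd' i j a`, `i ≠ j` (`Nodes.mem` over `F`: `α i - α j` has degree `n`
and the `n` different roots `nd i j a` in `k`, so `Nodes.prod_eq` over `k` gives its factorisation, and a root
in `F` is one of the `nd' i j a`), so `IntermediateField.adjoin k (nodes k F α) = ⊥` and `ν` is `IsVal` on it.
`CopyV` for `ν` and `nd'` is that of `V.ν` and `nd`. Then `indepW_of_copyV`. -/
theorem indepW_of_copyV_base {ℓ : ℕ} (hℓ : ℓ.Prime) (V : Val14 k ℓ) (α : ι → k[X])
    (hα : IsArrangement α) (W : ι → ℕ) (hW : ∀ i, (W i).Coprime ℓ)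
    (nd : ι → ι → Fin n → k) (hN : Nodes (F := k) α nd) (c : Finset ι → ZMod ℓ) (g : ι → ZMod ℓ)
    (h : CopyV V.ν α nd fun T => c T - ∑ i ∈ T, g i)
    (hT : Lr.GoodT (fun i => (W i : ZMod ℓ)) c Finset.univ)
    (hR : Lr.GoodR (fun i => (W i : ZMod ℓ)) (fun i l => c {i, l}) g Finset.univ)
    (F : Type) [Field F] [Algebra k F] :
    ArrangementIndependentW ℓ k F W α := by
  have hinj : Function.Injective (algebraMap k F) := (algebraMap k F).injective
  have hinv : ∀ x : k, Function.invFun (algebraMap k F) (algebraMap k F x) = x :=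
    Function.leftInverse_invFun hinj
  have hN' : Nodes (F := F) α fun i j a => algebraMap k F (nd i j a) := by
    refine ⟨fun i j a => congrArg _ (hN.symm i j a), fun i j hij => hinj.comp (hN.inj i j hij), ?_, hN.lead⟩
    intro i j hij s
    have hne : α i ≠ α j := by
      intro he
      apply hα.natDegree_ne_zero i j hij
      rw [he, sub_self, natDegree_zero]
    constructor
    · intro hs
      have h1 := hN.prod_eq hij hne
      rw [Algebra.algebraMap_self, Polynomial.map_id, RingHom.id_apply] at h1
      have h2 := congrArg (aeval s) h1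
      rw [map_sub, hs, sub_self, map_mul, aeval_C, map_prod] at h2
      rcases mul_eq_zero.1 h2.symm with h3 | h3
      · rw [map_eq_zero_iff _ hinj, leadingCoeff_eq_zero, sub_eq_zero] at h3
        exact absurd h3 hne
      · obtain ⟨a, -, ha⟩ := Finset.prod_eq_zero_iff.1 h3
        rw [map_sub, aeval_X, aeval_C, sub_eq_zero] at ha
        exact ⟨a, ha.symm⟩
    · rintro ⟨a, rfl⟩
      have h1 : aeval (nd i j a) (α i) = aeval (nd i j a) (α j) := (hN.mem i j hij _).2 ⟨a, rfl⟩
      rw [aeval_algebraMap_apply, aeval_algebraMap_apply, h1]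
  have hbot : ∀ x ∈ (IntermediateField.adjoin k (nodes k F α)).toSubfield, ∃ y : k, algebraMap k F y = x := by
    have hb : IntermediateField.adjoin k (nodes k F α) = ⊥ := by
      rw [IntermediateField.adjoin_eq_bot_iff]
      rintro s ⟨i, j, hij, hs⟩
      obtain ⟨a, rfl⟩ := (hN'.mem i j hij s).1 hs
      exact IntermediateField.mem_bot.2 ⟨_, rfl⟩
    intro x hx
    rw [hb] at hx
    exact IntermediateField.mem_bot.1 hx
  have hν : IsVal (IntermediateField.adjoin k (nodes k F α)).toSubfield
      fun x : F => V.ν (Function.invFun (algebraMap k F) x) := by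
    constructor
    · intro x hx y hy hx0 hy0
      obtain ⟨x', rfl⟩ := hbot x hx
      obtain ⟨y', rfl⟩ := hbot y hy
      rw [← map_mul, hinv, hinv, hinv]
      exact V.mul _ _ (fun h0 => hx0 (by rw [h0, map_zero])) fun h0 => hy0 (by rw [h0, map_zero])
    · show V.ν (Function.invFun (algebraMap k F) (-1)) = 0
      rw [← map_one (algebraMap k F), ← map_neg, hinv]
      exact V.neg_one
  refine indepW_of_copyV hℓ α hα W hW _ hν _ hN' c g ⟨?_, ?_, ?_⟩ hT hR
  · intro i j hij
    have h1 := h.lead i j hij
    rw [Algebra.algebraMap_self, RingHom.id_apply] at h1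
    show V.ν (Function.invFun (algebraMap k F) (algebraMap k F _)) = _
    rw [hinv, h1]
  · intro i j hij a b hab
    show V.ν (Function.invFun (algebraMap k F) (algebraMap k F _ - algebraMap k F _)) = _
    rw [← map_sub, hinv]
    exact h.par i j hij a b hab
  · intro i j l hij hjl hil a b
    show V.ν (Function.invFun (algebraMap k F) (algebraMap k F _ - algebraMap k F _)) = _
    rw [← map_sub, hinv]
    exact h.adj i j l hij hjl hil a b

end Pool.Agent.Lib.MP_89bcae_ag
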