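import Mathlib
import Pool.Agent.Lib.MP_89bcae_ag.DefsS8
import Pool.Agent.Lib.MP_89bcae_ag.BrgN8
import Pool.Agent.Lib.MP_89bcae_ag.Wl.GA10
import Pool.Agent.Lib.MP_89bcae_ag.Lr.A14
import Pool.Agent.Lib.MP_89bcae_ag.Gr.E08
import Pool.Agent.Lib.MP_89bcae_ag.Gr.E09

/-!
# Finite fields without Tate classes
-/

open Polynomial

open scoped Classical

set_option linter.unusedSectionVars false

set_option linter.style.haveILetI false

namespace Pool.Agent.Lib.MP_89bcae_ag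

open Superelliptic

variable {ι : Type} {n : ℕ}

/-- Restriction to a set of indices. (`GoodG.restrict` and the same for the types D and K; `gred` of the
restriction is `gred` by definition; `coe_pair_ne_h30`.) -/
theorem GoodH.restrict {v : ι × Fin (n + 1) → ℤ} (h : GoodH v) (I : Finset ι) :
    GoodH (fun x : I × Fin (n + 1) => v (x.1, x.2)) := by
  have hc : ∀ {a b : I}, a ≠ b → (a : ι) ≠ (b : ι) := fun hab hcon => hab (Subtype.ext hcon)
  refine ⟨h.good.restrict I, ?_, ?_⟩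
  · intro a b hab
    obtain ⟨p, hp, hp2, hD⟩ := h.typeD a b (hc hab)
    refine ⟨p, hp, hp2, ⟨?_, ?_, ?_, hD.dbl⟩⟩
    · intro c d hcd
      exact hD.lead c d (hc hcd)
    · intro c d hcd hne
      exact hD.sep c d (hc hcd) (coe_pair_ne_h30 hne)
    · intro a' b' c d hab' hcd hne
      exact hD.cop a' b' c d (hc hab') (hc hcd) (coe_pair_ne_h30 hne)
  · intro a b hab
    obtain ⟨p, hp, hK⟩ := h.typeK a b (hc hab)
    refine ⟨p, hp, ⟨?_, hK.dvd, hK.ndvd, hK.deg, ?_, ?_⟩⟩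
    · intro c d hcd hne
      exact hK.lead c d (hc hcd) (coe_pair_ne_h30 hne)
    · intro c d hcd
      exact hK.sep c d (hc hcd)
    · intro a' b' c d hab' hcd hne
      exact hK.cop a' b' c d (hc hab') (hc hcd) (coe_pair_ne_h30 hne)

variable [Fintype ι] [LinearOrder ι]

/-- **Finite fields without Tate classes.** Proof: let `v' x = v (x.1, x.2)` on `I × Fin (n + 1)`
(`GoodH.restrict`). `Lr.exists_good` for the type `I`, `S = Finset.univ` and the weights `W` gives `c, g` with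
`GoodT` and `GoodR`; put `B T = c T - ∑ i ∈ T, g i`; `Lr.GoodT.exists_ne_gauge` gives `hB`;
`exists_prime_graphs` for `v'`, `B` and the bound `max N ℓ` gives `q, ζ, V, nd`. The family
`Graph.polyFamily (ZMod q) v i` (`i : I`) is `gpol (fun x => (v' x : ZMod q)) i` by definition
(`unfold`/`rfl`). `IsArrangement` is part of `exists_prime_graphs`. For `F, L, Ω, k'`:
`indepW_of_copyV_base`, then `Wt.Lns.arrangementW` (`(ℓ : ZMod q) ≠ 0` because `0 < ℓ < q`) and
`tateClassesTorsionN8`. -/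
theorem exists_prime_hasNoTateClasses_graph {ℓ : ℕ} (hℓ : ℓ.Prime) (hℓ2 : ℓ ≠ 2)
    {v : ι × Fin (n + 1) → ℤ} (hv : GoodH v) (hn : 2 ≤ n) {I : Finset ι} (hI : 4 ≤ I.card)
    (W : I → ℕ) (hW : ∀ i, (W i).Coprime ℓ) (hs : (∑ i, W i).Coprime ℓ) (N : ℕ) :
    ∃ (q : ℕ) (_ : Fact q.Prime), N < q ∧ Graph.HasNoTateClasses ℓ (ZMod q) v I W := by
  haveI : Fact ℓ.Prime := ⟨hℓ⟩
  have hcop : ∀ m : ℕ, m.Coprime ℓ → (m : ZMod ℓ) ≠ 0 := by
    intro m hm h0
    rw [ZMod.natCast_eq_zero_iff] at h0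
    exact hℓ.one_lt.ne' (Nat.eq_one_of_dvd_coprimes hm h0 dvd_rfl)
  have hcard : (Finset.univ : Finset I).card = I.card := by
    rw [Finset.card_univ, Fintype.card_coe]
  obtain ⟨c, g, hT, hR⟩ := Lr.exists_good (ι := I) (ℓ := ℓ) hℓ2 (w := fun i => (W i : ZMod ℓ))
    Finset.univ (by rw [hcard]; exact hI) (fun i _ => hcop _ (hW i))
    (by
      have h := hcop _ hs
      rw [Nat.cast_sum] at h
      exact h)
  have hB := Lr.GoodT.exists_ne_gauge hT g (by rw [Fintype.card_coe]; omega)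
  obtain ⟨q, hq, ζ, V, nd, hNq, hζ, hα, hN, hV⟩ :=
    exists_prime_graphs (hv.restrict I) hn hℓ hℓ2 (fun T => c T - ∑ i ∈ T, g i) hB (max N ℓ)
  have hℓq : ℓ < q := (le_max_right N ℓ).trans_lt hNq
  have hℓ0 : ((ℓ : ℕ) : ZMod q) ≠ 0 := by
    intro h0
    rw [ZMod.natCast_eq_zero_iff] at h0
    exact absurd (Nat.le_of_dvd hℓ.pos h0) (not_le.mpr hℓq)
  refine ⟨q, hq, (le_max_left N ℓ).trans_lt hNq, hα, ?_⟩
  intro F L Ω _ _ _ _ _ _ _ _ _ k' hk'
  haveI := hk'
  exact tateClassesTorsionN8 (Wt.Lns.arrangementW F L Ω hℓ hℓ0 hζ W hW hs _ hα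
    (indepW_of_copyV_base hℓ V _ hα W hW nd hN c g hV hT hR F) k')

end Pool.Agent.Lib.MP_89bcae_ag
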