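import Mathlib
import Pool.Agent.Lib.MP_89bcae_ag.DefsS8
import Pool.Agent.Lib.MP_89bcae_ag.Gr.C04
import Pool.Agent.Lib.MP_89bcae_ag.Gr.E10
import Pool.Agent.Lib.MP_89bcae_ag.Gph.Fin

/-!
# The density one theorem for graphs of polynomials, with finite fields
-/

open Polynomial Filter Topology

open scoped Classical

set_option linter.unusedVariables false
set_option linter.style.haveILetI false

namespace Pool.Agent.Lib.MP_89bcae_ag

open Superelliptic

/-- The property over `ℚ`. -/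
theorem hasNoTateClasses_rat {m n : ℕ} {v : Fin m × Fin (n + 1) → ℤ} (hv : GoodG v)
    (hn0 : n ≠ 0) {ℓ : ℕ} (hℓ : ℓ.Prime) {I : Finset (Fin m)}
    (hI : (3 ≤ n ∧ 3 ≤ I.card) ∨ (2 ≤ n ∧ 4 ≤ I.card)) (W : I → ℕ) (hW : ∀ i, (W i).Coprime ℓ)
    (hs : (∑ i, W i).Coprime ℓ) : Graph.HasNoTateClasses ℓ ℚ v I W := by
  have key : (fun i : I => Graph.polyFamily ℚ v i) =
      fun i : I => (gpolQ (fun x : I × Fin (n + 1) => v (x.1, x.2)) i).map (algebraMap ℚ ℚ) := by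
    funext i
    rw [Algebra.algebraMap_self, Polynomial.map_id]
    rfl
  have key' : (fun i : I => Graph.polyFamily ℚ v i) =
      gpolQ (fun x : I × Fin (n + 1) => v (x.1, x.2)) := rfl
  refine ⟨?_, ?_⟩
  · rw [key]
    exact (hv.restrict I).isArrangement hn0 ℚ
  · intro F L Ω _ _ _ _ _ _ _ _ _ k' hk'
    have hF : IsAlgClosed F := IsAlgClosure.isAlgClosed ℚ
    haveI : NeZero ℓ := ⟨hℓ.ne_zero⟩
    let K := CyclotomicField ℓ ℚ
    letI : Algebra ℚ K := CyclotomicField.algebra ℓ ℚ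
    haveI : IsCyclotomicExtension {ℓ} ℚ K := inferInstance
    haveI hfin : FiniteDimensional ℚ K := IsCyclotomicExtension.finiteDimensional {ℓ} ℚ K
    let e : K →ₐ[ℚ] F := IsAlgClosed.lift
    letI : Algebra K F := e.toRingHom.toAlgebra
    haveI : IsScalarTower ℚ K F := IsScalarTower.of_algebraMap_eq fun x => (e.commutes x).symm
    have hn' : (3 ≤ n ∧ 3 ≤ Fintype.card I) ∨ (2 ≤ n ∧ 4 ≤ Fintype.card I) := by
      rw [Fintype.card_coe]
      exact hI
    obtain ⟨h1, h2⟩ := graphIndepW hℓ (hv.restrict I) hn' W hW K F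
    rw [key']
    exact tateClassesTorsionN8 (Wt.tateClassesTorsionW_of_cyclotomic45 hℓ F L Ω K W _
      (fun hcl h0 ζ hζ K' hK' => by
        haveI := hcl
        haveI := hK'
        exact Wt.Lns.arrangementW F L Ω hℓ h0 hζ W hW hs _ h1 h2 K') k' hk')

/-- **The density one theorem.** -/
theorem graphCoversR (m n : ℕ) (hn : 2 ≤ n) :
    Tendsto (fun H : ℕ => ({v : Fin m × Fin (n + 1) → ℤ | (∀ i, |v i| ≤ H) ∧
      ∀ ℓ : ℕ, ℓ.Prime → ∀ I : Finset (Fin m), ((3 ≤ n ∧ 3 ≤ I.card) ∨ 4 ≤ I.card) →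
        ∀ W : I → ℕ, (∀ i, (W i).Coprime ℓ) → (∑ i, W i).Coprime ℓ →
          Graph.HasNoTateClasses ℓ ℚ v I W ∧
          (ℓ ≠ 2 → 4 ≤ I.card → ∀ N : ℕ, ∃ (q : ℕ) (_ : Fact q.Prime), N < q ∧
            Graph.HasNoTateClasses ℓ (ZMod q) v I W)}.ncard : ℝ) /
      (2 * H + 1) ^ (m * (n + 1))) atTop (𝓝 1) := by
  have hcard : Fintype.card (Fin m × Fin (n + 1)) = m * (n + 1) := by
    rw [Fintype.card_prod, Fintype.card_fin, Fintype.card_fin]
  rw [← hcard]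
  refine density_mono8 (Fintype.card (Fin m × Fin (n + 1))) rfl ?_ (density_goodH hn)
  intro v hv ℓ hℓ I hI W hW hs
  refine ⟨?_, fun hℓ2 hI4 N => exists_prime_hasNoTateClasses_graph hℓ hℓ2 hv hn hI4 W hW hs N⟩
  exact hasNoTateClasses_rat hv.good (by omega) hℓ (hI.imp_right fun h => ⟨hn, h⟩) W hW hs

end Pool.Agent.Lib.MP_89bcae_ag
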